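import Pool.Agent.Lib.MP_df705a_gt.Mg.G058

/-!
# The data `f` and `Γ` of a metric in an adapted parametrization
-/

open scoped Manifold ContDiff Topology
open Set Bundle Module Filter

noncomputable section

namespace Pool.Agent.Lib.MP_df705a_gt.Fib

open Pool.Agent.Lib.MP_df705a_gt.Twist Pool.Agent.Lib.MP_df705a_gt.Perm
open Pool.Agent.Lib.MP_df705a_gt.Sub (mB connMetric expn hd lift Dat)
open Pool.Agent.Lib.MP_df705a_gt.Circ (Horizontal Submersion HorAt cf Para)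

variable {E₁ : Type*} [NormedAddCommGroup E₁] [NormedSpace ℝ E₁] [FiniteDimensional ℝ E₁]
  {E₂ : Type*} [NormedAddCommGroup E₂] [NormedSpace ℝ E₂] [FiniteDimensional ℝ E₂]
  {B : Type*} [TopologicalSpace B] [ChartedSpace E₁ B] [IsManifold 𝓘(ℝ, E₁) ∞ B]
  {E : Type*} [NormedAddCommGroup E] [NormedSpace ℝ E] [FiniteDimensional ℝ E]
  {M : Type*} [TopologicalSpace M] [ChartedSpace E M] [IsManifold 𝓘(ℝ, E) ∞ M]

/-- The form `g` in the parametrization `σ`. -/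
def gσ (g : ContMDiffRiemannianMetric 𝓘(ℝ, E) ∞ E (fun x : M => TangentSpace 𝓘(ℝ, E) x))
    (σ : E₁ × E₂ → M) (y : E₁ × E₂) : (E₁ × E₂) →L[ℝ] (E₁ × E₂) →L[ℝ] ℝ :=
  let T : (E₁ × E₂) →L[ℝ] E := mfderiv 𝓘(ℝ, E₁ × E₂) 𝓘(ℝ, E) σ y
  let G : E →L[ℝ] E →L[ℝ] ℝ := g.inner (σ y)
  G.bilinearComp T T

theorem gσ_apply (g : ContMDiffRiemannianMetric 𝓘(ℝ, E) ∞ E
      (fun x : M => TangentSpace 𝓘(ℝ, E) x)) (σ : E₁ × E₂ → M) (y v w : E₁ × E₂) :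
    gσ g σ y v w = g.inner (σ y) (mfderiv 𝓘(ℝ, E₁ × E₂) 𝓘(ℝ, E) σ y v)
      (mfderiv 𝓘(ℝ, E₁ × E₂) 𝓘(ℝ, E) σ y w) := rfl

/-- The matrix of the metric of the fibres. -/
def fm (g : ContMDiffRiemannianMetric 𝓘(ℝ, E) ∞ E (fun x : M => TangentSpace 𝓘(ℝ, E) x))
    (σ : E₁ × E₂ → M) (y : E₁ × E₂) : Matrix (Fin (finrank ℝ E₂)) (Fin (finrank ℝ E₂)) ℝ :=
  fun i j => gσ g σ y (0, finBasis ℝ E₂ i) (0, finBasis ℝ E₂ j)

/-- The connection: `(u, Γ u)` is orthogonal to the fibres. -/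
def gam (g : ContMDiffRiemannianMetric 𝓘(ℝ, E) ∞ E (fun x : M => TangentSpace 𝓘(ℝ, E) x))
    (σ : E₁ × E₂ → M) (y : E₁ × E₂) : E₁ →L[ℝ] E₂ :=
  ∑ i, (∑ j, (-(fm g σ y)⁻¹ i j) • ((gσ g σ y (0, finBasis ℝ E₂ j)).comp
    (ContinuousLinearMap.inl ℝ E₁ E₂))).smulRight (finBasis ℝ E₂ i)

end Pool.Agent.Lib.MP_df705a_gt.Fib
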