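import Pool.Agent.Lib.MP_df705a_gt.Mg.G058
import Pool.Agent.Lib.MP_df705a_gt.Perm.Defs

/-!
# Biconformal deformations of Riemannian submersions with minimal fibres: definitions

Local coordinates: `q = (x, y)` in `E₁ × E₂`, the submersion is `(x, y) ↦ x`; the metric is
`connMetric h f Γ α β = e^{2α} h(dx, dx) + e^{2β} f(dy - Γ dx, dy - Γ dx)` where `h` depends on
`x` only.
-/

open scoped Manifold ContDiff Topology
open Set Bundle Module Filter

noncomputable section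

namespace Pool.Agent.Lib.MP_df705a_gt.Fib

open Pool.Agent.Lib.MP_df705a_gt.Twist Pool.Agent.Lib.MP_df705a_gt.Perm
open Pool.Agent.Lib.MP_df705a_gt.Sub (mB connMetric expn hd lift Dat)
open Pool.Agent.Lib.MP_df705a_gt.Circ (Horizontal Submersion HorAt cf)

section local_defs

variable {E₁ : Type*} [NormedAddCommGroup E₁] [NormedSpace ℝ E₁] [FiniteDimensional ℝ E₁]
  {E₂ : Type*} [NormedAddCommGroup E₂] [NormedSpace ℝ E₂] [FiniteDimensional ℝ E₂]

/-- The metric without conformal factors. -/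
def conn₀ (h : Curv.Coeff E₁)
    (f : E₁ × E₂ → Matrix (Fin (finrank ℝ E₂)) (Fin (finrank ℝ E₂)) ℝ)
    (Γ : E₁ × E₂ → E₁ →L[ℝ] E₂) : Curv.Coeff (E₁ × E₂) :=
  connMetric h f Γ (fun _ => 0) (fun _ => 0)

/-- The normal form of the connection at the point `q`. -/
structure NF (Γ : E₁ × E₂ → E₁ →L[ℝ] E₂) (q : E₁ × E₂) : Prop where
  zero : Γ q = 0
  dy : ∀ w : E₂, fderiv ℝ Γ q (0, w) = 0
  anti : ∀ u v : E₁, fderiv ℝ Γ q (u, 0) v = -fderiv ℝ Γ q (v, 0) u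

/-- The trace `∑ h^{ij} ∂_i (div_y Γ_j)`. -/
def trG (h : Curv.Coeff E₁) (Γ : E₁ × E₂ → E₁ →L[ℝ] E₂) (q : E₁ × E₂) : ℝ :=
  ∑ i, ∑ j, (h q.1)⁻¹ i j *
    fderiv ℝ (fun p : E₁ × E₂ => dv (fun y => Γ (p.1, y) (finBasis ℝ E₁ j)) p.2) q
      (finBasis ℝ E₁ i, 0)

/-- The trace `∑ h^{ij} ∂_i ∂_j log det f`. -/
def trD (h : Curv.Coeff E₁)
    (f : E₁ × E₂ → Matrix (Fin (finrank ℝ E₂)) (Fin (finrank ℝ E₂)) ℝ) (q : E₁ × E₂) : ℝ :=
  ∑ i, ∑ j, (h q.1)⁻¹ i j *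
    fderiv ℝ (fun p => fderiv ℝ (fun p => Real.log (f p).det) p (finBasis ℝ E₁ j, 0)) q
      (finBasis ℝ E₁ i, 0)

/-- Near `q` the horizontal transport preserves the volume densities of the fibres. -/
def Min (f : E₁ × E₂ → Matrix (Fin (finrank ℝ E₂)) (Fin (finrank ℝ E₂)) ℝ)
    (Γ : E₁ × E₂ → E₁ →L[ℝ] E₂) (q : E₁ × E₂) : Prop :=
  ∀ᶠ p in 𝓝 q, ∀ u, expn f Γ p u = 0

end local_defs

section subm

variable {E₁ : Type*} [NormedAddCommGroup E₁] [NormedSpace ℝ E₁] [FiniteDimensional ℝ E₁]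
  {B : Type*} [TopologicalSpace B] [ChartedSpace E₁ B] [IsManifold 𝓘(ℝ, E₁) ∞ B]
  {E : Type*} [NormedAddCommGroup E] [NormedSpace ℝ E] [FiniteDimensional ℝ E]
  {M : Type*} [TopologicalSpace M] [ChartedSpace E M] [IsManifold 𝓘(ℝ, E) ∞ M]

/-- The map `pr : (M, g) → (B, gB)` is a Riemannian submersion. -/
def RiemSub (g : ContMDiffRiemannianMetric 𝓘(ℝ, E) ∞ E (fun x : M => TangentSpace 𝓘(ℝ, E) x))
    (gB : ContMDiffRiemannianMetric 𝓘(ℝ, E₁) ∞ E₁ (fun x : B => TangentSpace 𝓘(ℝ, E₁) x))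
    (pr : M → B) : Prop :=
  Submersion E E₁ pr ∧ ∀ (p : M) (u v : TangentSpace 𝓘(ℝ, E) p),
    Horizontal (E₁ := E₁) g pr p u → Horizontal (E₁ := E₁) g pr p v →
      gB.inner (pr p) (mfderiv 𝓘(ℝ, E) 𝓘(ℝ, E₁) pr p u) (mfderiv 𝓘(ℝ, E) 𝓘(ℝ, E₁) pr p v) =
        g.inner p u v

/-- The Laplacian of every function pulled back from the base is pulled back from the base; for a
Riemannian submersion this says that the fibres are minimal. -/
def MinimalFibres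
    (g : ContMDiffRiemannianMetric 𝓘(ℝ, E) ∞ E (fun x : M => TangentSpace 𝓘(ℝ, E) x))
    (gB : ContMDiffRiemannianMetric 𝓘(ℝ, E₁) ∞ E₁ (fun x : B => TangentSpace 𝓘(ℝ, E₁) x))
    (pr : M → B) : Prop :=
  ∀ u : B → ℝ, Sm E₁ u → ∀ p, Lap g (fun x => u (pr x)) p = Lap gB u (pr p)

/-- In every smooth local parametrization `σ` of a fibre of `pr` by the vector space `F`, the scalar
curvature of the pullback of `g` is nonpositive. -/
def NonposIn (F : Type*) [NormedAddCommGroup F] [NormedSpace ℝ F] [FiniteDimensional ℝ F]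
    (g : ContMDiffRiemannianMetric 𝓘(ℝ, E) ∞ E (fun x : M => TangentSpace 𝓘(ℝ, E) x))
    (pr : M → B) : Prop :=
  ∀ (σ : F → M) (y : F), ContMDiffAt 𝓘(ℝ, F) 𝓘(ℝ, E) ∞ σ y →
    Function.Injective (mfderiv 𝓘(ℝ, F) 𝓘(ℝ, E) σ y) →
    (∀ᶠ y' in 𝓝 y, pr (σ y') = pr (σ y)) → Curv.scal (cf g σ) y ≤ 0

/-- The scalar curvature of the fibres (with the induced metrics) is nonpositive: in every smooth
local parametrization `σ` of a fibre, of dimension `k`, the scalar curvature of the pullback of `g`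
is nonpositive. -/
def NonposFibres (k : ℕ)
    (g : ContMDiffRiemannianMetric 𝓘(ℝ, E) ∞ E (fun x : M => TangentSpace 𝓘(ℝ, E) x))
    (pr : M → B) : Prop :=
  NonposIn (EuclideanSpace ℝ (Fin k)) g pr

/-- The metric `g` is obtained from `g₀` by multiplying the metric on the orthogonal complements of
the fibres of `pr` by `a²` and the metric of the fibres by `b²`. -/
def Biconformal (E₁ : Type*) [NormedAddCommGroup E₁] [NormedSpace ℝ E₁]
    {B : Type*} [TopologicalSpace B] [ChartedSpace E₁ B]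
    (g₀ g : ContMDiffRiemannianMetric 𝓘(ℝ, E) ∞ E (fun x : M => TangentSpace 𝓘(ℝ, E) x))
    (pr : M → B) (a b : M → ℝ) : Prop :=
  ∀ (p : M) (u v w z : TangentSpace 𝓘(ℝ, E) p),
    Horizontal (E₁ := E₁) g₀ pr p u → Horizontal (E₁ := E₁) g₀ pr p v →
    mfderiv 𝓘(ℝ, E) 𝓘(ℝ, E₁) pr p w = 0 → mfderiv 𝓘(ℝ, E) 𝓘(ℝ, E₁) pr p z = 0 →
      g.inner p (u + w) (v + z) = a p ^ 2 * g₀.inner p u v + b p ^ 2 * g₀.inner p w z

end subm

end Pool.Agent.Lib.MP_df705a_gt.Fib
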