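import Pool.Agent.Lib.MP_df705a_gt.Fib.Defs
import Pool.Agent.Lib.MP_df705a_gt.Fib.FibredDefs
import Pool.Agent.Lib.MP_df705a_gt.Fib.SubChart

/-!
# TASK G3: a biconformal deformation of a Riemannian submersion in adapted coordinates
-/

open scoped Manifold ContDiff Topology
open Set Bundle Module Filter

noncomputable section

namespace Pool.Agent.Lib.MP_df705a_gt.Fib

open Pool.Agent.Lib.MP_df705a_gt.Twist Pool.Agent.Lib.MP_df705a_gt.Perm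
open Pool.Agent.Lib.MP_df705a_gt.Sub (mB connMetric expn hd lift Dat)
open Pool.Agent.Lib.MP_df705a_gt.Circ (Horizontal Submersion HorAt cf Para)

variable {E₁ : Type*} [NormedAddCommGroup E₁] [NormedSpace ℝ E₁] [FiniteDimensional ℝ E₁]
  {E₂ : Type*} [NormedAddCommGroup E₂] [NormedSpace ℝ E₂] [FiniteDimensional ℝ E₂]
  {B : Type*} [TopologicalSpace B] [ChartedSpace E₁ B] [IsManifold 𝓘(ℝ, E₁) ∞ B]
  {E : Type*} [NormedAddCommGroup E] [NormedSpace ℝ E] [FiniteDimensional ℝ E]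
  {M : Type*} [TopologicalSpace M] [ChartedSpace E M] [IsManifold 𝓘(ℝ, E) ∞ M]

namespace G3

omit [FiniteDimensional ℝ E₁] in
/-- The matrix of the restriction of a form to the second factor computes the form. -/
theorem mB_snd (S : (E₁ × E₂) →L[ℝ] (E₁ × E₂) →L[ℝ] ℝ) (w w' : E₂) :
    mB (fun i j => S (0, finBasis ℝ E₂ i) (0, finBasis ℝ E₂ j)) w w' = S (0, w) (0, w') := by
  have h3 := bilin_sum (finBasis ℝ E₂)
    (S.bilinearComp (ContinuousLinearMap.inr ℝ E₁ E₂) (ContinuousLinearMap.inr ℝ E₁ E₂))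
    (fun i => (finBasis ℝ E₂).repr w i) (fun i => (finBasis ℝ E₂).repr w' i)
  rw [(finBasis ℝ E₂).sum_repr, (finBasis ℝ E₂).sum_repr] at h3
  have h4 : S (0, w) (0, w') = S.bilinearComp (ContinuousLinearMap.inr ℝ E₁ E₂)
    (ContinuousLinearMap.inr ℝ E₁ E₂) w w' := rfl
  rw [h4, h3]
  unfold mB
  refine Finset.sum_congr rfl fun i _ => Finset.sum_congr rfl fun j _ => ?_
  have h5 : S.bilinearComp (ContinuousLinearMap.inr ℝ E₁ E₂) (ContinuousLinearMap.inr ℝ E₁ E₂)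
    (finBasis ℝ E₂ i) (finBasis ℝ E₂ j) = S (0, finBasis ℝ E₂ i) (0, finBasis ℝ E₂ j) := rfl
  rw [h5]
  ring

omit [FiniteDimensional ℝ E₁] in
/-- The vectors `(u, Γ u)` are orthogonal to the second factor. -/
theorem orth (S : (E₁ × E₂) →L[ℝ] (E₁ × E₂) →L[ℝ] ℝ) (hs : ∀ v w, S v w = S w v)
    (m : Matrix (Fin (finrank ℝ E₂)) (Fin (finrank ℝ E₂)) ℝ)
    (hm : ∀ i j, m i j = S (0, finBasis ℝ E₂ i) (0, finBasis ℝ E₂ j)) (hdet : IsUnit m.det)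
    (u : E₁) (Γ : E₂)
    (hΓ : Γ = ∑ i, (∑ j, -m⁻¹ i j * S (0, finBasis ℝ E₂ j) (u, 0)) • finBasis ℝ E₂ i)
    (w : E₂) : S (u, Γ) (0, w) = 0 := by
  -- it suffices to treat the basis
  suffices h : ∀ k, S (u, Γ) (0, finBasis ℝ E₂ k) = 0 by
    have h1 : (S (u, Γ)).comp (ContinuousLinearMap.inr ℝ E₁ E₂) = 0 := by
      apply ContinuousLinearMap.coe_injective
      refine (finBasis ℝ E₂).ext fun k => ?_
      exact h k
    exact DFunLike.congr_fun h1 w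
  intro k
  have h1 : (u, Γ) = (u, (0 : E₂)) + ∑ i, (∑ j, -m⁻¹ i j * S (0, finBasis ℝ E₂ j) (u, 0)) •
      ((0 : E₁), finBasis ℝ E₂ i) := by
    rw [hΓ]
    refine Prod.ext ?_ ?_
    · simp [Prod.fst_sum]
    · simp [Prod.snd_sum]
  rw [h1, map_add, map_sum, add_apply, sum_apply]
  have h2 : ∀ i, (S ((∑ j, -m⁻¹ i j * S (0, finBasis ℝ E₂ j) (u, 0)) •
      ((0 : E₁), finBasis ℝ E₂ i))) (0, finBasis ℝ E₂ k) =
      ∑ j, -m⁻¹ i j * S (0, finBasis ℝ E₂ j) (u, 0) * m i k := by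
    intro i
    rw [map_smul, smul_apply, ← hm, smul_eq_mul, Finset.sum_mul]
  rw [Finset.sum_congr rfl fun i _ => h2 i, Finset.sum_comm]
  have h3 : ∀ j, ∑ i, -m⁻¹ i j * S (0, finBasis ℝ E₂ j) (u, 0) * m i k =
      -(S (0, finBasis ℝ E₂ j) (u, 0) * (m * m⁻¹) k j) := by
    intro j
    rw [Matrix.mul_apply, Finset.mul_sum, ← Finset.sum_neg_distrib]
    refine Finset.sum_congr rfl fun i _ => ?_
    have h4 : m i k = m k i := by rw [hm, hm, hs]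
    rw [h4]
    ring
  rw [Finset.sum_congr rfl fun j _ => h3 j, Matrix.mul_nonsing_inv m hdet]
  rw [Finset.sum_eq_single k]
  · rw [Matrix.one_apply_eq, mul_one, hs (u, 0)]
    ring
  · intro j _ hj
    rw [Matrix.one_apply_ne (Ne.symm hj), mul_zero, neg_zero]
  · intro h
    exact absurd (Finset.mem_univ k) h

end G3

/-- Generalise `Circ.cf_eq_conn` (Circ/FibredConn.lean). -/
theorem cf_eq_conn (g₀ g : ContMDiffRiemannianMetric 𝓘(ℝ, E) ∞ E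
      (fun x : M => TangentSpace 𝓘(ℝ, E) x))
    (gB : ContMDiffRiemannianMetric 𝓘(ℝ, E₁) ∞ E₁ (fun x : B => TangentSpace 𝓘(ℝ, E₁) x))
    {pr : M → B} (hpr : RiemSub g₀ gB pr) {α β : M → ℝ}
    (hbi : Biconformal E₁ g₀ g pr (fun p => Real.exp (α p)) (fun p => Real.exp (β p)))
    {σ : E₁ × E₂ → M} {q : E₁ × E₂} {z : B} (hA : AC E pr σ q z) :
    ∀ᶠ y in 𝓝 q, cf g σ y =
      connMetric (coeff gB z) (fm g₀ σ) (gam g₀ σ) (α ∘ σ) (β ∘ σ) y := by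
  filter_upwards [hA.para, hA.src.eventually_nhds, hA.fst.eventually_nhds] with y hP hsrc hfst
  have hy1 : y.1 ∈ (extChartAt 𝓘(ℝ, E₁) z).target := by
    rw [← hfst.self_of_nhds]
    exact (extChartAt 𝓘(ℝ, E₁) z).map_source hsrc.self_of_nhds
  -- the projection in the parametrization
  have hpσ : (pr ∘ σ) =ᶠ[𝓝 y] (extChartAt 𝓘(ℝ, E₁) z).symm ∘ Prod.fst := by
    filter_upwards [hsrc, hfst] with y' h1 h2
    simp only [Function.comp_apply]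
    rw [← h2, (extChartAt 𝓘(ℝ, E₁) z).left_inv h1]
  have hpy : pr (σ y) = (extChartAt 𝓘(ℝ, E₁) z).symm y.1 := hpσ.self_of_nhds
  have hσd : MDifferentiableAt 𝓘(ℝ, E₁ × E₂) 𝓘(ℝ, E) σ y :=
    hP.smooth.mdifferentiableAt (by simp)
  have hprd : MDifferentiableAt 𝓘(ℝ, E) 𝓘(ℝ, E₁) pr (σ y) :=
    (hpr.1.1 (σ y)).mdifferentiableAt (by simp)
  have hfd : MDifferentiableAt 𝓘(ℝ, E₁ × E₂) 𝓘(ℝ, E₁) (Prod.fst : E₁ × E₂ → E₁) y :=
    (differentiableAt_fst (𝕜 := ℝ)).mdifferentiableAt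
  have hsd := symm_mdiff 𝓘(ℝ, E₁) z hy1
  have hfm : mfderiv 𝓘(ℝ, E₁ × E₂) 𝓘(ℝ, E₁) (Prod.fst : E₁ × E₂ → E₁) y =
      ContinuousLinearMap.fst ℝ E₁ E₂ := by
    rw [mfderiv_eq_fderiv]
    exact fderiv_fst
  have hD : ∀ w : E₁ × E₂, mfderiv 𝓘(ℝ, E) 𝓘(ℝ, E₁) pr (σ y)
      (mfderiv 𝓘(ℝ, E₁ × E₂) 𝓘(ℝ, E) σ y w) =
      mfderiv 𝓘(ℝ, E₁) 𝓘(ℝ, E₁) (extChartAt 𝓘(ℝ, E₁) z).symm y.1 w.1 := by
    intro w
    have h1 := mfderiv_comp (I := 𝓘(ℝ, E₁ × E₂)) (I' := 𝓘(ℝ, E)) (I'' := 𝓘(ℝ, E₁)) y hprd hσd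
    have h2 := mfderiv_comp (I := 𝓘(ℝ, E₁ × E₂)) (I' := 𝓘(ℝ, E₁)) (I'' := 𝓘(ℝ, E₁)) y hsd hfd
    have h3 : mfderiv 𝓘(ℝ, E₁ × E₂) 𝓘(ℝ, E₁) (pr ∘ σ) y =
        mfderiv 𝓘(ℝ, E₁ × E₂) 𝓘(ℝ, E₁) ((extChartAt 𝓘(ℝ, E₁) z).symm ∘ Prod.fst) y :=
      hpσ.mfderiv_eq
    have h4 : mfderiv 𝓘(ℝ, E₁ × E₂) 𝓘(ℝ, E₁) (pr ∘ σ) y w =
        mfderiv 𝓘(ℝ, E₁ × E₂) 𝓘(ℝ, E₁) ((extChartAt 𝓘(ℝ, E₁) z).symm ∘ Prod.fst) y w := by
      exact DFunLike.congr_fun (show (mfderiv 𝓘(ℝ, E₁ × E₂) 𝓘(ℝ, E₁) (pr ∘ σ) y :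
        (E₁ × E₂) →L[ℝ] E₁) = mfderiv 𝓘(ℝ, E₁ × E₂) 𝓘(ℝ, E₁)
          ((extChartAt 𝓘(ℝ, E₁) z).symm ∘ Prod.fst) y from h3) w
    rw [h1, h2, hfm] at h4
    exact h4
  have hinj := symm_injective 𝓘(ℝ, E₁) z hy1
  -- the form `g₀` in the parametrization
  set S := gσ g₀ σ y with hS
  have hsymm : ∀ v w, S v w = S w v := fun v w => g₀.symm _ _ _
  have hSpos : ∀ v, v ≠ 0 → 0 < S v v := by
    intro v hv
    rw [hS, gσ_apply]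
    apply g₀.pos
    intro h0
    exact hv (hP.bij.1 (h0.trans (map_zero (mfderiv 𝓘(ℝ, E₁ × E₂) 𝓘(ℝ, E) σ y)).symm))
  have hfm' : ∀ i j, fm g₀ σ y i j = S (0, finBasis ℝ E₂ i) (0, finBasis ℝ E₂ j) :=
    fun i j => rfl
  have hdet : IsUnit (fm g₀ σ y).det := by
    rw [← Matrix.isUnit_iff_isUnit_det, ← Matrix.mulVec_injective_iff_isUnit]
    intro a b hab
    rw [← sub_eq_zero]
    set c := a - b with hc
    have h1 : (fm g₀ σ y).mulVec c = 0 := by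
      rw [hc, Matrix.mulVec_sub, hab, sub_self]
    set w : E₂ := ∑ i, c i • finBasis ℝ E₂ i with hw
    have h2 : S (0, w) (0, w) = 0 := by
      rw [← G3.mB_snd S w w]
      unfold mB
      have h3 : ∀ i, (finBasis ℝ E₂).repr w i = c i := by
        intro i
        rw [hw, Basis.repr_sum_self]
      have h4 : ∀ i, ∑ j, S (0, finBasis ℝ E₂ i) (0, finBasis ℝ E₂ j) *
          ((finBasis ℝ E₂).repr w i * (finBasis ℝ E₂).repr w j) =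
          c i * (fm g₀ σ y).mulVec c i := by
        intro i
        rw [Matrix.mulVec, dotProduct, Finset.mul_sum]
        refine Finset.sum_congr rfl fun j _ => ?_
        rw [h3, h3, hfm']
        ring
      rw [Finset.sum_congr rfl fun i _ => h4 i, h1]
      simp
    have h5 : ((0 : E₁), w) = 0 := by
      by_contra h
      exact (hSpos _ h).ne' h2
    have h6 : w = 0 := congrArg Prod.snd h5
    funext i
    have h7 : (finBasis ℝ E₂).repr w i = c i := by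
      rw [hw, Basis.repr_sum_self]
    rw [← h7, h6]
    simp
  have hΓ : ∀ u, gam g₀ σ y u = ∑ i, (∑ j, -(fm g₀ σ y)⁻¹ i j * S (0, finBasis ℝ E₂ j) (u, 0)) •
      finBasis ℝ E₂ i := by
    intro u
    unfold gam
    rw [sum_apply]
    refine Finset.sum_congr rfl fun i _ => ?_
    rw [ContinuousLinearMap.smulRight_apply, sum_apply]
    congr 1
  have horth : ∀ (u : E₁) (w : E₂), S (u, gam g₀ σ y u) (0, w) = 0 := fun u w =>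
    G3.orth S hsymm (fm g₀ σ y) hfm' hdet u _ (hΓ u) w
  -- horizontal and vertical vectors
  have hhor : ∀ u : E₁, Horizontal (E₁ := E₁) g₀ pr (σ y)
      (mfderiv 𝓘(ℝ, E₁ × E₂) 𝓘(ℝ, E) σ y (u, gam g₀ σ y u)) := by
    intro u w hw
    obtain ⟨w', rfl⟩ : ∃ w' : E₁ × E₂, mfderiv 𝓘(ℝ, E₁ × E₂) 𝓘(ℝ, E) σ y w' = w := hP.bij.2 w
    rw [hD w'] at hw
    have h1 : w'.1 = 0 := hinj (hw.trans
      (map_zero (mfderiv 𝓘(ℝ, E₁) 𝓘(ℝ, E₁) (extChartAt 𝓘(ℝ, E₁) z).symm y.1)).symm)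
    have h2 : w' = (0, w'.2) := Prod.ext h1 rfl
    change S (u, gam g₀ σ y u) w' = 0
    rw [h2]
    exact horth u _
  have hver : ∀ w : E₂, mfderiv 𝓘(ℝ, E) 𝓘(ℝ, E₁) pr (σ y)
      (mfderiv 𝓘(ℝ, E₁ × E₂) 𝓘(ℝ, E) σ y ((0 : E₁), w)) = 0 := by
    intro w
    rw [hD]
    exact map_zero _
  have hpull : ∀ u v : E₁, S (u, gam g₀ σ y u) (v, gam g₀ σ y v) =
      Sub.mB (coeff gB z y.1) u v := by
    intro u v
    have h1 := hpr.2 (σ y) _ _ (hhor u) (hhor v)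
    rw [hD, hD] at h1
    have h2 : S (u, gam g₀ σ y u) (v, gam g₀ σ y v) = mform 𝓘(ℝ, E₁) gB z y.1 u v := by
      rw [hS, gσ_apply, ← h1, mform_apply, hpy]
    rw [h2]
    unfold Sub.mB
    have h3 := bilin_sum (finBasis ℝ E₁) (mform 𝓘(ℝ, E₁) gB z y.1)
      (fun i => (finBasis ℝ E₁).repr u i) (fun i => (finBasis ℝ E₁).repr v i)
    rw [(finBasis ℝ E₁).sum_repr, (finBasis ℝ E₁).sum_repr] at h3
    rw [h3]
    refine Finset.sum_congr rfl fun i _ => Finset.sum_congr rfl fun j _ => ?_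
    have h4 : mform 𝓘(ℝ, E₁) gB z y.1 (finBasis ℝ E₁ i) (finBasis ℝ E₁ j) =
        coeff gB z y.1 i j := rfl
    rw [h4]
    ring
  -- the form `g`
  have hdec : ∀ e : E₁ × E₂, e = (e.1, gam g₀ σ y e.1) + (0, e.2 - gam g₀ σ y e.1) := by
    intro e
    refine Prod.ext ?_ ?_
    · simp
    · simp
  have hmap : ∀ e : E₁ × E₂, mfderiv 𝓘(ℝ, E₁ × E₂) 𝓘(ℝ, E) σ y e =
      mfderiv 𝓘(ℝ, E₁ × E₂) 𝓘(ℝ, E) σ y (e.1, gam g₀ σ y e.1) +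
      mfderiv 𝓘(ℝ, E₁ × E₂) 𝓘(ℝ, E) σ y ((0 : E₁), e.2 - gam g₀ σ y e.1) := by
    intro e
    have h1 : mfderiv 𝓘(ℝ, E₁ × E₂) 𝓘(ℝ, E) σ y e = mfderiv 𝓘(ℝ, E₁ × E₂) 𝓘(ℝ, E) σ y
      ((e.1, gam g₀ σ y e.1) + ((0 : E₁), e.2 - gam g₀ σ y e.1)) := by rw [← hdec e]
    exact h1.trans (map_add (mfderiv 𝓘(ℝ, E₁ × E₂) 𝓘(ℝ, E) σ y) _ _)
  ext i j
  have h5 : cf g σ y i j = g.inner (σ y)
      (mfderiv 𝓘(ℝ, E₁ × E₂) 𝓘(ℝ, E) σ y (finBasis ℝ (E₁ × E₂) i))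
      (mfderiv 𝓘(ℝ, E₁ × E₂) 𝓘(ℝ, E) σ y (finBasis ℝ (E₁ × E₂) j)) := rfl
  rw [h5, hmap (finBasis ℝ (E₁ × E₂) i), hmap (finBasis ℝ (E₁ × E₂) j),
    hbi (σ y) _ _ _ _ (hhor _) (hhor _) (hver _) (hver _)]
  have h6 := hpull (finBasis ℝ (E₁ × E₂) i).1 (finBasis ℝ (E₁ × E₂) j).1
  have h7 := G3.mB_snd S ((finBasis ℝ (E₁ × E₂) i).2 - gam g₀ σ y (finBasis ℝ (E₁ × E₂) i).1)
    ((finBasis ℝ (E₁ × E₂) j).2 - gam g₀ σ y (finBasis ℝ (E₁ × E₂) j).1)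
  unfold connMetric
  rw [← h6]
  have h8 : Sub.mB (fm g₀ σ y)
    ((finBasis ℝ (E₁ × E₂) i).2 - gam g₀ σ y (finBasis ℝ (E₁ × E₂) i).1)
    ((finBasis ℝ (E₁ × E₂) j).2 - gam g₀ σ y (finBasis ℝ (E₁ × E₂) j).1) = _ := h7
  rw [h8]
  rfl

end Pool.Agent.Lib.MP_df705a_gt.Fib
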