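import Pool.Agent.Lib.MP_df705a_gt.Fib.FibredDefs
import Pool.Agent.Lib.MP_df705a_gt.Fib.SubChart
import Pool.Agent.Lib.MP_df705a_gt.Mg.G061

/-!
# TASK G2: the data are smooth
-/

open scoped Manifold ContDiff Topology
open Set Bundle Module Filter

noncomputable section

namespace Pool.Agent.Lib.MP_df705a_gt.Fib

open Pool.Agent.Lib.MP_df705a_gt.Twist Pool.Agent.Lib.MP_df705a_gt.Perm
open Pool.Agent.Lib.MP_df705a_gt.Sub (mB connMetric expn hd lift Dat)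
open Pool.Agent.Lib.MP_df705a_gt.Circ (Horizontal Submersion HorAt cf Para)

variable {E₁ : Type*} [NormedAddCommGroup E₁] [NormedSpace ℝ E₁] [FiniteDimensional ℝ E₁]
  {E₂ : Type*} [NormedAddCommGroup E₂] [NormedSpace ℝ E₂] [FiniteDimensional ℝ E₂]
  {B : Type*} [TopologicalSpace B] [ChartedSpace E₁ B] [IsManifold 𝓘(ℝ, E₁) ∞ B]
  {E : Type*} [NormedAddCommGroup E] [NormedSpace ℝ E] [FiniteDimensional ℝ E]
  {M : Type*} [TopologicalSpace M] [ChartedSpace E M] [IsManifold 𝓘(ℝ, E) ∞ M]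

namespace G2

set_option linter.unusedSectionVars false

theorem vec_smooth {σ : E₁ × E₂ → M} {U : Set (E₁ × E₂)} (hU : IsOpen U)
    (hσ : ContMDiffOn 𝓘(ℝ, E₁ × E₂) 𝓘(ℝ, E) ∞ σ U) (v : E₁ × E₂) :
    ContMDiffOn 𝓘(ℝ, E₁ × E₂) 𝓘(ℝ, E).tangent ∞
    (fun y : E₁ × E₂ => (TotalSpace.mk' E (σ y)
      (mfderiv 𝓘(ℝ, E₁ × E₂) 𝓘(ℝ, E) σ y v : TangentSpace 𝓘(ℝ, E) (σ y)) :
      TangentBundle 𝓘(ℝ, E) M)) U := by
  have h2 := hσ.contMDiffOn_tangentMapWithin (m := ∞) (by simp) hU.uniqueMDiffOn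
  have h3 : ContMDiff 𝓘(ℝ, E₁ × E₂) 𝓘(ℝ, E₁ × E₂).tangent ∞
      (fun y : E₁ × E₂ => (TotalSpace.mk' (E₁ × E₂) y v :
        TangentBundle 𝓘(ℝ, E₁ × E₂) (E₁ × E₂))) := by
    intro y
    exact contMDiffAt_vectorSpace_iff_contDiffAt.2 contDiffAt_const
  have h4 := h2.comp h3.contMDiffOn (s := U) (fun y hy => hy)
  refine h4.congr ?_
  intro y hy
  simp only [Function.comp_apply, tangentMapWithin, TotalSpace.mk']
  rw [mfderivWithin_of_isOpen hU hy]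

theorem gσ_smooth (g : ContMDiffRiemannianMetric 𝓘(ℝ, E) ∞ E
      (fun x : M => TangentSpace 𝓘(ℝ, E) x)) {σ : E₁ × E₂ → M} {q : E₁ × E₂}
    (hp : ∀ᶠ y in 𝓝 q, Para E σ y) (v w : E₁ × E₂) :
    ContDiffAt ℝ ∞ (fun y => gσ g σ y v w) q := by
  obtain ⟨U, hU, hUo, hq⟩ := eventually_nhds_iff.1 hp
  have hσ : ContMDiffOn 𝓘(ℝ, E₁ × E₂) 𝓘(ℝ, E) ∞ σ U :=
    fun y hy => (hU y hy).smooth.contMDiffWithinAt
  have main : ContMDiffOn 𝓘(ℝ, E₁ × E₂) 𝓘(ℝ) ∞ (fun y => gσ g σ y v w) U := by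
    intro y hy
    have : ContMDiffWithinAt 𝓘(ℝ, E₁ × E₂) (𝓘(ℝ, E).prod 𝓘(ℝ)) ∞
        (fun y ↦ TotalSpace.mk' ℝ (E := Bundle.Trivial M ℝ) (σ y)
          (g.inner (σ y) (mfderiv 𝓘(ℝ, E₁ × E₂) 𝓘(ℝ, E) σ y v)
            (mfderiv 𝓘(ℝ, E₁ × E₂) 𝓘(ℝ, E) σ y w))) U y := by
      apply ContMDiffWithinAt.clm_bundle_apply₂ (F₁ := E) (F₂ := E)
      · exact ContMDiffAt.comp_contMDiffWithinAt y g.contMDiff.contMDiffAt (hσ y hy)
      · exact vec_smooth hUo hσ v y hy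
      · exact vec_smooth hUo hσ w y hy
    simp only [contMDiffWithinAt_totalSpace] at this
    exact this.2
  exact (contMDiffOn_iff_contDiffOn.1 main).contDiffAt (hUo.mem_nhds hq)

theorem gσ_pos (g : ContMDiffRiemannianMetric 𝓘(ℝ, E) ∞ E
      (fun x : M => TangentSpace 𝓘(ℝ, E) x)) {σ : E₁ × E₂ → M} {q : E₁ × E₂}
    (hp : Para E σ q) {v : E₁ × E₂} (hv : v ≠ 0) : 0 < gσ g σ q v v := by
  rw [gσ_apply]
  refine g.pos _ _ ?_
  intro h0
  exact hv (hp.bij.1 (h0.trans (ContinuousLinearMap.map_zero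
    (mfderiv 𝓘(ℝ, E₁ × E₂) 𝓘(ℝ, E) σ q)).symm))

theorem fm_pos (g : ContMDiffRiemannianMetric 𝓘(ℝ, E) ∞ E
      (fun x : M => TangentSpace 𝓘(ℝ, E) x)) {σ : E₁ × E₂ → M} {q : E₁ × E₂}
    (hp : Para E σ q) : (fm g σ q).PosDef := by
  rw [Matrix.posDef_iff_dotProduct_mulVec]
  refine ⟨?_, ?_⟩
  · ext i j
    rw [Matrix.conjTranspose_apply, star_trivial]
    exact g.symm _ _ _
  · intro c hc
    have h1 : ((0 : E₁), ∑ i, c i • finBasis ℝ E₂ i) ≠ 0 := by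
      intro h0
      apply hc
      have h2 : ∑ i, c i • finBasis ℝ E₂ i = 0 := congrArg Prod.snd h0
      ext i
      have := congrArg (fun v => (finBasis ℝ E₂).repr v i) h2
      simpa [Finsupp.single_apply] using this
    have h3 := gσ_pos g hp h1
    have h4 := bilin_sum (finBasis ℝ E₂)
      ((gσ g σ q).bilinearComp (ContinuousLinearMap.inr ℝ E₁ E₂) (ContinuousLinearMap.inr ℝ E₁ E₂))
      c c
    have h5 : ((gσ g σ q).bilinearComp (ContinuousLinearMap.inr ℝ E₁ E₂)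
      (ContinuousLinearMap.inr ℝ E₁ E₂)) (∑ i, c i • finBasis ℝ E₂ i)
      (∑ i, c i • finBasis ℝ E₂ i) = gσ g σ q (0, ∑ i, c i • finBasis ℝ E₂ i)
        (0, ∑ i, c i • finBasis ℝ E₂ i) := rfl
    rw [← h5, h4] at h3
    refine h3.trans_eq ?_
    rw [star_trivial, dotProduct]
    apply Finset.sum_congr rfl
    intro i _
    rw [Matrix.mulVec, dotProduct, Finset.mul_sum]
    apply Finset.sum_congr rfl
    intro j _
    have h6 : ((gσ g σ q).bilinearComp (ContinuousLinearMap.inr ℝ E₁ E₂)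
      (ContinuousLinearMap.inr ℝ E₁ E₂)) (finBasis ℝ E₂ i) (finBasis ℝ E₂ j) =
        fm g σ q i j := rfl
    rw [h6]
    ring

theorem clm_smooth {f : E₁ × E₂ → E₁ →L[ℝ] E₂} {q : E₁ × E₂}
    (h : ∀ u, ContDiffAt ℝ ∞ (fun y => f y u) q) : ContDiffAt ℝ ∞ f q := by
  let d := finrank ℝ E₁
  have hd : d = finrank ℝ (Fin d → ℝ) := (finrank_fin_fun ℝ).symm
  let e₁ := ContinuousLinearEquiv.ofFinrankEq hd
  let e₂ := (e₁.arrowCongr (1 : E₂ ≃L[ℝ] E₂)).trans (ContinuousLinearEquiv.piRing (Fin d))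
  rw [← Function.id_comp f, ← e₂.symm_comp_self]
  exact e₂.symm.contDiff.contDiffAt.comp q (contDiffAt_pi.mpr fun i => h _)

end G2

/-- Generalise `Circ.CDat_of_AC` (Circ/FibredSm.lean). -/
theorem Dat_of_AC (g : ContMDiffRiemannianMetric 𝓘(ℝ, E) ∞ E
      (fun x : M => TangentSpace 𝓘(ℝ, E) x))
    (gB : ContMDiffRiemannianMetric 𝓘(ℝ, E₁) ∞ E₁ (fun x : B => TangentSpace 𝓘(ℝ, E₁) x))
    {pr : M → B} {σ : E₁ × E₂ → M} {q : E₁ × E₂} {z : B} (hA : AC E pr σ q z)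
    {α β : M → ℝ} (hα : Sm E α) (hβ : Sm E β) :
    Dat (coeff gB z) (fm g σ) (gam g σ) (α ∘ σ) (β ∘ σ) q := by
  have hq : q.1 ∈ (extChartAt 𝓘(ℝ, E₁) z).target := by
    rw [← hA.fst.self_of_nhds]
    exact (extChartAt 𝓘(ℝ, E₁) z).map_source hA.src.self_of_nhds
  have hf : ∀ i j, ContDiffAt ℝ ∞ (fun y => fm g σ y i j) q := fun i j =>
    G2.gσ_smooth g hA.para _ _
  have hcomp : ∀ {γ : M → ℝ}, Sm E γ → ContDiffAt ℝ ∞ (γ ∘ σ) q := by
    intro γ hγ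
    exact (ContMDiffAt.comp q (hγ (σ q)) hA.para.self_of_nhds.smooth).contDiffAt
  refine ⟨fun i j => g3_coeff_smooth gB z hq i j, hf, ?_, hcomp hα, hcomp hβ, ?_, ?_⟩
  · apply G2.clm_smooth
    intro u
    have h2 : (fun y => gam g σ y u) = fun y => ∑ i, (∑ j, -(fm g σ y)⁻¹ i j *
        gσ g σ y (0, finBasis ℝ E₂ j) (u, 0)) • finBasis ℝ E₂ i := by
      funext y
      unfold gam
      rw [sum_apply]
      refine Finset.sum_congr rfl fun i _ => ?_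
      rw [ContinuousLinearMap.smulRight_apply, sum_apply]
      congr 1
    rw [h2]
    refine ContDiffAt.sum fun i _ => ?_
    refine ContDiffAt.smul (ContDiffAt.sum fun j _ => ?_) contDiffAt_const
    refine ContDiffAt.mul ?_ (G2.gσ_smooth g hA.para _ _)
    exact (contDiffAt_inv hf (G2.fm_pos g hA.para.self_of_nhds).det_pos.ne' i j).neg
  · filter_upwards [(isOpen_extChartAt_target (I := 𝓘(ℝ, E₁)) z).mem_nhds hq] with x hx
    exact chartMetric_posDef 𝓘(ℝ, E₁) (finBasis ℝ E₁) gB z hx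
  · filter_upwards [hA.para] with y hy using G2.fm_pos g hy

end Pool.Agent.Lib.MP_df705a_gt.Fib
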