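import Pool.Agent.Lib.MP_df705a_gt.Fib.ConnDet

/-!
# TASK F4b: smoothness of the connection metric, gradients of functions of `x`
-/

open scoped Manifold ContDiff Topology
open Set Bundle Module Filter

noncomputable section

namespace Pool.Agent.Lib.MP_df705a_gt.Fib

open Pool.Agent.Lib.MP_df705a_gt.Twist Pool.Agent.Lib.MP_df705a_gt.Perm
open Pool.Agent.Lib.MP_df705a_gt.Sub (mB connMetric expn hd lift Dat)
open Pool.Agent.Lib.MP_df705a_gt.Circ (Horizontal Submersion HorAt cf Para)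

variable {E₁ : Type*} [NormedAddCommGroup E₁] [NormedSpace ℝ E₁] [FiniteDimensional ℝ E₁]
  {E₂ : Type*} [NormedAddCommGroup E₂] [NormedSpace ℝ E₂] [FiniteDimensional ℝ E₂]
  {h : Curv.Coeff E₁} {f : E₁ × E₂ → Matrix (Fin (finrank ℝ E₂)) (Fin (finrank ℝ E₂)) ℝ}
  {Γ : E₁ × E₂ → E₁ →L[ℝ] E₂} {α β : E₁ × E₂ → ℝ} {q : E₁ × E₂}

namespace F4b

variable {E : Type*} [NormedAddCommGroup E] [NormedSpace ℝ E] [FiniteDimensional ℝ E]

theorem mB_add_left (M : Matrix (Fin (finrank ℝ E)) (Fin (finrank ℝ E)) ℝ) (v v' w : E) :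
    mB M (v + v') w = mB M v w + mB M v' w := by
  simp only [mB, map_add, Finsupp.add_apply, add_mul, mul_add, Finset.sum_add_distrib]

theorem mB_smul_left (M : Matrix (Fin (finrank ℝ E)) (Fin (finrank ℝ E)) ℝ) (c : ℝ) (v w : E) :
    mB M (c • v) w = c * mB M v w := by
  simp only [mB, map_smul, Finsupp.smul_apply, smul_eq_mul, Finset.mul_sum]
  refine Finset.sum_congr rfl fun i _ => Finset.sum_congr rfl fun j _ => ?_
  ring

theorem mB_add_right (M : Matrix (Fin (finrank ℝ E)) (Fin (finrank ℝ E)) ℝ) (v w w' : E) :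
    mB M v (w + w') = mB M v w + mB M v w' := by
  simp only [mB, map_add, Finsupp.add_apply, mul_add, Finset.sum_add_distrib]

theorem mB_smul_right (M : Matrix (Fin (finrank ℝ E)) (Fin (finrank ℝ E)) ℝ) (c : ℝ) (v w : E) :
    mB M v (c • w) = c * mB M v w := by
  simp only [mB, map_smul, Finsupp.smul_apply, smul_eq_mul, Finset.mul_sum]
  refine Finset.sum_congr rfl fun i _ => Finset.sum_congr rfl fun j _ => ?_
  ring

theorem mB_zero_right (M : Matrix (Fin (finrank ℝ E)) (Fin (finrank ℝ E)) ℝ) (v : E) :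
    mB M v 0 = 0 := by
  simp [mB]

theorem bil_sum {ι X : Type*} [Fintype ι] [AddCommGroup X] [Module ℝ X] (b : Basis ι ℝ X)
    (B : X →ₗ[ℝ] X →ₗ[ℝ] ℝ) (w v : X) :
    ∑ i, ∑ j, B (b i) (b j) * (b.repr w i * b.repr v j) = B w v := by
  have e1 : B w v = ∑ i, b.repr w i * B (b i) v := by
    conv_lhs => rw [← b.sum_repr w]
    rw [map_sum, LinearMap.sum_apply]
    refine Finset.sum_congr rfl fun i _ => ?_
    rw [map_smul, LinearMap.smul_apply, smul_eq_mul]
  have e2 : ∀ i, B (b i) v = ∑ j, b.repr v j * B (b i) (b j) := fun i => by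
    conv_lhs => rw [← b.sum_repr v]
    rw [map_sum]
    refine Finset.sum_congr rfl fun j _ => ?_
    rw [map_smul, smul_eq_mul]
  rw [e1]
  refine Finset.sum_congr rfl fun i _ => ?_
  rw [e2 i, Finset.mul_sum]
  refine Finset.sum_congr rfl fun j _ => ?_
  ring

/-- The bilinear form of the connection metric. -/
def BB (M : Matrix (Fin (finrank ℝ E₁)) (Fin (finrank ℝ E₁)) ℝ)
    (M' : Matrix (Fin (finrank ℝ E₂)) (Fin (finrank ℝ E₂)) ℝ) (γ : E₁ →L[ℝ] E₂) (a c : ℝ) :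
    (E₁ × E₂) →ₗ[ℝ] (E₁ × E₂) →ₗ[ℝ] ℝ :=
  LinearMap.mk₂ ℝ (fun w v => a * mB M w.1 v.1 + c * mB M' (w.2 - γ w.1) (v.2 - γ v.1))
    (fun w w' v => by
      have e : (w + w').2 - γ (w + w').1 = (w.2 - γ w.1) + (w'.2 - γ w'.1) := by
        rw [Prod.fst_add, Prod.snd_add, map_add]; abel
      rw [e, Prod.fst_add, mB_add_left, mB_add_left]; ring)
    (fun r w v => by
      have e : (r • w).2 - γ (r • w).1 = r • (w.2 - γ w.1) := by
        rw [Prod.smul_fst, Prod.smul_snd, map_smul, smul_sub]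
      rw [e, Prod.smul_fst, mB_smul_left, mB_smul_left, smul_eq_mul]; ring)
    (fun w v v' => by
      have e : (v + v').2 - γ (v + v').1 = (v.2 - γ v.1) + (v'.2 - γ v'.1) := by
        rw [Prod.fst_add, Prod.snd_add, map_add]; abel
      rw [e, Prod.fst_add, mB_add_right, mB_add_right]; ring)
    (fun r w v => by
      have e : (r • v).2 - γ (r • v).1 = r • (v.2 - γ v.1) := by
        rw [Prod.smul_fst, Prod.smul_snd, map_smul, smul_sub]
      rw [e, Prod.smul_fst, mB_smul_right, mB_smul_right, smul_eq_mul]; ring)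

theorem mB_conn (h : Curv.Coeff E₁)
    (f : E₁ × E₂ → Matrix (Fin (finrank ℝ E₂)) (Fin (finrank ℝ E₂)) ℝ)
    (Γ : E₁ × E₂ → E₁ →L[ℝ] E₂) (α β : E₁ × E₂ → ℝ) (q w v : E₁ × E₂) :
    mB (connMetric h f Γ α β q) w v = Real.exp (α q) ^ 2 * mB (h q.1) w.1 v.1 +
      Real.exp (β q) ^ 2 * mB (f q) (w.2 - Γ q w.1) (v.2 - Γ q v.1) :=
  bil_sum (finBasis ℝ (E₁ × E₂))
    (BB (h q.1) (f q) (Γ q) (Real.exp (α q) ^ 2) (Real.exp (β q) ^ 2)) w v

theorem repr_gradM (M : Matrix (Fin (finrank ℝ E)) (Fin (finrank ℝ E)) ℝ) (L : E →L[ℝ] ℝ)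
    (j : Fin (finrank ℝ E)) :
    (finBasis ℝ E).repr (gradM (finBasis ℝ E) M L) j =
      ∑ l, M⁻¹ j l * L (finBasis ℝ E l) := by
  unfold gradM
  rw [map_sum, Finsupp.finsetSum_apply]
  simp only [map_smul, Finsupp.smul_apply, Basis.repr_self, smul_eq_mul]
  rw [Finset.sum_eq_single j]
  · simp
  · intro i _ hi
    rw [Finsupp.single_eq_of_ne (Ne.symm hi), mul_zero]
  · intro hj
    exact absurd (Finset.mem_univ j) hj

theorem mB_eq (M : Matrix (Fin (finrank ℝ E)) (Fin (finrank ℝ E)) ℝ) (w v : E) :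
    mB M w v = ∑ i, (finBasis ℝ E).repr w i * (M.mulVec (fun j => (finBasis ℝ E).repr v j)) i := by
  unfold mB
  refine Finset.sum_congr rfl fun i _ => ?_
  rw [Matrix.mulVec, dotProduct, Finset.mul_sum]
  refine Finset.sum_congr rfl fun j _ => ?_
  ring

theorem lin_repr (L : E →L[ℝ] ℝ) (w : E) :
    ∑ i, (finBasis ℝ E).repr w i * L (finBasis ℝ E i) = L w := by
  conv_rhs => rw [← (finBasis ℝ E).sum_repr w]
  rw [map_sum]
  refine Finset.sum_congr rfl fun k _ => ?_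
  rw [map_smul, smul_eq_mul]

theorem mB_grad (M : Matrix (Fin (finrank ℝ E)) (Fin (finrank ℝ E)) ℝ) (hM : IsUnit M.det)
    (L : E →L[ℝ] ℝ) (w : E) : mB M w (gradM (finBasis ℝ E) M L) = L w := by
  rw [mB_eq, ← lin_repr L w]
  refine Finset.sum_congr rfl fun i _ => ?_
  congr 1
  have e : (fun j => (finBasis ℝ E).repr (gradM (finBasis ℝ E) M L) j) =
      M⁻¹.mulVec (fun l => L (finBasis ℝ E l)) := by
    funext j
    rw [repr_gradM]
    rfl
  rw [e, Matrix.mulVec_mulVec, Matrix.mul_nonsing_inv _ hM, Matrix.one_mulVec]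

theorem grad_unique (M : Matrix (Fin (finrank ℝ E)) (Fin (finrank ℝ E)) ℝ) (hM : IsUnit M.det)
    (L : E →L[ℝ] ℝ) (v : E) (h : ∀ w, mB M w v = L w) :
    gradM (finBasis ℝ E) M L = v := by
  apply (finBasis ℝ E).repr.injective
  apply Finsupp.ext
  intro j
  have e : M.mulVec (fun j => (finBasis ℝ E).repr v j) = fun l => L (finBasis ℝ E l) := by
    funext i
    have hi := h (finBasis ℝ E i)
    rw [mB_eq, Finset.sum_eq_single i] at hi
    · rw [Basis.repr_self, Finsupp.single_eq_same, one_mul] at hi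
      exact hi
    · intro k _ hk
      rw [Basis.repr_self, Finsupp.single_eq_of_ne hk, zero_mul]
    · intro hj
      exact absurd (Finset.mem_univ i) hj
  have e2 : (fun j => (finBasis ℝ E).repr v j) = M⁻¹.mulVec (fun l => L (finBasis ℝ E l)) := by
    rw [← e, Matrix.mulVec_mulVec, Matrix.nonsing_inv_mul _ hM, Matrix.one_mulVec]
  rw [repr_gradM]
  exact (congrFun e2 j).symm

theorem repr_smooth {F : Type*} [NormedAddCommGroup F] [NormedSpace ℝ F] {v : F → E} {x : F}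
    (hv : ContDiffAt ℝ ∞ v x) (i : Fin (finrank ℝ E)) :
    ContDiffAt ℝ ∞ (fun p => (finBasis ℝ E).repr (v p) i) x :=
  ContDiffAt.comp x (LinearMap.toContinuousLinearMap ((finBasis ℝ E).coord i)).contDiff.contDiffAt
    hv

theorem mB_smooth {F : Type*} [NormedAddCommGroup F] [NormedSpace ℝ F]
    {M : F → Matrix (Fin (finrank ℝ E)) (Fin (finrank ℝ E)) ℝ} {v w : F → E} {x : F}
    (hM : ∀ i j, ContDiffAt ℝ ∞ (fun p => M p i j) x) (hv : ContDiffAt ℝ ∞ v x)
    (hw : ContDiffAt ℝ ∞ w x) : ContDiffAt ℝ ∞ (fun p => mB (M p) (v p) (w p)) x := by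
  unfold mB
  refine ContDiffAt.sum fun k _ => ContDiffAt.sum fun l _ => ?_
  exact (hM k l).mul ((repr_smooth hv k).mul (repr_smooth hw l))

end F4b

theorem conn_smooth (hD : Dat h f Γ α β q) (i j) :
    ContDiffAt ℝ ∞ (fun p => connMetric h f Γ α β p i j) q := by
  unfold connMetric
  refine ContDiffAt.add ?_ ?_
  · refine ContDiffAt.mul (hD.α_smooth.exp.pow 2) ?_
    refine F4b.mB_smooth (fun k l => ?_) contDiffAt_const contDiffAt_const
    exact ContDiffAt.comp (g := fun x => h x k l) (f := Prod.fst) q (hD.h_smooth k l)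
      contDiffAt_fst
  · refine ContDiffAt.mul (hD.β_smooth.exp.pow 2) ?_
    refine F4b.mB_smooth hD.f_smooth ?_ ?_
    · exact contDiffAt_const.sub (hD.Γ_smooth.clm_apply contDiffAt_const)
    · exact contDiffAt_const.sub (hD.Γ_smooth.clm_apply contDiffAt_const)

theorem conn₀_smooth (hD : Dat h f Γ α β q) (i j) :
    ContDiffAt ℝ ∞ (fun p => conn₀ h f Γ p i j) q := by
  have hD0 : Dat h f Γ (fun _ => (0 : ℝ)) (fun _ => (0 : ℝ)) q :=
    ⟨hD.h_smooth, hD.f_smooth, hD.Γ_smooth, contDiffAt_const, contDiffAt_const, hD.h_pos,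
      hD.f_pos⟩
  exact conn_smooth hD0 i j

/-- The gradient of a function of `x` is the horizontal lift of its gradient. -/
theorem gradM_conn (Γ : E₁ × E₂ → E₁ →L[ℝ] E₂) (hh : (h q.1).PosDef) (hf : (f q).PosDef)
    (L : E₁ →L[ℝ] ℝ) :
    gradM (finBasis ℝ (E₁ × E₂)) (conn₀ h f Γ q) (L.comp (ContinuousLinearMap.fst ℝ E₁ E₂)) =
      lift Γ q (gradM (finBasis ℝ E₁) (h q.1) L) := by
  have hd : IsUnit (conn₀ h f Γ q).det := (conn_posDef Γ hh hf).det_pos.ne'.isUnit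
  have hd1 : IsUnit (h q.1).det := hh.det_pos.ne'.isUnit
  refine F4b.grad_unique _ hd _ _ fun w => ?_
  unfold conn₀ lift
  rw [F4b.mB_conn]
  simp only [sub_self, F4b.mB_zero_right, mul_zero, add_zero, Real.exp_zero, one_pow, one_mul]
  rw [F4b.mB_grad _ hd1]
  rfl

end Pool.Agent.Lib.MP_df705a_gt.Fib
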