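import Pool.Agent.Lib.MP_df705a_gt.Mg.G068
import Pool.Agent.Lib.MP_df705a_gt.Fib.ConnGrad

/-!
# TASK F5: gradient products and Laplacians of functions of `x`
-/

open scoped Manifold ContDiff Topology
open Set Bundle Module Filter

noncomputable section

namespace Pool.Agent.Lib.MP_df705a_gt.Fib

open Pool.Agent.Lib.MP_df705a_gt.Twist Pool.Agent.Lib.MP_df705a_gt.Perm
open Pool.Agent.Lib.MP_df705a_gt.Sub (mB connMetric expn hd lift Dat)
open Pool.Agent.Lib.MP_df705a_gt.Circ (Horizontal Submersion HorAt cf Para)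

namespace F5

open Pool.Agent.Lib.MP_df705a_gt.Circ.LapConnAux (gradC_eq)

theorem dv_smul {E : Type*} [NormedAddCommGroup E] [NormedSpace ℝ E] [FiniteDimensional ℝ E]
    {g : E → ℝ} {Z : E → E} {x : E} (hg : DifferentiableAt ℝ g x) (hZ : DifferentiableAt ℝ Z x) :
    dv (fun y => g y • Z y) x = g x * dv Z x + fderiv ℝ g x (Z x) := by
  unfold dv
  have h1 : fderiv ℝ (fun y => g y • Z y) x =
      g x • fderiv ℝ Z x + (fderiv ℝ g x).smulRight (Z x) := fderiv_fun_smul hg hZ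
  rw [h1]
  have h2 : ((g x • fderiv ℝ Z x + (fderiv ℝ g x).smulRight (Z x) : E →L[ℝ] E) : E →ₗ[ℝ] E) =
      g x • (fderiv ℝ Z x : E →ₗ[ℝ] E) +
        LinearMap.smulRight ((fderiv ℝ g x : E →L[ℝ] ℝ) : E →ₗ[ℝ] ℝ) (Z x) := by
    apply LinearMap.ext
    intro v
    simp
  rw [h2, map_add, map_smul, smul_eq_mul, LinearMap.trace_smulRight]
  rfl

end F5

open Pool.Agent.Lib.MP_df705a_gt.Circ.LapConnAux (gradC_eq)

variable {E₁ : Type*} [NormedAddCommGroup E₁] [NormedSpace ℝ E₁] [FiniteDimensional ℝ E₁]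
  {E₂ : Type*} [NormedAddCommGroup E₂] [NormedSpace ℝ E₂] [FiniteDimensional ℝ E₂]
  {h : Curv.Coeff E₁} {f : E₁ × E₂ → Matrix (Fin (finrank ℝ E₂)) (Fin (finrank ℝ E₂)) ℝ}
  {Γ : E₁ × E₂ → E₁ →L[ℝ] E₂} {α β : E₁ × E₂ → ℝ} {q : E₁ × E₂}

/-- The scalar product with the differential of a function of `x`. -/
theorem grad_conn (hD : Dat h f Γ α β q) {F : E₁ → ℝ} (hF : ContDiffAt ℝ ∞ F q.1)
    (W : E₁ × E₂ → ℝ) :
    gradC (conn₀ h f Γ) W (fun p => F p.1) q =
      fderiv ℝ W q (lift Γ q (gradM (finBasis ℝ E₁) (h q.1) (fderiv ℝ F q.1))) := by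
  have h1 : fderiv ℝ (fun p : E₁ × E₂ => F p.1) q =
      (fderiv ℝ F q.1).comp (ContinuousLinearMap.fst ℝ E₁ E₂) := by
    have h2 : HasFDerivAt F (fderiv ℝ F q.1) q.1 :=
      (hF.differentiableAt (by norm_num)).hasFDerivAt
    exact (h2.comp q hasFDerivAt_fst).fderiv
  rw [gradC_eq, h1, gradM_conn Γ hD.h_pos.self_of_nhds hD.f_pos.self_of_nhds]

/-- Generalise `Circ.lap_conn`. -/
theorem lap_conn (hD : Dat h f Γ α β q) {F : E₁ → ℝ} (hF : ContDiffAt ℝ ∞ F q.1) :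
    lapC (conn₀ h f Γ) (fun p => F p.1) q =
      lapC h F q.1 + expn f Γ q (gradM (finBasis ℝ E₁) (h q.1) (fderiv ℝ F q.1)) := by
  obtain ⟨c, hc, hdet⟩ := exists_det_conn E₁ E₂
  have hpos : (h q.1).PosDef := hD.h_pos.self_of_nhds
  have hfpos : (f q).PosDef := hD.f_pos.self_of_nhds
  set v : E₁ → E₁ := fun x => gradM (finBasis ℝ E₁) (h x) (fderiv ℝ F x) with hv
  set ψ : E₁ × E₂ → ℝ := fun p => (1 / 2) * Real.log (f p).det with hψ
  -- smoothness
  have hfst : ContDiffAt ℝ ∞ (fun p : E₁ × E₂ => F p.1) q :=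
    ContDiffAt.comp q hF contDiffAt_fst
  have hF' : ContDiffAt ℝ ∞ (fderiv ℝ F) q.1 := hF.fderiv_right (m := ∞) (by simp)
  have hvs : ContDiffAt ℝ ∞ v q.1 := gradM_contDiffAt _ hD.h_smooth hpos.det_pos.ne' hF'
  have hdetS : ContDiffAt ℝ ∞ (fun x => (h x).det) q.1 := contDiffAt_det hD.h_smooth
  have hsq : ContDiffAt ℝ ∞ (fun x => √ (h x).det) q.1 := hdetS.sqrt hpos.det_pos.ne'
  have hfdS : ContDiffAt ℝ ∞ (fun p => (f p).det) q := contDiffAt_det hD.f_smooth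
  have hlog : ContDiffAt ℝ ∞ (fun p => Real.log (f p).det) q := hfdS.log hfpos.det_pos.ne'
  have hψs : ContDiffAt ℝ ∞ ψ q := contDiffAt_const.mul hlog
  -- positivity near `q`
  have hev : ∀ᶠ p in 𝓝 q, (h p.1).PosDef := (continuousAt_fst (p := q)).eventually hD.h_pos
  have hCpos : ∀ᶠ p in 𝓝 q, (conn₀ h f Γ p).PosDef := by
    filter_upwards [hev, hD.f_pos] with p hp hp' using conn_posDef Γ hp hp'
  have hFd : ∀ᶠ x in 𝓝 q.1, DifferentiableAt ℝ F x := by
    have h1 : ContDiffAt ℝ 1 F q.1 := hF.of_le (by norm_num)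
    filter_upwards [h1.eventually (by norm_num)] with x hx using hx.differentiableAt one_ne_zero
  have hFd' : ∀ᶠ p in 𝓝 q, DifferentiableAt ℝ F p.1 :=
    (continuousAt_fst (p := q)).eventually hFd
  have hexp : ∀ p, (f p).PosDef → √ (f p).det = Real.exp (ψ p) := by
    intro p hp
    have h1 : 0 < (f p).det := hp.det_pos
    rw [hψ, Real.sqrt_eq_rpow, Real.rpow_def_of_pos h1]
    congr 1
    ring
  have hsqC : ∀ p, (f p).PosDef →
      √ (conn₀ h f Γ p).det = √ c * (Real.exp (ψ p) * √ (h p.1).det) := by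
    intro p hp
    rw [hdet, Real.sqrt_mul hc.le, mul_comm (h p.1).det, Real.sqrt_mul hp.det_pos.le, hexp p hp]
  -- the vector density
  set Z : E₁ × E₂ → E₁ × E₂ := fun p =>
    (√ c * (Real.exp (ψ p) * √ (h p.1).det)) • (v p.1, Γ p (v p.1)) with hZ
  have hZs : ContDiffAt ℝ ∞ Z q := by
    have hvs' : ContDiffAt ℝ ∞ v (Prod.fst q) := hvs
    have e1 : ContDiffAt ℝ ∞ (fun p : E₁ × E₂ => v p.1) q :=
      ContDiffAt.comp (f := Prod.fst) (g := v) q hvs' contDiffAt_fst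
    have e2 : ContDiffAt ℝ ∞ (fun p : E₁ × E₂ => √ (h p.1).det) q :=
      ContDiffAt.comp (f := Prod.fst) (g := fun x => √ (h x).det) q hsq contDiffAt_fst
    exact (contDiffAt_const.mul (hψs.exp.mul e2)).smul
      (e1.prodMk (hD.Γ_smooth.clm_apply e1))
  have hEq : (fun p => ((1 : ℝ) * (Real.exp ((fun _ => (0 : ℝ)) p) * √ (conn₀ h f Γ p).det)) •
      gradM (finBasis ℝ (E₁ × E₂)) (conn₀ h f Γ p)
        (fderiv ℝ (fun p : E₁ × E₂ => F p.1) p)) =ᶠ[𝓝 q] Z := by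
    filter_upwards [hev, hFd', hD.f_pos] with p hp hp' hp''
    have h1 : fderiv ℝ (fun p : E₁ × E₂ => F p.1) p =
        (fderiv ℝ F p.1).comp (ContinuousLinearMap.fst ℝ E₁ E₂) :=
      (hp'.hasFDerivAt.comp p hasFDerivAt_fst).fderiv
    rw [h1, gradM_conn Γ hp hp'', hsqC p hp'', Real.exp_zero, one_mul, one_mul]
    rfl
  have hC := dv_slice (h := conn₀ h f Γ) (ψ := fun _ => (0 : ℝ)) (u := fun p : E₁ × E₂ => F p.1)
    (x := q) (fun i j => conn₀_smooth hD i j) hCpos contDiffAt_const hfst 1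
  rw [dv_congr hEq, dv_prod (hZs.differentiableAt (by norm_num))] at hC
  have hψd : HasFDerivAt ψ (fderiv ℝ ψ q) (q.1, q.2) :=
    (hψs.differentiableAt (by norm_num)).hasFDerivAt
  -- first part
  have hψ1 : ContDiffAt ℝ ∞ (fun x => ψ (x, q.2)) q.1 := by
    have h1 : ContDiffAt ℝ ∞ ψ ((fun x : E₁ => (x, q.2)) q.1) := hψs
    exact ContDiffAt.comp (g := ψ) (f := fun x : E₁ => (x, q.2)) q.1 h1
      (contDiffAt_id.prodMk contDiffAt_const)
  have hP1 : dv (fun x => (Z (x, q.2)).1) q.1 =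
      √ c * (Real.exp (ψ q) * √ (h q.1).det) *
        (lapC h F q.1 + fderiv ℝ ψ q (v q.1, 0)) := by
    have h1 := dv_slice (h := h) (ψ := fun x => ψ (x, q.2)) (u := F) (x := q.1)
      hD.h_smooth hD.h_pos hψ1 hF (√ c)
    rw [gradC_eq] at h1
    have h2 : fderiv ℝ (fun x => ψ (x, q.2)) q.1 =
        (fderiv ℝ ψ q).comp (ContinuousLinearMap.inl ℝ E₁ E₂) := by
      have h3 : HasFDerivAt (fun x : E₁ => (x, q.2)) (ContinuousLinearMap.inl ℝ E₁ E₂) q.1 :=
        hasFDerivAt_prodMk_left q.1 q.2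
      exact (hψd.comp q.1 h3).fderiv
    rw [h2] at h1
    exact h1
  -- second part
  have hP2 : dv (fun y => (Z (q.1, y)).2) q.2 =
      √ c * (Real.exp (ψ q) * √ (h q.1).det) *
        (fderiv ℝ ψ q (0, Γ q (v q.1)) + dv (fun y => Γ (q.1, y) (v q.1)) q.2) := by
    have h3 : HasFDerivAt (fun y : E₂ => (q.1, y)) (ContinuousLinearMap.inr ℝ E₁ E₂) q.2 :=
      hasFDerivAt_prodMk_right q.1 q.2
    have h5 : HasFDerivAt Γ (fderiv ℝ Γ q) (q.1, q.2) :=
      (hD.Γ_smooth.differentiableAt (by norm_num)).hasFDerivAt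
    have h6 : HasFDerivAt (fun y : E₂ => ψ (q.1, y))
        ((fderiv ℝ ψ q).comp (ContinuousLinearMap.inr ℝ E₁ E₂)) q.2 := hψd.comp q.2 h3
    have h7 : HasFDerivAt (fun y : E₂ => √ c * (Real.exp (ψ (q.1, y)) * √ (h q.1).det))
        ((√ c * (Real.exp (ψ q) * √ (h q.1).det)) •
          ((fderiv ℝ ψ q).comp (ContinuousLinearMap.inr ℝ E₁ E₂))) q.2 := by
      have h8 := (h6.exp.mul_const (√ (h q.1).det)).const_mul (√ c)
      refine h8.congr_fderiv ?_
      apply ContinuousLinearMap.ext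
      intro w
      simp only [smul_apply, smul_eq_mul, Prod.mk.eta]
      ring
    have h8 : DifferentiableAt ℝ (fun y : E₂ => Γ (q.1, y) (v q.1)) q.2 := by
      have h9 : HasFDerivAt (fun y : E₂ => Γ (q.1, y))
          ((fderiv ℝ Γ q).comp (ContinuousLinearMap.inr ℝ E₁ E₂)) q.2 := h5.comp q.2 h3
      exact h9.differentiableAt.clm_apply (differentiableAt_const _)
    have h10 := F5.dv_smul h7.differentiableAt h8
    rw [h7.fderiv] at h10
    have h11 : dv (fun y => (Z (q.1, y)).2) q.2 = dv (fun y => (√ c * (Real.exp (ψ (q.1, y)) *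
        √ (h q.1).det)) • Γ (q.1, y) (v q.1)) q.2 := rfl
    rw [h11, h10]
    simp only [smul_apply, ContinuousLinearMap.comp_apply,
      ContinuousLinearMap.inr_apply, smul_eq_mul, Prod.mk.eta]
    ring
  rw [hP1, hP2] at hC
  have hg0 : gradC (conn₀ h f Γ) (fun _ => (0 : ℝ)) (fun p : E₁ × E₂ => F p.1) q = 0 := by
    rw [gradC_eq]
    simp
  have hk : expn f Γ q (v q.1) = fderiv ℝ ψ q (v q.1, 0) +
      fderiv ℝ ψ q (0, Γ q (v q.1)) + dv (fun y => Γ (q.1, y) (v q.1)) q.2 := by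
    have h1 : ((v q.1, Γ q (v q.1)) : E₁ × E₂) = (v q.1, 0) + (0, Γ q (v q.1)) := by
      ext <;> simp
    have h2 : fderiv ℝ ψ q = (1 / 2 : ℝ) • fderiv ℝ (fun p => Real.log (f p).det) q := by
      rw [hψ]
      exact fderiv_const_mul (hlog.differentiableAt (by norm_num)) _
    have h3 : expn f Γ q (v q.1) = (1 / 2) * fderiv ℝ (fun p => Real.log (f p).det) q
        (v q.1, Γ q (v q.1)) + dv (fun y => Γ (q.1, y) (v q.1)) q.2 := rfl
    rw [h3, ← map_add, ← h1, h2]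
    rfl
  rw [hg0, Real.exp_zero, one_mul, one_mul, hsqC q hfpos] at hC
  have hne : √ c * (Real.exp (ψ q) * √ (h q.1).det) ≠ 0 := by
    have e1 : 0 < √ c := Real.sqrt_pos.2 hc
    have e2 : 0 < √ (h q.1).det := Real.sqrt_pos.2 hpos.det_pos
    have e3 : 0 < Real.exp (ψ q) := Real.exp_pos _
    positivity
  rw [← mul_add] at hC
  have hfin := mul_left_cancel₀ hne hC
  rw [show gradM (finBasis ℝ E₁) (h q.1) (fderiv ℝ F q.1) = v q.1 from rfl, hk]
  linarith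

end Pool.Agent.Lib.MP_df705a_gt.Fib
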