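import Pool.Agent.Lib.MP_df705a_gt.Circ.ScalSub
import Pool.Agent.Lib.MP_df705a_gt.Fib.FibredConn
import Pool.Agent.Lib.MP_df705a_gt.Fib.FibredSm
import Pool.Agent.Lib.MP_df705a_gt.Fib.LapConn

/-!
# TASK G7: minimal fibres in adapted coordinates
-/

open scoped Manifold ContDiff Topology
open Set Bundle Module Filter

set_option linter.unusedSectionVars false

noncomputable section

namespace Pool.Agent.Lib.MP_df705a_gt.Fib

open Pool.Agent.Lib.MP_df705a_gt.Twist Pool.Agent.Lib.MP_df705a_gt.Perm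
open Pool.Agent.Lib.MP_df705a_gt.Sub (mB connMetric expn hd lift Dat)
open Pool.Agent.Lib.MP_df705a_gt.Circ (Horizontal Submersion HorAt cf Para)

variable {E₁ : Type*} [NormedAddCommGroup E₁] [NormedSpace ℝ E₁] [FiniteDimensional ℝ E₁]
  {E₂ : Type*} [NormedAddCommGroup E₂] [NormedSpace ℝ E₂] [FiniteDimensional ℝ E₂]
  {B : Type*} [TopologicalSpace B] [ChartedSpace E₁ B] [IsManifold 𝓘(ℝ, E₁) ∞ B]
  {E : Type*} [NormedAddCommGroup E] [NormedSpace ℝ E] [FiniteDimensional ℝ E]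
  {M : Type*} [TopologicalSpace M] [ChartedSpace E M] [IsManifold 𝓘(ℝ, E) ∞ M]

namespace G7

theorem pair_gradM (M : Matrix (Fin (finrank ℝ E₁)) (Fin (finrank ℝ E₁)) ℝ)
    (L L' : E₁ →L[ℝ] ℝ) :
    L (gradM (finBasis ℝ E₁) M L') =
      ∑ i, ∑ j, M⁻¹ i j * (L (finBasis ℝ E₁ i) * L' (finBasis ℝ E₁ j)) := by
  unfold gradM
  rw [map_sum]
  refine Finset.sum_congr rfl fun i _ => ?_
  rw [map_smul, smul_eq_mul, Finset.sum_mul]
  refine Finset.sum_congr rfl fun j _ => ?_
  ring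

theorem pair_gradM_symm {M : Matrix (Fin (finrank ℝ E₁)) (Fin (finrank ℝ E₁)) ℝ}
    (hM : M.PosDef) (L L' : E₁ →L[ℝ] ℝ) :
    L (gradM (finBasis ℝ E₁) M L') = L' (gradM (finBasis ℝ E₁) M L) := by
  rw [pair_gradM, pair_gradM, Finset.sum_comm]
  refine Finset.sum_congr rfl fun i _ => Finset.sum_congr rfl fun j _ => ?_
  rw [posDef_symm hM.inv j i]
  ring

theorem mB_gradM {M : Matrix (Fin (finrank ℝ E₁)) (Fin (finrank ℝ E₁)) ℝ}
    (hM : M.PosDef) (L : E₁ →L[ℝ] ℝ) (w : E₁) :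
    mB M (gradM (finBasis ℝ E₁) M L) w = L w := by
  have hdet : IsUnit M.det := hM.det_pos.ne'.isUnit
  have hr : ∀ i, (finBasis ℝ E₁).repr (gradM (finBasis ℝ E₁) M L) i =
      ∑ j, M⁻¹ i j * L (finBasis ℝ E₁ j) := by
    intro i
    rw [← cd_gradM, cd_apply]
  have hid : ∀ r j, ∑ i, M⁻¹ i r * M i j = if r = j then 1 else 0 := by
    intro r j
    have h1 := congrFun (congrFun (Matrix.nonsing_inv_mul M hdet) r) j
    rw [Matrix.mul_apply, Matrix.one_apply] at h1
    rw [← h1]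
    refine Finset.sum_congr rfl fun i _ => ?_
    rw [posDef_symm hM.inv i r]
  have hw : L w = ∑ j, (finBasis ℝ E₁).repr w j * L (finBasis ℝ E₁ j) := by
    conv_lhs => rw [← (finBasis ℝ E₁).sum_repr w]
    rw [map_sum]
    refine Finset.sum_congr rfl fun j _ => ?_
    rw [map_smul, smul_eq_mul]
  have h2 : mB M (gradM (finBasis ℝ E₁) M L) w =
      ∑ j, (finBasis ℝ E₁).repr w j * ∑ r, L (finBasis ℝ E₁ r) * ∑ i, M⁻¹ i r * M i j := by
    unfold mB
    rw [Finset.sum_comm]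
    refine Finset.sum_congr rfl fun j _ => ?_
    simp only [hr, Finset.mul_sum, Finset.sum_mul]
    rw [Finset.sum_comm]
    refine Finset.sum_congr rfl fun i _ => Finset.sum_congr rfl fun r _ => ?_
    ring
  rw [h2, hw]
  refine Finset.sum_congr rfl fun j _ => ?_
  congr 1
  simp only [hid]
  simp

/-- The covector `expn` as a continuous linear map. -/
def expnL (f : E₁ × E₂ → Matrix (Fin (finrank ℝ E₂)) (Fin (finrank ℝ E₂)) ℝ)
    (Γ : E₁ × E₂ → E₁ →L[ℝ] E₂) (y : E₁ × E₂) (hΓ : DifferentiableAt ℝ Γ y) : E₁ →L[ℝ] ℝ :=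
  LinearMap.toContinuousLinearMap
    { toFun := fun u => expn f Γ y u
      map_add' := by
        intro u v
        have hin : DifferentiableAt ℝ (fun y' : E₂ => Γ (y.1, y')) y.2 := by
          have h1 : DifferentiableAt ℝ (fun y' : E₂ => (y.1, y')) y.2 := by fun_prop
          exact DifferentiableAt.comp y.2 (g := Γ) (f := fun y' : E₂ => (y.1, y')) hΓ h1
        have hu : ∀ w : E₁, DifferentiableAt ℝ (fun y' : E₂ => Γ (y.1, y') w) y.2 := fun w =>
          hin.clm_apply (differentiableAt_const w)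
        unfold expn hd lift dv
        have h2 : fderiv ℝ (fun y' : E₂ => Γ (y.1, y') (u + v)) y.2 =
            fderiv ℝ (fun y' : E₂ => Γ (y.1, y') u) y.2 +
            fderiv ℝ (fun y' : E₂ => Γ (y.1, y') v) y.2 := by
          rw [← fderiv_add (hu u) (hu v)]
          congr 1
          funext y'
          simp [map_add]
        rw [h2]
        have h3 : ((u + v, Γ y (u + v)) : E₁ × E₂) = (u, Γ y u) + (v, Γ y v) := by
          rw [map_add]
          rfl
        rw [h3, map_add]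
        simp only [ContinuousLinearMap.toLinearMap_add, map_add]
        ring
      map_smul' := by
        intro r u
        have hin : DifferentiableAt ℝ (fun y' : E₂ => Γ (y.1, y')) y.2 := by
          have h1 : DifferentiableAt ℝ (fun y' : E₂ => (y.1, y')) y.2 := by fun_prop
          exact DifferentiableAt.comp y.2 (g := Γ) (f := fun y' : E₂ => (y.1, y')) hΓ h1
        have hu : DifferentiableAt ℝ (fun y' : E₂ => Γ (y.1, y') u) y.2 :=
          hin.clm_apply (differentiableAt_const u)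
        unfold expn hd lift dv
        have h2 : fderiv ℝ (fun y' : E₂ => Γ (y.1, y') (r • u)) y.2 =
            r • fderiv ℝ (fun y' : E₂ => Γ (y.1, y') u) y.2 := by
          rw [← fderiv_const_smul hu r]
          congr 1
          funext y'
          simp [map_smul]
        rw [h2]
        have h3 : ((r • u, Γ y (r • u)) : E₁ × E₂) = r • (u, Γ y u) := by
          rw [map_smul]
          rfl
        rw [h3, map_smul]
        simp only [ContinuousLinearMap.toLinearMap_smul, map_smul, smul_eq_mul, RingHom.id_apply]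
        ring }

theorem expnL_apply (f : E₁ × E₂ → Matrix (Fin (finrank ℝ E₂)) (Fin (finrank ℝ E₂)) ℝ)
    (Γ : E₁ × E₂ → E₁ →L[ℝ] E₂) (y : E₁ × E₂) (hΓ : DifferentiableAt ℝ Γ y) (u : E₁) :
    expnL f Γ y hΓ u = expn f Γ y u := rfl

/-- A metric is a biconformal deformation of itself. -/
theorem bi_self (g : ContMDiffRiemannianMetric 𝓘(ℝ, E) ∞ E (fun x : M => TangentSpace 𝓘(ℝ, E) x))
    (pr : M → B) :
    Biconformal E₁ g g pr (fun p => Real.exp ((fun _ : M => (0 : ℝ)) p))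
      (fun p => Real.exp ((fun _ : M => (0 : ℝ)) p)) := by
  intro p u v w z hu hv hw hz
  have h1 : g.inner p u z = 0 := hu z hz
  have h2 : g.inner p w v = 0 := by
    rw [g.symm p w v]
    exact hv w hw
  simp only [map_add, Real.exp_zero, one_pow, one_mul]
  have h3 : (g.inner p u + g.inner p w) v = g.inner p u v + g.inner p w v := rfl
  have h4 : (g.inner p u + g.inner p w) z = g.inner p u z + g.inner p w z := rfl
  rw [h3, h4, h1, h2]
  ring

theorem AC_near {pr : M → B} {σ : E₁ × E₂ → M} {q : E₁ × E₂} {z : B} (hA : AC E pr σ q z) :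
    ∀ᶠ y in 𝓝 q, AC E pr σ y z := by
  filter_upwards [hA.para.eventually_nhds, hA.src.eventually_nhds, hA.fst.eventually_nhds]
    with y h1 h2 h3
  exact ⟨h1, h2, h3⟩

end G7

/-- At each point `y` near `q`, `lap_conn` for `F = rd E₁ z (f k)` and `MinimalFibres` for `f k`
give `expn (fm g σ) (gam g σ) y (grad F) = 0`; by `hdata` (see `Circ.data_chart`) the gradients of
these functions span `E₁`. See the proof of `Circ.scal_sub` for `hlap`. -/
theorem min_of (g : ContMDiffRiemannianMetric 𝓘(ℝ, E) ∞ E (fun x : M => TangentSpace 𝓘(ℝ, E) x))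
    (gB : ContMDiffRiemannianMetric 𝓘(ℝ, E₁) ∞ E₁ (fun x : B => TangentSpace 𝓘(ℝ, E₁) x))
    {pr : M → B} (hpr : RiemSub g gB pr) (hmin : MinimalFibres g gB pr)
    {κ : Type} [Fintype κ] {f : κ → B → ℝ} {c : κ → κ → B → ℝ}
    (hf : ∀ k, Sm E₁ (f k)) (hc : ∀ k l, Sm E₁ (c k l))
    (hdata : ∀ (x : B) (v w : E₁), ∑ k, ∑ l, c k l x * (dfun f k x v * dfun f l x w) =
        gB.inner x v w)
    {σ : E₁ × E₂ → M} {q : E₁ × E₂} {z : B} (hA : AC E pr σ q z) :
    Min (fm g σ) (gam g σ) q := by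
  have hcf := cf_eq_conn g g gB hpr (G7.bi_self (E₁ := E₁) g pr) hA
  have htar : ∀ᶠ y in 𝓝 q, y.1 ∈ (extChartAt 𝓘(ℝ, E₁) z).target := by
    filter_upwards [hA.src, hA.fst] with y h1 h2
    rw [← h2]
    exact (extChartAt 𝓘(ℝ, E₁) z).map_source h1
  have hsymm : ∀ᶠ y in 𝓝 q, (extChartAt 𝓘(ℝ, E₁) z).symm y.1 = pr (σ y) := by
    filter_upwards [hA.src, hA.fst] with y h1 h2
    rw [← h2]
    exact (extChartAt 𝓘(ℝ, E₁) z).left_inv h1
  have hbase : ∀ u : B → ℝ, (fun y : E₁ × E₂ => rd E₁ z u y.1) =ᶠ[𝓝 q]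
      (fun p => u (pr p)) ∘ σ := by
    intro u
    filter_upwards [hsymm] with y hy
    unfold rd
    rw [hy]
    rfl
  have hlap : ∀ k, ∀ᶠ y in 𝓝 q,
      lapC (conn₀ (coeff gB z) (fm g σ) (gam g σ)) (fun p => rd E₁ z (f k) p.1) y =
        Lap g (fun p => f k (pr p)) (σ y) := by
    intro k
    filter_upwards [hcf.eventually_nhds, (hbase (f k)).eventually_nhds, hA.para] with y h1 h2 h3
    rw [← Circ.lap_cf g h3 (Circ.sm_comp_pr hpr.1.1 (hf k)), g3_lapC_congr h2]
    exact Circ.lapC_congr_metric (h1.mono fun _ h => h.symm)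
  have hlap' : ∀ᶠ y in 𝓝 q, ∀ k,
      lapC (conn₀ (coeff gB z) (fm g σ) (gam g σ)) (fun p => rd E₁ z (f k) p.1) y =
        Lap g (fun p => f k (pr p)) (σ y) := eventually_all.2 hlap
  filter_upwards [hlap', G7.AC_near hA, htar, hsymm] with y h1 h2 h3 h4 u
  have hα : Sm E (fun _ : M => (0 : ℝ)) := contMDiff_const
  have hD := Dat_of_AC g gB h2 hα hα
  have hΓ : DifferentiableAt ℝ (gam g σ) y := hD.Γ_smooth.differentiableAt (by simp)
  have hpos : (coeff gB z y.1).PosDef := hD.h_pos.self_of_nhds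
  have h5 : ∀ k, expn (fm g σ) (gam g σ) y
      (gradM (finBasis ℝ E₁) (coeff gB z y.1) (fderiv ℝ (rd E₁ z (f k)) y.1)) = 0 := by
    intro k
    have e1 := lap_conn hD (F := rd E₁ z (f k)) (g3_rd_smooth (hf k) z h3)
    have e2 := lap_chart gB (hf k) z h3
    rw [h4] at e2
    have e3 := h1 k
    rw [hmin (f k) (hf k)] at e3
    rw [e3, e2] at e1
    linarith
  set Λ := G7.expnL (fm g σ) (gam g σ) y hΓ with hΛ
  set u₀ := gradM (finBasis ℝ E₁) (coeff gB z y.1) Λ with hu₀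
  have h6 : ∀ k, fderiv ℝ (rd E₁ z (f k)) y.1 u₀ = 0 := by
    intro k
    rw [hu₀, ← G7.pair_gradM_symm hpos, hΛ, G7.expnL_apply]
    exact h5 k
  have h7 : Λ u = mB (coeff gB z y.1) u₀ u := (G7.mB_gradM hpos Λ u).symm
  rw [Circ.data_chart gB hf hdata z h3] at h7
  simp only [h6, zero_mul, mul_zero, Finset.sum_const_zero] at h7
  exact h7

end Pool.Agent.Lib.MP_df705a_gt.Fib
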