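import Pool.Agent.Lib.MP_df705a_gt.Fib.SubChart

/-!
# TASK G5: change of the adapted parametrization
-/

open scoped Manifold ContDiff Topology
open Set Bundle Module Filter

noncomputable section

namespace Pool.Agent.Lib.MP_df705a_gt.Fib

open Pool.Agent.Lib.MP_df705a_gt.Twist Pool.Agent.Lib.MP_df705a_gt.Perm
open Pool.Agent.Lib.MP_df705a_gt.Sub (mB connMetric expn hd lift Dat)
open Pool.Agent.Lib.MP_df705a_gt.Circ (Horizontal Submersion HorAt cf Para)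

variable {E₁ : Type*} [NormedAddCommGroup E₁] [NormedSpace ℝ E₁] [FiniteDimensional ℝ E₁]
  {E₂ : Type*} [NormedAddCommGroup E₂] [NormedSpace ℝ E₂] [FiniteDimensional ℝ E₂]
  {B : Type*} [TopologicalSpace B] [ChartedSpace E₁ B] [IsManifold 𝓘(ℝ, E₁) ∞ B]
  {E : Type*} [NormedAddCommGroup E] [NormedSpace ℝ E] [FiniteDimensional ℝ E]
  {M : Type*} [TopologicalSpace M] [ChartedSpace E M] [IsManifold 𝓘(ℝ, E) ∞ M]

omit [FiniteDimensional ℝ E₁] [FiniteDimensional ℝ E₂] in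
private theorem eventually_bij [FiniteDimensional ℝ E₁] [FiniteDimensional ℝ E₂]
    {τ : E₁ × E₂ → E₁ × E₂} (hτ : ContDiff ℝ ∞ τ) {q : E₁ × E₂}
    (h2 : Function.Bijective (fderiv ℝ τ q)) :
    ∀ᶠ y in 𝓝 q, Function.Bijective (fderiv ℝ τ y) := by
  have : CompleteSpace (E₁ × E₂) := FiniteDimensional.complete ℝ _
  let e : (E₁ × E₂) ≃L[ℝ] (E₁ × E₂) :=
    (LinearEquiv.ofBijective (fderiv ℝ τ q).toLinearMap h2).toContinuousLinearEquiv
  have he : (e : (E₁ × E₂) →L[ℝ] (E₁ × E₂)) = fderiv ℝ τ q :=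
    ContinuousLinearMap.ext fun v => rfl
  have hn := ContinuousLinearEquiv.nhds e
  rw [he] at hn
  have hc : ContinuousAt (fun y => fderiv ℝ τ y) q := (hτ.continuous_fderiv (by simp)).continuousAt
  filter_upwards [hc.preimage_mem_nhds hn] with y hy
  obtain ⟨e', he'⟩ := hy
  rw [← show (e' : (E₁ × E₂) →L[ℝ] (E₁ × E₂)) = fderiv ℝ τ y from he']
  exact e'.bijective

/-- Generalise `Circ.AC.comp` (Circ/CompAC.lean). -/
theorem AC.comp {pr : M → B} {σ : E₁ × E₂ → M} {q : E₁ × E₂} {z : B} (hA : AC E pr σ q z)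
    {τ : E₁ × E₂ → E₁ × E₂} (hτ : ContDiff ℝ ∞ τ) (hq : τ q = q) (h1 : ∀ y, (τ y).1 = y.1)
    (h2 : Function.Bijective (fderiv ℝ τ q)) : AC E pr (σ ∘ τ) q z := by
  have ht : Tendsto τ (𝓝 q) (𝓝 q) := by
    have := hτ.continuous.tendsto q
    rwa [hq] at this
  refine ⟨?_, ht.eventually hA.src, ?_⟩
  · filter_upwards [ht.eventually hA.para, eventually_bij hτ h2] with y hy hy2
    have hτy : ContMDiffAt 𝓘(ℝ, E₁ × E₂) 𝓘(ℝ, E₁ × E₂) ∞ τ y := hτ.contMDiff y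
    refine ⟨hy.smooth.comp y hτy, ?_⟩
    have h3 : mfderiv 𝓘(ℝ, E₁ × E₂) 𝓘(ℝ, E) (σ ∘ τ) y =
        (mfderiv 𝓘(ℝ, E₁ × E₂) 𝓘(ℝ, E) σ (τ y)).comp
          (mfderiv 𝓘(ℝ, E₁ × E₂) 𝓘(ℝ, E₁ × E₂) τ y) :=
      mfderiv_comp y (hy.smooth.mdifferentiableAt (by simp)) (hτy.mdifferentiableAt (by simp))
    rw [h3]
    rw [mfderiv_eq_fderiv]
    exact hy.bij.comp hy2
  · filter_upwards [ht.eventually hA.fst] with y hy
    rw [Function.comp_apply, hy, h1]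

end Pool.Agent.Lib.MP_df705a_gt.Fib
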