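import Pool.Agent.Lib.MP_df705a_gt.Fib.FibredDefs
import Pool.Agent.Lib.MP_df705a_gt.Fib.SubChart

/-!
# TASK G6: the connection in the new coordinates
-/

open scoped Manifold ContDiff Topology
open Set Bundle Module Filter

noncomputable section

namespace Pool.Agent.Lib.MP_df705a_gt.Fib

open Pool.Agent.Lib.MP_df705a_gt.Twist Pool.Agent.Lib.MP_df705a_gt.Perm
open Pool.Agent.Lib.MP_df705a_gt.Sub (mB connMetric expn hd lift Dat)
open Pool.Agent.Lib.MP_df705a_gt.Circ (Horizontal Submersion HorAt cf Para)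

variable {E₁ : Type*} [NormedAddCommGroup E₁] [NormedSpace ℝ E₁] [FiniteDimensional ℝ E₁]
  {E₂ : Type*} [NormedAddCommGroup E₂] [NormedSpace ℝ E₂] [FiniteDimensional ℝ E₂]
  {B : Type*} [TopologicalSpace B] [ChartedSpace E₁ B] [IsManifold 𝓘(ℝ, E₁) ∞ B]
  {E : Type*} [NormedAddCommGroup E] [NormedSpace ℝ E] [FiniteDimensional ℝ E]
  {M : Type*} [TopologicalSpace M] [ChartedSpace E M] [IsManifold 𝓘(ℝ, E) ∞ M]

namespace G6

set_option linter.unusedSectionVars false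

omit [FiniteDimensional ℝ E₁] in
/-- The vectors `(u, Γ u)` are orthogonal to the second factor. -/
theorem orth (S : (E₁ × E₂) →L[ℝ] (E₁ × E₂) →L[ℝ] ℝ) (hs : ∀ v w, S v w = S w v)
    (m : Matrix (Fin (finrank ℝ E₂)) (Fin (finrank ℝ E₂)) ℝ)
    (hm : ∀ i j, m i j = S (0, finBasis ℝ E₂ i) (0, finBasis ℝ E₂ j)) (hdet : IsUnit m.det)
    (u : E₁) (Γ : E₂)
    (hΓ : Γ = ∑ i, (∑ j, -m⁻¹ i j * S (0, finBasis ℝ E₂ j) (u, 0)) • finBasis ℝ E₂ i)
    (w : E₂) : S (u, Γ) (0, w) = 0 := by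
  -- it suffices to treat the basis
  suffices h : ∀ k, S (u, Γ) (0, finBasis ℝ E₂ k) = 0 by
    have h1 : (S (u, Γ)).comp (ContinuousLinearMap.inr ℝ E₁ E₂) = 0 := by
      apply ContinuousLinearMap.coe_injective
      refine (finBasis ℝ E₂).ext fun k => ?_
      exact h k
    exact DFunLike.congr_fun h1 w
  intro k
  have h1 : (u, Γ) = (u, (0 : E₂)) + ∑ i, (∑ j, -m⁻¹ i j * S (0, finBasis ℝ E₂ j) (u, 0)) •
      ((0 : E₁), finBasis ℝ E₂ i) := by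
    rw [hΓ]
    refine Prod.ext ?_ ?_
    · simp [Prod.fst_sum]
    · simp [Prod.snd_sum]
  rw [h1, map_add, map_sum, add_apply, sum_apply]
  have h2 : ∀ i, (S ((∑ j, -m⁻¹ i j * S (0, finBasis ℝ E₂ j) (u, 0)) •
      ((0 : E₁), finBasis ℝ E₂ i))) (0, finBasis ℝ E₂ k) =
      ∑ j, -m⁻¹ i j * S (0, finBasis ℝ E₂ j) (u, 0) * m i k := by
    intro i
    rw [map_smul, smul_apply, ← hm, smul_eq_mul, Finset.sum_mul]
  rw [Finset.sum_congr rfl fun i _ => h2 i, Finset.sum_comm]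
  have h3 : ∀ j, ∑ i, -m⁻¹ i j * S (0, finBasis ℝ E₂ j) (u, 0) * m i k =
      -(S (0, finBasis ℝ E₂ j) (u, 0) * (m * m⁻¹) k j) := by
    intro j
    rw [Matrix.mul_apply, Finset.mul_sum, ← Finset.sum_neg_distrib]
    refine Finset.sum_congr rfl fun i _ => ?_
    have h4 : m i k = m k i := by rw [hm, hm, hs]
    rw [h4]
    ring
  rw [Finset.sum_congr rfl fun j _ => h3 j, Matrix.mul_nonsing_inv m hdet]
  rw [Finset.sum_eq_single k]
  · rw [Matrix.one_apply_eq, mul_one, hs (u, 0)]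
    ring
  · intro j _ hj
    rw [Matrix.one_apply_ne (Ne.symm hj), mul_zero, neg_zero]
  · intro h
    exact absurd (Finset.mem_univ k) h

theorem gσ_pos (g : ContMDiffRiemannianMetric 𝓘(ℝ, E) ∞ E
      (fun x : M => TangentSpace 𝓘(ℝ, E) x)) {σ : E₁ × E₂ → M} {q : E₁ × E₂}
    (hp : Para E σ q) {v : E₁ × E₂} (hv : v ≠ 0) : 0 < gσ g σ q v v := by
  rw [gσ_apply]
  refine g.pos _ _ ?_
  intro h0
  exact hv (hp.bij.1 (h0.trans (ContinuousLinearMap.map_zero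
    (mfderiv 𝓘(ℝ, E₁ × E₂) 𝓘(ℝ, E) σ q)).symm))

theorem fm_pos (g : ContMDiffRiemannianMetric 𝓘(ℝ, E) ∞ E
      (fun x : M => TangentSpace 𝓘(ℝ, E) x)) {σ : E₁ × E₂ → M} {q : E₁ × E₂}
    (hp : Para E σ q) : (fm g σ q).PosDef := by
  rw [Matrix.posDef_iff_dotProduct_mulVec]
  refine ⟨?_, ?_⟩
  · ext i j
    rw [Matrix.conjTranspose_apply, star_trivial]
    exact g.symm _ _ _
  · intro c hc
    have h1 : ((0 : E₁), ∑ i, c i • finBasis ℝ E₂ i) ≠ 0 := by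
      intro h0
      apply hc
      have h2 : ∑ i, c i • finBasis ℝ E₂ i = 0 := congrArg Prod.snd h0
      ext i
      have := congrArg (fun v => (finBasis ℝ E₂).repr v i) h2
      simpa [Finsupp.single_apply] using this
    have h3 := gσ_pos g hp h1
    have h4 := bilin_sum (finBasis ℝ E₂)
      ((gσ g σ q).bilinearComp (ContinuousLinearMap.inr ℝ E₁ E₂) (ContinuousLinearMap.inr ℝ E₁ E₂))
      c c
    have h5 : ((gσ g σ q).bilinearComp (ContinuousLinearMap.inr ℝ E₁ E₂)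
      (ContinuousLinearMap.inr ℝ E₁ E₂)) (∑ i, c i • finBasis ℝ E₂ i)
      (∑ i, c i • finBasis ℝ E₂ i) = gσ g σ q (0, ∑ i, c i • finBasis ℝ E₂ i)
        (0, ∑ i, c i • finBasis ℝ E₂ i) := rfl
    rw [← h5, h4] at h3
    refine h3.trans_eq ?_
    rw [star_trivial, dotProduct]
    apply Finset.sum_congr rfl
    intro i _
    rw [Matrix.mulVec, dotProduct, Finset.mul_sum]
    apply Finset.sum_congr rfl
    intro j _
    have h6 : ((gσ g σ q).bilinearComp (ContinuousLinearMap.inr ℝ E₁ E₂)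
      (ContinuousLinearMap.inr ℝ E₁ E₂)) (finBasis ℝ E₂ i) (finBasis ℝ E₂ j) =
        fm g σ q i j := rfl
    rw [h6]
    ring

theorem horth (g : ContMDiffRiemannianMetric 𝓘(ℝ, E) ∞ E
      (fun x : M => TangentSpace 𝓘(ℝ, E) x)) {σ : E₁ × E₂ → M} {q : E₁ × E₂}
    (hp : Para E σ q) (u : E₁) (w : E₂) : gσ g σ q (u, gam g σ q u) (0, w) = 0 := by
  have hΓ : gam g σ q u = ∑ i, (∑ j, -(fm g σ q)⁻¹ i j *
      gσ g σ q (0, finBasis ℝ E₂ j) (u, 0)) • finBasis ℝ E₂ i := by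
    unfold gam
    rw [sum_apply]
    refine Finset.sum_congr rfl fun i _ => ?_
    rw [ContinuousLinearMap.smulRight_apply, sum_apply]
    congr 1
  exact orth (gσ g σ q) (fun v w => g.symm _ _ _) (fm g σ q) (fun i j => rfl)
    (isUnit_iff_ne_zero.2 (fm_pos g hp).det_pos.ne') u _ hΓ w

theorem fderiv_fst {τ : E₁ × E₂ → E₁ × E₂} (hτ : ContDiff ℝ ∞ τ) (h1 : ∀ y, (τ y).1 = y.1)
    (y v : E₁ × E₂) : (fderiv ℝ τ y v).1 = v.1 := by
  have hd : DifferentiableAt ℝ τ y := hτ.contDiffAt.differentiableAt (by simp)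
  have h2 : HasFDerivAt (fun p => (τ p).1)
      ((ContinuousLinearMap.fst ℝ E₁ E₂).comp (fderiv ℝ τ y)) y :=
    (ContinuousLinearMap.fst ℝ E₁ E₂).hasFDerivAt.comp y hd.hasFDerivAt
  have h3 : HasFDerivAt (fun p : E₁ × E₂ => (τ p).1) (ContinuousLinearMap.fst ℝ E₁ E₂) y := by
    have h4 : (fun p : E₁ × E₂ => (τ p).1) = fun p => p.1 := funext h1
    rw [h4]
    exact hasFDerivAt_fst
  have h5 := h2.unique h3
  exact DFunLike.congr_fun h5 v

theorem eventually_bij {τ : E₁ × E₂ → E₁ × E₂} (hτ : ContDiff ℝ ∞ τ) {q : E₁ × E₂}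
    (h2 : Function.Bijective (fderiv ℝ τ q)) :
    ∀ᶠ y in 𝓝 q, Function.Bijective (fderiv ℝ τ y) := by
  have hcomplete : CompleteSpace (E₁ × E₂) := FiniteDimensional.complete ℝ (E₁ × E₂)
  let e : (E₁ × E₂) ≃L[ℝ] (E₁ × E₂) :=
    (LinearEquiv.ofBijective (fderiv ℝ τ q : (E₁ × E₂) →ₗ[ℝ] (E₁ × E₂)) h2).toContinuousLinearEquiv
  have he : (e : (E₁ × E₂) →L[ℝ] (E₁ × E₂)) = fderiv ℝ τ q := by
    exact ContinuousLinearMap.ext fun v => rfl
  have hc : Continuous (fderiv ℝ τ) := hτ.continuous_fderiv (by simp)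
  have h3 := e.nhds
  rw [he] at h3
  filter_upwards [hc.continuousAt.preimage_mem_nhds h3] with y hy
  obtain ⟨e', he'⟩ := hy
  rw [← he']
  exact e'.bijective

theorem tendsto {τ : E₁ × E₂ → E₁ × E₂} (hτ : ContDiff ℝ ∞ τ) {q : E₁ × E₂} (hq : τ q = q) :
    Tendsto τ (𝓝 q) (𝓝 q) := by
  have := hτ.continuous.tendsto q
  rwa [hq] at this

end G6

/-- Generalise `Circ.gam_comp` (Circ/CompGam.lean): `Dτ` maps horizontal lifts to horizontal
lifts, since both sides are orthogonal to the fibres and have the same first component. -/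
theorem gam_comp (g : ContMDiffRiemannianMetric 𝓘(ℝ, E) ∞ E
      (fun x : M => TangentSpace 𝓘(ℝ, E) x))
    {pr : M → B} {σ : E₁ × E₂ → M} {q : E₁ × E₂} {z : B} (hA : AC E pr σ q z)
    {τ : E₁ × E₂ → E₁ × E₂} (hτ : ContDiff ℝ ∞ τ) (hq : τ q = q) (h1 : ∀ y, (τ y).1 = y.1)
    (h2 : Function.Bijective (fderiv ℝ τ q)) :
    ∀ᶠ y in 𝓝 q, ∀ u : E₁, fderiv ℝ τ y (u, gam g (σ ∘ τ) y u) = (u, gam g σ (τ y) u) := by
  have ht := G6.tendsto hτ hq
  filter_upwards [ht.eventually hA.para, G6.eventually_bij hτ h2] with y hy hb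
  intro u
  have hτy : ContMDiffAt 𝓘(ℝ, E₁ × E₂) 𝓘(ℝ, E₁ × E₂) ∞ τ y := hτ.contMDiff y
  have h3 : mfderiv 𝓘(ℝ, E₁ × E₂) 𝓘(ℝ, E) (σ ∘ τ) y =
      (mfderiv 𝓘(ℝ, E₁ × E₂) 𝓘(ℝ, E) σ (τ y)).comp
        (mfderiv 𝓘(ℝ, E₁ × E₂) 𝓘(ℝ, E₁ × E₂) τ y) :=
    mfderiv_comp y (hy.smooth.mdifferentiableAt (by simp)) (hτy.mdifferentiableAt (by simp))
  rw [mfderiv_eq_fderiv] at h3
  have h4 : ∀ v w : E₁ × E₂,
      gσ g (σ ∘ τ) y v w = gσ g σ (τ y) (fderiv ℝ τ y v) (fderiv ℝ τ y w) := by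
    intro v w
    rw [gσ_apply, gσ_apply, h3]
    rfl
  have hpara : Para E (σ ∘ τ) y := by
    refine ⟨hy.smooth.comp y hτy, ?_⟩
    rw [h3]
    exact hy.bij.comp hb
  have h5 : ∀ w : E₂, gσ g σ (τ y) (fderiv ℝ τ y (u, gam g (σ ∘ τ) y u)) (0, w) = 0 := by
    intro w
    obtain ⟨w', hw'⟩ := hb.2 ((0 : E₁), w)
    have h6 : w'.1 = 0 := by
      have := G6.fderiv_fst hτ h1 y w'
      rw [hw'] at this
      exact this.symm
    have h7 : w' = (0, w'.2) := Prod.ext h6 rfl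
    rw [← hw', ← h4, h7]
    exact G6.horth g hpara u w'.2
  have h6 := G6.horth g hy u
  set v := fderiv ℝ τ y (u, gam g (σ ∘ τ) y u) with hv
  have hv1 : v.1 = u := G6.fderiv_fst hτ h1 y _
  have h7 : v - (u, gam g σ (τ y) u) = (0, v.2 - gam g σ (τ y) u) := by
    refine Prod.ext ?_ ?_
    · simp [hv1]
    · simp
  by_contra hne
  have h8 : v - (u, gam g σ (τ y) u) ≠ 0 := sub_ne_zero.2 hne
  have h9 := G6.gσ_pos g hy h8
  have h10 : gσ g σ (τ y) (v - (u, gam g σ (τ y) u)) (v - (u, gam g σ (τ y) u)) = 0 := by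
    have h11 : ∀ w : E₂, gσ g σ (τ y) (v - (u, gam g σ (τ y) u)) (0, w) = 0 := by
      intro w
      rw [map_sub, sub_apply, h5, h6, sub_zero]
    exact (congrArg (fun x => gσ g σ (τ y) (v - (u, gam g σ (τ y) u)) x) h7).trans (h11 _)
  exact h9.ne' h10

end Pool.Agent.Lib.MP_df705a_gt.Fib
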