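import Pool.Agent.Lib.MP_df705a_gt.Fib.Defs

/-!
# TASK G4: the normal form of the connection
-/

open scoped Manifold ContDiff Topology
open Set Bundle Module Filter

noncomputable section

namespace Pool.Agent.Lib.MP_df705a_gt.Fib

open Pool.Agent.Lib.MP_df705a_gt.Twist Pool.Agent.Lib.MP_df705a_gt.Perm
open Pool.Agent.Lib.MP_df705a_gt.Sub (mB connMetric expn hd lift Dat)
open Pool.Agent.Lib.MP_df705a_gt.Circ (Horizontal Submersion HorAt cf Para)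

variable {E₁ : Type*} [NormedAddCommGroup E₁] [NormedSpace ℝ E₁] [FiniteDimensional ℝ E₁]
  {E₂ : Type*} [NormedAddCommGroup E₂] [NormedSpace ℝ E₂] [FiniteDimensional ℝ E₂]

namespace G4Normal

/-- The second component of the polynomial change of coordinates. -/
def tau2 (q : E₁ × E₂) (G : E₁ →L[ℝ] E₂) (A : E₂ →L[ℝ] E₁ →L[ℝ] E₂) (Q : E₁ →L[ℝ] E₁ →L[ℝ] E₂)
    (y : E₁ × E₂) : E₂ :=
  y.2 + G (y.1 - q.1) + A (y.2 - q.2) (y.1 - q.1) + (1 / 2 : ℝ) • Q (y.1 - q.1) (y.1 - q.1)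

/-- The derivative of `tau2`. -/
def dtau2 (q : E₁ × E₂) (G : E₁ →L[ℝ] E₂) (A : E₂ →L[ℝ] E₁ →L[ℝ] E₂)
    (Q : E₁ →L[ℝ] E₁ →L[ℝ] E₂) (y : E₁ × E₂) : E₁ × E₂ →L[ℝ] E₂ :=
  ContinuousLinearMap.snd ℝ E₁ E₂ + G.comp (ContinuousLinearMap.fst ℝ E₁ E₂) +
    ((A (y.2 - q.2)).comp (ContinuousLinearMap.fst ℝ E₁ E₂) +
      (A.flip (y.1 - q.1)).comp (ContinuousLinearMap.snd ℝ E₁ E₂)) +
    (1 / 2 : ℝ) • ((Q (y.1 - q.1)).comp (ContinuousLinearMap.fst ℝ E₁ E₂) +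
      (Q.flip (y.1 - q.1)).comp (ContinuousLinearMap.fst ℝ E₁ E₂))

theorem hasFDerivAt_tau2 (q : E₁ × E₂) (G : E₁ →L[ℝ] E₂) (A : E₂ →L[ℝ] E₁ →L[ℝ] E₂)
    (Q : E₁ →L[ℝ] E₁ →L[ℝ] E₂) (y : E₁ × E₂) :
    HasFDerivAt (tau2 q G A Q) (dtau2 q G A Q y) y := by
  have h1 : HasFDerivAt (fun y : E₁ × E₂ => y.1 - q.1) (ContinuousLinearMap.fst ℝ E₁ E₂) y :=
    (ContinuousLinearMap.fst ℝ E₁ E₂).hasFDerivAt.sub_const q.1
  have h2 : HasFDerivAt (fun y : E₁ × E₂ => y.2) (ContinuousLinearMap.snd ℝ E₁ E₂) y :=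
    (ContinuousLinearMap.snd ℝ E₁ E₂).hasFDerivAt
  have h2' : HasFDerivAt (fun y : E₁ × E₂ => y.2 - q.2) (ContinuousLinearMap.snd ℝ E₁ E₂) y :=
    h2.sub_const q.2
  have h3 : HasFDerivAt (fun y : E₁ × E₂ => G (y.1 - q.1))
      (G.comp (ContinuousLinearMap.fst ℝ E₁ E₂)) y := G.hasFDerivAt.comp y h1
  have h4 : HasFDerivAt (fun y : E₁ × E₂ => A (y.2 - q.2))
      (A.comp (ContinuousLinearMap.snd ℝ E₁ E₂)) y := A.hasFDerivAt.comp y h2'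
  have h5 : HasFDerivAt (fun y : E₁ × E₂ => Q (y.1 - q.1))
      (Q.comp (ContinuousLinearMap.fst ℝ E₁ E₂)) y := Q.hasFDerivAt.comp y h1
  have h6 := h5.clm_apply h1
  have h7 := ((h2.add h3).add (h4.clm_apply h1)).add (h6.const_smul (1 / 2 : ℝ))
  refine h7.congr_fderiv ?_
  ext w
  · simp [dtau2]
  · simp [dtau2]

theorem contDiff_tau2 (q : E₁ × E₂) (G : E₁ →L[ℝ] E₂) (A : E₂ →L[ℝ] E₁ →L[ℝ] E₂)
    (Q : E₁ →L[ℝ] E₁ →L[ℝ] E₂) : ContDiff ℝ ∞ (tau2 q G A Q) := by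
  have h1 : ContDiff ℝ ∞ (fun y : E₁ × E₂ => y.1 - q.1) := contDiff_fst.sub contDiff_const
  have h2 : ContDiff ℝ ∞ (fun y : E₁ × E₂ => y.2) := contDiff_snd
  have h5 : ContDiff ℝ ∞ (fun y : E₁ × E₂ => Q (y.1 - q.1)) := Q.contDiff.comp h1
  have h6 : ContDiff ℝ ∞ (fun y : E₁ × E₂ => A (y.2 - q.2)) :=
    A.contDiff.comp (h2.sub contDiff_const)
  exact ((h2.add (G.contDiff.comp h1)).add (h6.clm_apply h1)).add
    ((h5.clm_apply h1).const_smul (1 / 2 : ℝ))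

end G4Normal

open G4Normal

/-- The change of coordinates (new to old)
`(x, y) ↦ (x, y + Γ₀ ξ + DΓ₀(0, y - y₀) ξ + (1/2) DΓ₀(ξ, Γ₀ ξ) ξ)`, `ξ = x - x₀`. -/
def normT (Γ : E₁ × E₂ → E₁ →L[ℝ] E₂) (q : E₁ × E₂) (p : E₁ × E₂) : E₁ × E₂ :=
  (p.1, p.2 + Γ q (p.1 - q.1) + fderiv ℝ Γ q (0, p.2 - q.2) (p.1 - q.1) +
    (1 / 2 : ℝ) • fderiv ℝ Γ q (p.1 - q.1, Γ q (p.1 - q.1)) (p.1 - q.1))

namespace G4Normal

theorem normT_eq (Γ : E₁ × E₂ → E₁ →L[ℝ] E₂) (q : E₁ × E₂) : normT Γ q = fun p => (p.1,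
    tau2 q (Γ q) ((fderiv ℝ Γ q).comp (ContinuousLinearMap.inr ℝ E₁ E₂))
      ((fderiv ℝ Γ q).comp ((ContinuousLinearMap.id ℝ E₁).prod (Γ q))) p) := rfl

theorem hasFDerivAt_normT (Γ : E₁ × E₂ → E₁ →L[ℝ] E₂) (q y : E₁ × E₂) :
    HasFDerivAt (normT Γ q) ((ContinuousLinearMap.fst ℝ E₁ E₂).prod
      (dtau2 q (Γ q) ((fderiv ℝ Γ q).comp (ContinuousLinearMap.inr ℝ E₁ E₂))
      ((fderiv ℝ Γ q).comp ((ContinuousLinearMap.id ℝ E₁).prod (Γ q))) y)) y := by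
  rw [normT_eq]
  exact (ContinuousLinearMap.fst ℝ E₁ E₂).hasFDerivAt.prodMk (hasFDerivAt_tau2 q _ _ _ y)

end G4Normal

theorem normT_smooth (Γ : E₁ × E₂ → E₁ →L[ℝ] E₂) (q : E₁ × E₂) : ContDiff ℝ ∞ (normT Γ q) := by
  rw [normT_eq]
  exact contDiff_fst.prodMk (contDiff_tau2 q _ _ _)

theorem normT_fst (Γ : E₁ × E₂ → E₁ →L[ℝ] E₂) (q p : E₁ × E₂) : (normT Γ q p).1 = p.1 := rfl

theorem normT_self (Γ : E₁ × E₂ → E₁ →L[ℝ] E₂) (q : E₁ × E₂) : normT Γ q q = q := by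
  apply Prod.ext
  · rfl
  · simp [normT]

theorem normT_fderiv (Γ : E₁ × E₂ → E₁ →L[ℝ] E₂) (q v : E₁ × E₂) :
    fderiv ℝ (normT Γ q) q v = (v.1, v.2 + Γ q v.1) := by
  have h0 : ((0, 0) : E₁ × E₂) = 0 := rfl
  rw [(hasFDerivAt_normT Γ q q).fderiv]
  simp [dtau2, h0]

/-- If `Γ'` is the connection in the new coordinates, then it is in normal form. Differentiate
the relation `D_y τ₂ (Γ' u) = Γ(τ) u - D_x τ₂ u` at `q`. -/
theorem NF_of_rel {Γ Γ' : E₁ × E₂ → E₁ →L[ℝ] E₂} {q : E₁ × E₂} (hΓ : ContDiffAt ℝ ∞ Γ q)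
    (hΓ' : ContDiffAt ℝ ∞ Γ' q)
    (hrel : ∀ᶠ y in 𝓝 q, ∀ u : E₁, fderiv ℝ (normT Γ q) y (u, Γ' y u) =
      (u, Γ (normT Γ q y) u)) : NF Γ' q := by
  set G : E₁ →L[ℝ] E₂ := Γ q with hG
  set P : E₁ × E₂ →L[ℝ] E₁ →L[ℝ] E₂ := fderiv ℝ Γ q with hP
  set A : E₂ →L[ℝ] E₁ →L[ℝ] E₂ := P.comp (ContinuousLinearMap.inr ℝ E₁ E₂) with hA
  set Q : E₁ →L[ℝ] E₁ →L[ℝ] E₂ := P.comp ((ContinuousLinearMap.id ℝ E₁).prod G) with hQ
  have hder : ∀ y, HasFDerivAt (normT Γ q)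
      ((ContinuousLinearMap.fst ℝ E₁ E₂).prod (dtau2 q G A Q y)) y := hasFDerivAt_normT Γ q
  have hrel' : ∀ᶠ y in 𝓝 q, ∀ u : E₁, Γ' y u + A (Γ' y u) (y.1 - q.1) =
      Γ (normT Γ q y) u - (G u + A (y.2 - q.2) u +
        (1 / 2 : ℝ) • (Q (y.1 - q.1) u + Q.flip (y.1 - q.1) u)) := by
    filter_upwards [hrel] with y hy u
    have h := congrArg Prod.snd (hy u)
    rw [(hder y).fderiv] at h
    simp only [ContinuousLinearMap.prod_apply, dtau2, add_apply, smul_apply,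
      ContinuousLinearMap.comp_apply, ContinuousLinearMap.coe_fst', ContinuousLinearMap.coe_snd',
      ContinuousLinearMap.flip_apply] at h
    rw [← h]
    simp only [ContinuousLinearMap.flip_apply]
    abel
  have hTq : normT Γ q q = q := normT_self Γ q
  have hzero : Γ' q = 0 := by
    ext u
    have h := hrel'.self_of_nhds u
    simpa [hTq, hG] using h
  have hΓd : HasFDerivAt Γ P (normT Γ q q) := by
    rw [hTq]
    exact (hΓ.differentiableAt (by simp)).hasFDerivAt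
  have hΓd' : HasFDerivAt Γ' (fderiv ℝ Γ' q) q :=
    (hΓ'.differentiableAt (by simp)).hasFDerivAt
  have hξ : HasFDerivAt (fun y : E₁ × E₂ => y.1 - q.1) (ContinuousLinearMap.fst ℝ E₁ E₂) q :=
    (ContinuousLinearMap.fst ℝ E₁ E₂).hasFDerivAt.sub_const q.1
  have hη : HasFDerivAt (fun y : E₁ × E₂ => y.2 - q.2) (ContinuousLinearMap.snd ℝ E₁ E₂) q :=
    (ContinuousLinearMap.snd ℝ E₁ E₂).hasFDerivAt.sub_const q.2
  have key : ∀ (w : E₁ × E₂) (u : E₁), fderiv ℝ Γ' q w u =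
      (1 / 2 : ℝ) • (Q w.1 u - Q u w.1) := by
    intro w u
    have hu : HasFDerivAt (fun y => Γ' y u) ((fderiv ℝ Γ' q).flip u) q := by
      have := hΓd'.clm_apply (hasFDerivAt_const u q)
      refine this.congr_fderiv ?_
      ext w <;> simp
    have hL : HasFDerivAt (fun y => Γ' y u + A (Γ' y u) (y.1 - q.1))
        ((fderiv ℝ Γ' q).flip u + ((A (Γ' q u)).comp (ContinuousLinearMap.fst ℝ E₁ E₂) +
          (A.comp ((fderiv ℝ Γ' q).flip u)).flip (q.1 - q.1))) q :=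
      hu.add ((A.hasFDerivAt.comp q hu).clm_apply hξ)
    have hR1 : HasFDerivAt (fun y => Γ (normT Γ q y) u)
        ((P.comp ((ContinuousLinearMap.fst ℝ E₁ E₂).prod (dtau2 q G A Q q))).flip u) q := by
      have := (hΓd.comp q (hder q)).clm_apply (hasFDerivAt_const u q)
      refine this.congr_fderiv ?_
      ext w <;> simp
    have hR2 : HasFDerivAt (fun y : E₁ × E₂ => G u + A (y.2 - q.2) u +
        (1 / 2 : ℝ) • (Q (y.1 - q.1) u + Q.flip (y.1 - q.1) u))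
        ((A.flip u).comp (ContinuousLinearMap.snd ℝ E₁ E₂) + (1 / 2 : ℝ) •
          ((Q.flip u).comp (ContinuousLinearMap.fst ℝ E₁ E₂) +
            (Q u).comp (ContinuousLinearMap.fst ℝ E₁ E₂))) q := by
      have a1 : HasFDerivAt (fun y : E₁ × E₂ => A (y.2 - q.2) u)
          ((A.flip u).comp (ContinuousLinearMap.snd ℝ E₁ E₂)) q :=
        (A.flip u).hasFDerivAt.comp q hη
      have a2 : HasFDerivAt (fun y : E₁ × E₂ => Q (y.1 - q.1) u)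
          ((Q.flip u).comp (ContinuousLinearMap.fst ℝ E₁ E₂)) q :=
        (Q.flip u).hasFDerivAt.comp q hξ
      have a3 : HasFDerivAt (fun y : E₁ × E₂ => Q.flip (y.1 - q.1) u)
          ((Q u).comp (ContinuousLinearMap.fst ℝ E₁ E₂)) q :=
        (Q u).hasFDerivAt.comp q hξ
      exact (a1.const_add (G u)).add ((a2.add a3).const_smul (1 / 2 : ℝ))
    have hR := hR1.sub hR2
    have heq : (fun y => Γ' y u + A (Γ' y u) (y.1 - q.1)) =ᶠ[𝓝 q]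
        fun y => Γ (normT Γ q y) u - (G u + A (y.2 - q.2) u +
        (1 / 2 : ℝ) • (Q (y.1 - q.1) u + Q.flip (y.1 - q.1) u)) :=
      hrel'.mono fun y hy => hy u
    have hun := hL.unique (hR.congr_of_eventuallyEq heq)
    have h := congrArg (fun L : E₁ × E₂ →L[ℝ] E₂ => L w) hun
    have hd : dtau2 q G A Q q w = w.2 + G w.1 := by simp [dtau2]
    have hsplit : P (w.1, w.2 + G w.1) u = A w.2 u + Q w.1 u := by
      have e : ((w.1, w.2 + G w.1) : E₁ × E₂) = (0, w.2) + (w.1, G w.1) := by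
        simp
      rw [e, map_add]
      rfl
    simp only [add_apply, sub_apply, smul_apply, ContinuousLinearMap.comp_apply,
      ContinuousLinearMap.flip_apply, ContinuousLinearMap.prod_apply,
      ContinuousLinearMap.coe_fst', ContinuousLinearMap.coe_snd', hzero, sub_self, map_zero,
      zero_apply, add_zero, hd, hsplit] at h
    rw [h]
    module
  refine ⟨hzero, fun w => ?_, fun u v => ?_⟩
  · ext u
    rw [key]
    simp
  · rw [key, key]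
    module

end Pool.Agent.Lib.MP_df705a_gt.Fib
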