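import Pool.Agent.Lib.MP_df705a_gt.Circ.OffQuad
import Pool.Agent.Lib.MP_df705a_gt.Circ.OffScal
import Pool.Agent.Lib.MP_df705a_gt.Fib.Defs

/-!
# TASK F1: the scalar curvature at a point where the connection is in normal form
-/

open scoped Manifold ContDiff Topology
open Set Bundle Module Filter

noncomputable section

set_option maxSynthPendingDepth 3
set_option linter.unusedSectionVars false
set_option linter.unusedSimpArgs false

namespace Pool.Agent.Lib.MP_df705a_gt.Fib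

open Pool.Agent.Lib.MP_df705a_gt.Twist Pool.Agent.Lib.MP_df705a_gt.Perm
open Pool.Agent.Lib.MP_df705a_gt.Sub (mB connMetric expn hd lift Dat)
open Pool.Agent.Lib.MP_df705a_gt.Circ (Horizontal Submersion HorAt cf Para)

namespace F1

open Pool.Agent.Lib.MP_df705a_gt.Twist.Alg

section calculus

variable {X : Type*} [NormedAddCommGroup X] [NormedSpace ℝ X]
  {F : Type*} [NormedAddCommGroup F] [NormedSpace ℝ F]
  {G : Type*} [NormedAddCommGroup G] [NormedSpace ℝ G]
  {K : X → F →L[ℝ] G →L[ℝ] ℝ} {A : X → F} {B : X → G} {q : X}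

theorem ev_diff {W : Type*} [NormedAddCommGroup W] [NormedSpace ℝ W] {f : X → W}
    (hf : ContDiffAt ℝ ∞ f q) : ∀ᶠ y in 𝓝 q, DifferentiableAt ℝ f y := by
  have h1 : ContDiffAt ℝ 1 f q := hf.of_le (by exact_mod_cast (le_trans one_le_two two_le_inf))
  filter_upwards [h1.eventually (by simp)] with y hy
  exact hy.differentiableAt (by norm_num)

theorem diff_fderiv {W : Type*} [NormedAddCommGroup W] [NormedSpace ℝ W] {f : X → W}
    (hf : ContDiffAt ℝ ∞ f q) : DifferentiableAt ℝ (fderiv ℝ f) q :=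
  ((hf.of_le two_le_inf).fderiv_right (m := 1) (by norm_num)).differentiableAt
    (by norm_num)

theorem dir_diff {W : Type*} [NormedAddCommGroup W] [NormedSpace ℝ W] {f : X → W}
    (hf : ContDiffAt ℝ ∞ f q) (x' : X) : DifferentiableAt ℝ (fun y => fderiv ℝ f y x') q :=
  (diff_fderiv hf).clm_apply (differentiableAt_const x')

theorem dir_fderiv {W : Type*} [NormedAddCommGroup W] [NormedSpace ℝ W] {f : X → W}
    (hf : ContDiffAt ℝ ∞ f q) (x x' : X) :
    fderiv ℝ (fun y => fderiv ℝ f y x') q x = fderiv ℝ (fderiv ℝ f) q x x' := by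
  rw [fderiv_clm_apply (diff_fderiv hf) (differentiableAt_const x')]
  simp

theorem second_symm {W : Type*} [NormedAddCommGroup W] [NormedSpace ℝ W] {f : X → W}
    (hf : ContDiffAt ℝ ∞ f q) (x x' : X) :
    fderiv ℝ (fderiv ℝ f) q x x' = fderiv ℝ (fderiv ℝ f) q x' x :=
  ((hf.of_le two_le_inf).isSymmSndFDerivAt (by simp)) x x'

theorem tri_smooth (hK : ContDiffAt ℝ ∞ K q) (hA : ContDiffAt ℝ ∞ A q)
    (hB : ContDiffAt ℝ ∞ B q) : ContDiffAt ℝ ∞ (fun y => K y (A y) (B y)) q :=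
  (hK.clm_apply hA).clm_apply hB

theorem tri_diff (hK : DifferentiableAt ℝ K q) (hA : DifferentiableAt ℝ A q)
    (hB : DifferentiableAt ℝ B q) : DifferentiableAt ℝ (fun y => K y (A y) (B y)) q :=
  (hK.clm_apply hA).clm_apply hB

theorem tri_fderiv (hK : DifferentiableAt ℝ K q) (hA : DifferentiableAt ℝ A q)
    (hB : DifferentiableAt ℝ B q) (x : X) :
    fderiv ℝ (fun y => K y (A y) (B y)) q x = fderiv ℝ K q x (A q) (B q) +
      K q (fderiv ℝ A q x) (B q) + K q (A q) (fderiv ℝ B q x) := by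
  have h1 := (hK.hasFDerivAt.clm_apply hA.hasFDerivAt).clm_apply hB.hasFDerivAt
  rw [h1.fderiv]
  simp
  ring

theorem tri_fderiv2 (hK : ContDiffAt ℝ ∞ K q) (hA : ContDiffAt ℝ ∞ A q)
    (hB : ContDiffAt ℝ ∞ B q) (x x' : X) :
    fderiv ℝ (fderiv ℝ fun y => K y (A y) (B y)) q x x' =
      fderiv ℝ (fderiv ℝ K) q x x' (A q) (B q) + fderiv ℝ K q x' (fderiv ℝ A q x) (B q) +
        fderiv ℝ K q x' (A q) (fderiv ℝ B q x) +
      (fderiv ℝ K q x (fderiv ℝ A q x') (B q) + K q (fderiv ℝ (fderiv ℝ A) q x x') (B q) +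
        K q (fderiv ℝ A q x') (fderiv ℝ B q x)) +
      (fderiv ℝ K q x (A q) (fderiv ℝ B q x') + K q (fderiv ℝ A q x) (fderiv ℝ B q x') +
        K q (A q) (fderiv ℝ (fderiv ℝ B) q x x')) := by
  rw [← dir_fderiv (tri_smooth hK hA hB)]
  have h1 : (fun y => fderiv ℝ (fun y => K y (A y) (B y)) y x') =ᶠ[𝓝 q] fun y =>
      fderiv ℝ K y x' (A y) (B y) + K y (fderiv ℝ A y x') (B y) +
        K y (A y) (fderiv ℝ B y x') := by
    filter_upwards [ev_diff hK, ev_diff hA, ev_diff hB] with y h1 h2 h3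
    exact tri_fderiv h1 h2 h3 x'
  have dK := (ev_diff hK).self_of_nhds
  have dA := (ev_diff hA).self_of_nhds
  have dB := (ev_diff hB).self_of_nhds
  have d1 := tri_diff (dir_diff hK x') dA dB
  have d2 := tri_diff dK (dir_diff hA x') dB
  have d3 := tri_diff dK dA (dir_diff hB x')
  rw [h1.fderiv_eq, fderiv_fun_add (d1.fun_add d2) d3, fderiv_fun_add d1 d2,
    _root_.add_apply, _root_.add_apply, tri_fderiv (dir_diff hK x') dA dB,
    tri_fderiv dK (dir_diff hA x') dB, tri_fderiv dK dA (dir_diff hB x'),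
    dir_fderiv hK, dir_fderiv hA, dir_fderiv hB]

end calculus

section comp

variable {X : Type*} [NormedAddCommGroup X] [NormedSpace ℝ X]
  {F : Type*} [NormedAddCommGroup F] [NormedSpace ℝ F]
  {G : Type*} [NormedAddCommGroup G] [NormedSpace ℝ G] {Γ : X → F →L[ℝ] G} {q : X}

theorem comp_smooth (hΓ : ContDiffAt ℝ ∞ Γ q) (a : G) (v : F) :
    ContDiffAt ℝ ∞ (fun p => a - Γ p v) q :=
  contDiffAt_const.sub (hΓ.clm_apply contDiffAt_const)

theorem comp_fderiv_at {p : X} (hΓ : DifferentiableAt ℝ Γ p) (a : G) (v : F) (x : X) :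
    fderiv ℝ (fun p => a - Γ p v) p x = -fderiv ℝ Γ p x v := by
  have h1 : HasFDerivAt (fun p => a - Γ p v) (-((fderiv ℝ Γ p).flip v)) p := by
    have h2 := (hΓ.hasFDerivAt.clm_apply (hasFDerivAt_const v p)).const_sub a
    refine h2.congr_fderiv ?_
    ext y
    simp
  rw [h1.fderiv]
  simp

theorem comp_fderiv (hΓ : ContDiffAt ℝ ∞ Γ q) (a : G) (v : F) (x : X) :
    fderiv ℝ (fun p => a - Γ p v) q x = -fderiv ℝ Γ q x v :=
  comp_fderiv_at (ev_diff hΓ).self_of_nhds a v x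

theorem comp_fderiv2 (hΓ : ContDiffAt ℝ ∞ Γ q) (a : G) (v : F) (x x' : X) :
    fderiv ℝ (fderiv ℝ fun p => a - Γ p v) q x x' = -fderiv ℝ (fderiv ℝ Γ) q x x' v := by
  rw [← dir_fderiv (comp_smooth hΓ a v)]
  have h1 : (fun y => fderiv ℝ (fun p => a - Γ p v) y x') =ᶠ[𝓝 q]
      fun y => -fderiv ℝ Γ y x' v := by
    filter_upwards [ev_diff hΓ] with y hy
    exact comp_fderiv_at hy a v x'
  have d1 := (diff_fderiv hΓ).hasFDerivAt
  have d2 : HasFDerivAt (fun y => fderiv ℝ Γ y x') ((fderiv ℝ (fderiv ℝ Γ) q).flip x') q := by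
    refine (d1.clm_apply (hasFDerivAt_const x' q)).congr_fderiv ?_
    ext y
    simp
  have d3 : HasFDerivAt (fun y => -fderiv ℝ Γ y x' v)
      (-(((fderiv ℝ (fderiv ℝ Γ) q).flip x').flip v)) q := by
    refine ((d2.clm_apply (hasFDerivAt_const v q)).neg).congr_fderiv ?_
    ext y
    simp
  rw [h1.fderiv_eq, d3.fderiv]
  simp

end comp

theorem bil_ext {V : Type*} [AddCommGroup V] [Module ℝ V] {ι : Type*} (b : Basis ι ℝ V)
    (S : Bil V) (F : V → V → ℝ) (h1 : ∀ v v' w, F (v + v') w = F v w + F v' w)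
    (h2 : ∀ (c : ℝ) v w, F (c • v) w = c • F v w) (h3 : ∀ v w w', F v (w + w') = F v w + F v w')
    (h4 : ∀ (c : ℝ) v w, F v (c • w) = c • F v w) (hb : ∀ i j, S (b i) (b j) = F (b i) (b j))
    (v w : V) : S v w = F v w := by
  have h5 : S = LinearMap.mk₂ ℝ F h1 h2 h3 h4 := LinearMap.ext_basis b b fun i j => hb i j
  rw [h5]
  rfl

section forms

variable {V : Type*} [NormedAddCommGroup V] [NormedSpace ℝ V] [FiniteDimensional ℝ V]
  {X : Type*} [NormedAddCommGroup X] [NormedSpace ℝ X] {q : X}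

/-- The continuous bilinear form `x_i y_j`. -/
def ccL (i j : Fin (finrank ℝ V)) : V →L[ℝ] V →L[ℝ] ℝ := (cd i).smulRight (cd j)

/-- The continuous bilinear form with the matrix `M`. -/
def fL (M : Matrix (Fin (finrank ℝ V)) (Fin (finrank ℝ V)) ℝ) : V →L[ℝ] V →L[ℝ] ℝ :=
  ∑ i, ∑ j, M i j • ccL i j

theorem fL_apply (M : Matrix (Fin (finrank ℝ V)) (Fin (finrank ℝ V)) ℝ) (v w : V) :
    fL M v w = mB M v w := by
  unfold fL mB
  simp only [_root_.sum_apply, _root_.smul_apply, smul_eq_mul, ccL,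
    ContinuousLinearMap.smulRight_apply, cd_apply]

theorem fL_smooth {M : X → Matrix (Fin (finrank ℝ V)) (Fin (finrank ℝ V)) ℝ} {β : X → ℝ}
    (hM : ∀ i j, ContDiffAt ℝ ∞ (fun p => M p i j) q) (hβ : ContDiffAt ℝ ∞ β q) :
    ContDiffAt ℝ ∞ (fun p => Real.exp (β p) ^ 2 • fL (M p)) q := by
  unfold fL
  exact (hβ.exp.pow 2).smul (ContDiffAt.sum fun i _ => ContDiffAt.sum fun j _ =>
    (hM i j).smul contDiffAt_const)

theorem fL_symm {M : Matrix (Fin (finrank ℝ V)) (Fin (finrank ℝ V)) ℝ} (hM : M.PosDef)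
    (v w : V) : fL M v w = fL M w v := by
  rw [fL_apply, fL_apply]
  unfold mB
  rw [Finset.sum_comm]
  refine Finset.sum_congr rfl fun i _ => Finset.sum_congr rfl fun j _ => ?_
  have := hM.isHermitian.apply i j
  simp only [star_trivial] at this
  rw [this]
  ring

variable {F : Type*} [NormedAddCommGroup F] [NormedSpace ℝ F] {K : X → F →L[ℝ] F →L[ℝ] ℝ}

theorem ap_fderiv (hK : ContDiffAt ℝ ∞ K q) (x : X) (v w : F) :
    fderiv ℝ (fun p => K p v w) q x = fderiv ℝ K q x v w := by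
  have := tri_fderiv (A := fun _ => v) (B := fun _ => w) (ev_diff hK).self_of_nhds
    (differentiableAt_const v) (differentiableAt_const w) x
  rw [this]
  simp

theorem ap_fderiv2 (hK : ContDiffAt ℝ ∞ K q) (x x' : X) (v w : F) :
    fderiv ℝ (fderiv ℝ fun p => K p v w) q x x' = fderiv ℝ (fderiv ℝ K) q x x' v w := by
  have := tri_fderiv2 (A := fun _ => v) (B := fun _ => w) hK
    contDiffAt_const contDiffAt_const x x'
  rw [this]
  simp

theorem D_symm (hK : ContDiffAt ℝ ∞ K q) (hs : ∀ᶠ p in 𝓝 q, ∀ v w, K p v w = K p w v)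
    (x : X) (v w : F) : fderiv ℝ K q x v w = fderiv ℝ K q x w v := by
  rw [← ap_fderiv hK, ← ap_fderiv hK]
  have h1 : (fun p => K p v w) =ᶠ[𝓝 q] fun p => K p w v := hs.mono fun p hp => hp v w
  rw [h1.fderiv_eq]

theorem D2_symm (hK : ContDiffAt ℝ ∞ K q) (hs : ∀ᶠ p in 𝓝 q, ∀ v w, K p v w = K p w v)
    (x x' : X) (v w : F) :
    fderiv ℝ (fderiv ℝ K) q x x' v w = fderiv ℝ (fderiv ℝ K) q x x' w v := by
  rw [← ap_fderiv2 hK, ← ap_fderiv2 hK]
  have h1 : (fun p => K p v w) =ᶠ[𝓝 q] fun p => K p w v := hs.mono fun p hp => hp v w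
  rw [h1.fderiv.fderiv_eq]

end forms

section main

variable {E₁ : Type*} [NormedAddCommGroup E₁] [NormedSpace ℝ E₁] [FiniteDimensional ℝ E₁]
  {E₂ : Type*} [NormedAddCommGroup E₂] [NormedSpace ℝ E₂] [FiniteDimensional ℝ E₂]

/-- The horizontal part. -/
abbrev HL (h : Curv.Coeff E₁) (α : E₁ × E₂ → ℝ) (p : E₁ × E₂) : E₁ →L[ℝ] E₁ →L[ℝ] ℝ :=
  Real.exp (α p) ^ 2 • fL (h p.1)

/-- The vertical part. -/
abbrev KL (f : E₁ × E₂ → Matrix (Fin (finrank ℝ E₂)) (Fin (finrank ℝ E₂)) ℝ)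
    (β : E₁ × E₂ → ℝ) (p : E₁ × E₂) : E₂ →L[ℝ] E₂ →L[ℝ] ℝ :=
  Real.exp (β p) ^ 2 • fL (f p)

variable {h : Curv.Coeff E₁} {f : E₁ × E₂ → Matrix (Fin (finrank ℝ E₂)) (Fin (finrank ℝ E₂)) ℝ}
  {Γ : E₁ × E₂ → E₁ →L[ℝ] E₂} {α β : E₁ × E₂ → ℝ} {q : E₁ × E₂}

theorem conn_apply (p : E₁ × E₂) (i j : Fin (finrank ℝ (E₁ × E₂))) :
    connMetric h f Γ α β p i j =
      HL h α p (finBasis ℝ (E₁ × E₂) i).1 (finBasis ℝ (E₁ × E₂) j).1 +
      KL f β p ((finBasis ℝ (E₁ × E₂) i).2 - Γ p (finBasis ℝ (E₁ × E₂) i).1)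
        ((finBasis ℝ (E₁ × E₂) j).2 - Γ p (finBasis ℝ (E₁ × E₂) j).1) := by
  simp only [HL, KL, _root_.smul_apply, smul_eq_mul, fL_apply]
  rfl

section smooth

variable (hH : ContDiffAt ℝ ∞ (HL h α) q) (hK : ContDiffAt ℝ ∞ (KL f β) q)
  (hΓ : ContDiffAt ℝ ∞ Γ q)

include hH hK hΓ

theorem conn_smooth (i j : Fin (finrank ℝ (E₁ × E₂))) :
    ContDiffAt ℝ ∞ (fun p => connMetric h f Γ α β p i j) q := by
  simp only [conn_apply]
  exact (tri_smooth (A := fun _ => (finBasis ℝ (E₁ × E₂) i).1)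
      (B := fun _ => (finBasis ℝ (E₁ × E₂) j).1) hH contDiffAt_const contDiffAt_const).add
    (tri_smooth hK (comp_smooth hΓ _ _) (comp_smooth hΓ _ _))

theorem conn_D (h0 : Γ q = 0) (x v w : E₁ × E₂) : fD (connMetric h f Γ α β) q x v w =
    fderiv ℝ (HL h α) q x v.1 w.1 + (fderiv ℝ (KL f β) q x v.2 w.2 -
      KL f β q (fderiv ℝ Γ q x v.1) w.2 - KL f β q v.2 (fderiv ℝ Γ q x w.1)) := by
  refine bil_ext (finBasis ℝ (E₁ × E₂)) (fD (connMetric h f Γ α β) q x) (fun v w =>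
    fderiv ℝ (HL h α) q x v.1 w.1 + (fderiv ℝ (KL f β) q x v.2 w.2 -
      KL f β q (fderiv ℝ Γ q x v.1) w.2 - KL f β q v.2 (fderiv ℝ Γ q x w.1))) ?_ ?_ ?_ ?_ ?_ v w
  · intro v v' w
    simp only [Prod.fst_add, Prod.snd_add, map_add, _root_.add_apply]
    ring
  · intro c v w
    simp only [Prod.smul_fst, Prod.smul_snd, map_smul, _root_.smul_apply, smul_eq_mul]
    ring
  · intro v w w'
    simp only [Prod.fst_add, Prod.snd_add, map_add, _root_.add_apply]
    ring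
  · intro c v w
    simp only [Prod.smul_fst, Prod.smul_snd, map_smul, _root_.smul_apply, smul_eq_mul]
    ring
  · intro i j
    rw [mkD_basis, j1_apply]
    simp only [conn_apply]
    have c1 := tri_smooth (A := fun _ => (finBasis ℝ (E₁ × E₂) i).1)
      (B := fun _ => (finBasis ℝ (E₁ × E₂) j).1) hH contDiffAt_const contDiffAt_const
    have c2 := comp_smooth hΓ (finBasis ℝ (E₁ × E₂) i).2 (finBasis ℝ (E₁ × E₂) i).1
    have c3 := comp_smooth hΓ (finBasis ℝ (E₁ × E₂) j).2 (finBasis ℝ (E₁ × E₂) j).1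
    have c4 := tri_smooth hK c2 c3
    have d1 := (ev_diff c1).self_of_nhds
    have d4 := (ev_diff c4).self_of_nhds
    rw [fderiv_fun_add d1 d4, _root_.add_apply,
      tri_fderiv (ev_diff hK).self_of_nhds (ev_diff c2).self_of_nhds (ev_diff c3).self_of_nhds,
      ap_fderiv hH, comp_fderiv hΓ, comp_fderiv hΓ, h0]
    simp only [_root_.zero_apply, sub_zero, map_neg, _root_.neg_apply]
    ring

theorem conn_D2 (h0 : Γ q = 0) (x x' v w : E₁ × E₂) : fD2 (connMetric h f Γ α β) q x x' v w =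
    fderiv ℝ (fderiv ℝ (HL h α)) q x x' v.1 w.1 +
    (fderiv ℝ (fderiv ℝ (KL f β)) q x x' v.2 w.2
      - fderiv ℝ (KL f β) q x' (fderiv ℝ Γ q x v.1) w.2
      - fderiv ℝ (KL f β) q x' v.2 (fderiv ℝ Γ q x w.1)
      - fderiv ℝ (KL f β) q x (fderiv ℝ Γ q x' v.1) w.2
      - fderiv ℝ (KL f β) q x v.2 (fderiv ℝ Γ q x' w.1)
      - KL f β q (fderiv ℝ (fderiv ℝ Γ) q x x' v.1) w.2
      - KL f β q v.2 (fderiv ℝ (fderiv ℝ Γ) q x x' w.1)
      + KL f β q (fderiv ℝ Γ q x' v.1) (fderiv ℝ Γ q x w.1)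
      + KL f β q (fderiv ℝ Γ q x v.1) (fderiv ℝ Γ q x' w.1)) := by
  refine bil_ext (finBasis ℝ (E₁ × E₂)) (fD2 (connMetric h f Γ α β) q x x') (fun v w =>
    fderiv ℝ (fderiv ℝ (HL h α)) q x x' v.1 w.1 +
    (fderiv ℝ (fderiv ℝ (KL f β)) q x x' v.2 w.2
      - fderiv ℝ (KL f β) q x' (fderiv ℝ Γ q x v.1) w.2
      - fderiv ℝ (KL f β) q x' v.2 (fderiv ℝ Γ q x w.1)
      - fderiv ℝ (KL f β) q x (fderiv ℝ Γ q x' v.1) w.2
      - fderiv ℝ (KL f β) q x v.2 (fderiv ℝ Γ q x' w.1)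
      - KL f β q (fderiv ℝ (fderiv ℝ Γ) q x x' v.1) w.2
      - KL f β q v.2 (fderiv ℝ (fderiv ℝ Γ) q x x' w.1)
      + KL f β q (fderiv ℝ Γ q x' v.1) (fderiv ℝ Γ q x w.1)
      + KL f β q (fderiv ℝ Γ q x v.1) (fderiv ℝ Γ q x' w.1))) ?_ ?_ ?_ ?_ ?_ v w
  · intro v v' w
    simp only [Prod.fst_add, Prod.snd_add, map_add, _root_.add_apply]
    ring
  · intro c v w
    simp only [Prod.smul_fst, Prod.smul_snd, map_smul, _root_.smul_apply, smul_eq_mul]
    ring
  · intro v w w'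
    simp only [Prod.fst_add, Prod.snd_add, map_add, _root_.add_apply]
    ring
  · intro c v w
    simp only [Prod.smul_fst, Prod.smul_snd, map_smul, _root_.smul_apply, smul_eq_mul]
    ring
  · intro i j
    rw [mkD2_basis, j2_apply]
    simp only [conn_apply]
    have c1 := tri_smooth (A := fun _ => (finBasis ℝ (E₁ × E₂) i).1)
      (B := fun _ => (finBasis ℝ (E₁ × E₂) j).1) hH contDiffAt_const contDiffAt_const
    have c2 := comp_smooth hΓ (finBasis ℝ (E₁ × E₂) i).2 (finBasis ℝ (E₁ × E₂) i).1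
    have c3 := comp_smooth hΓ (finBasis ℝ (E₁ × E₂) j).2 (finBasis ℝ (E₁ × E₂) j).1
    have c4 := tri_smooth hK c2 c3
    have h1 : (fderiv ℝ fun p => HL h α p (finBasis ℝ (E₁ × E₂) i).1
          (finBasis ℝ (E₁ × E₂) j).1 +
        KL f β p ((finBasis ℝ (E₁ × E₂) i).2 - Γ p (finBasis ℝ (E₁ × E₂) i).1)
          ((finBasis ℝ (E₁ × E₂) j).2 - Γ p (finBasis ℝ (E₁ × E₂) j).1)) =ᶠ[𝓝 q]
        fun y => (fderiv ℝ fun p => HL h α p (finBasis ℝ (E₁ × E₂) i).1
          (finBasis ℝ (E₁ × E₂) j).1) y +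
        (fderiv ℝ fun p => KL f β p
          ((finBasis ℝ (E₁ × E₂) i).2 - Γ p (finBasis ℝ (E₁ × E₂) i).1)
          ((finBasis ℝ (E₁ × E₂) j).2 - Γ p (finBasis ℝ (E₁ × E₂) j).1)) y := by
      filter_upwards [ev_diff c1, ev_diff c4] with y h1 h2
      exact fderiv_fun_add h1 h2
    rw [h1.fderiv_eq, fderiv_fun_add (diff_fderiv c1) (diff_fderiv c4),
      _root_.add_apply, _root_.add_apply, ap_fderiv2 hH, tri_fderiv2 hK c2 c3,
      comp_fderiv hΓ, comp_fderiv hΓ, comp_fderiv hΓ, comp_fderiv hΓ, comp_fderiv2 hΓ,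
      comp_fderiv2 hΓ, h0]
    simp only [_root_.zero_apply, sub_zero, map_neg, _root_.neg_apply]
    ring

end smooth

theorem conn_form (h0 : Γ q = 0) (v w : E₁ × E₂) : fB (connMetric h f Γ α β) q v w =
    HL h α q v.1 w.1 + KL f β q v.2 w.2 := by
  refine bil_ext (finBasis ℝ (E₁ × E₂)) (fB (connMetric h f Γ α β) q) (fun v w =>
    HL h α q v.1 w.1 + KL f β q v.2 w.2) ?_ ?_ ?_ ?_ ?_ v w
  · intro v v' w
    simp only [Prod.fst_add, Prod.snd_add, map_add, _root_.add_apply]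
    ring
  · intro c v w
    simp only [Prod.smul_fst, Prod.smul_snd, map_smul, _root_.smul_apply, smul_eq_mul]
    ring
  · intro v w w'
    simp only [Prod.fst_add, Prod.snd_add, map_add, _root_.add_apply]
    ring
  · intro c v w
    simp only [Prod.smul_fst, Prod.smul_snd, map_smul, _root_.smul_apply, smul_eq_mul]
    ring
  · intro i j
    rw [mkB_basis, conn_apply, h0]
    simp only [_root_.zero_apply, sub_zero]

/-- The first order off-diagonal term. -/
def mm (f : E₁ × E₂ → Matrix (Fin (finrank ℝ E₂)) (Fin (finrank ℝ E₂)) ℝ)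
    (Γ : E₁ × E₂ → E₁ →L[ℝ] E₂) (β : E₁ × E₂ → ℝ) (q : E₁ × E₂) :
    E₁ →ₗ[ℝ] E₁ →ₗ[ℝ] E₂ →ₗ[ℝ] ℝ :=
  LinearMap.mk₂ ℝ (fun x u => -((KL f β q (fderiv ℝ Γ q (x, 0) u) : E₂ →L[ℝ] ℝ) : E₂ →ₗ[ℝ] ℝ))
    (fun x x' u => by
      have h1 : ((x + x', 0) : E₁ × E₂) = (x, 0) + (x', 0) := by simp
      ext v
      rw [h1]
      simp only [map_add, _root_.add_apply, LinearMap.neg_apply, LinearMap.add_apply,
        ContinuousLinearMap.coe_coe]
      ring)
    (fun c x u => by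
      have h1 : ((c • x, 0) : E₁ × E₂) = c • (x, 0) := by simp
      ext v
      rw [h1]
      simp only [map_smul, _root_.smul_apply, LinearMap.neg_apply, LinearMap.smul_apply,
        ContinuousLinearMap.coe_coe, smul_eq_mul]
      ring)
    (fun x u u' => by
      ext v
      simp only [map_add, _root_.add_apply, LinearMap.neg_apply, LinearMap.add_apply,
        ContinuousLinearMap.coe_coe]
      ring)
    (fun c x u => by
      ext v
      simp only [map_smul, _root_.smul_apply, LinearMap.neg_apply, LinearMap.smul_apply,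
        ContinuousLinearMap.coe_coe, smul_eq_mul]
      ring)

theorem mm_apply (x u : E₁) (v : E₂) :
    mm f Γ β q x u v = -KL f β q (fderiv ℝ Γ q (x, 0) u) v := rfl

/-- The second order off-diagonal term, as a bilinear form. -/
def nb (f : E₁ × E₂ → Matrix (Fin (finrank ℝ E₂)) (Fin (finrank ℝ E₂)) ℝ)
    (Γ : E₁ × E₂ → E₁ →L[ℝ] E₂) (β : E₁ × E₂ → ℝ) (q x x' : E₁ × E₂) :
    E₁ →ₗ[ℝ] E₂ →ₗ[ℝ] ℝ :=
  LinearMap.mk₂ ℝ (fun u v => -(KL f β q (fderiv ℝ (fderiv ℝ Γ) q x x' u) v +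
      fderiv ℝ (KL f β) q x (fderiv ℝ Γ q x' u) v + fderiv ℝ (KL f β) q x' (fderiv ℝ Γ q x u) v))
    (fun u u' v => by
      simp only [map_add, _root_.add_apply]
      ring)
    (fun c u v => by
      simp only [map_smul, _root_.smul_apply, smul_eq_mul]
      ring)
    (fun u v v' => by
      simp only [map_add]
      ring)
    (fun c u v => by
      simp only [map_smul, smul_eq_mul]
      ring)

theorem nb_apply (x x' : E₁ × E₂) (u : E₁) (v : E₂) : nb f Γ β q x x' u v =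
    -(KL f β q (fderiv ℝ (fderiv ℝ Γ) q x x' u) v +
      fderiv ℝ (KL f β) q x (fderiv ℝ Γ q x' u) v +
      fderiv ℝ (KL f β) q x' (fderiv ℝ Γ q x u) v) := rfl

/-- The second order off-diagonal term. -/
def nn (f : E₁ × E₂ → Matrix (Fin (finrank ℝ E₂)) (Fin (finrank ℝ E₂)) ℝ)
    (Γ : E₁ × E₂ → E₁ →L[ℝ] E₂) (β : E₁ × E₂ → ℝ) (q : E₁ × E₂) :
    (E₁ × E₂) →ₗ[ℝ] (E₁ × E₂) →ₗ[ℝ] E₁ →ₗ[ℝ] E₂ →ₗ[ℝ] ℝ :=
  LinearMap.mk₂ ℝ (fun x x' => nb f Γ β q x x')
    (fun x y x' => by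
      refine LinearMap.ext fun u => LinearMap.ext fun v => ?_
      simp only [LinearMap.add_apply, nb_apply, map_add, _root_.add_apply]
      ring)
    (fun c x x' => by
      refine LinearMap.ext fun u => LinearMap.ext fun v => ?_
      simp only [LinearMap.smul_apply, nb_apply, map_smul, _root_.smul_apply, smul_eq_mul]
      ring)
    (fun x x' y => by
      refine LinearMap.ext fun u => LinearMap.ext fun v => ?_
      simp only [LinearMap.add_apply, nb_apply, map_add, _root_.add_apply]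
      ring)
    (fun c x x' => by
      refine LinearMap.ext fun u => LinearMap.ext fun v => ?_
      simp only [LinearMap.smul_apply, nb_apply, map_smul, _root_.smul_apply, smul_eq_mul]
      ring)

theorem nn_apply (x x' : E₁ × E₂) (u : E₁) (v : E₂) : nn f Γ β q x x' u v =
    -(KL f β q (fderiv ℝ (fderiv ℝ Γ) q x x' u) v +
      fderiv ℝ (KL f β) q x (fderiv ℝ Γ q x' u) v +
      fderiv ℝ (KL f β) q x' (fderiv ℝ Γ q x u) v) := rfl

theorem gram_toL2 {V : Type*} [NormedAddCommGroup V] [NormedSpace ℝ V] [FiniteDimensional ℝ V]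
    (c : ℝ) (M : Matrix (Fin (finrank ℝ V)) (Fin (finrank ℝ V)) ℝ) :
    gram (finBasis ℝ V) (toL2 (c • fL M)) = c • M := by
  ext i j
  show toL2 (c • fL M) (finBasis ℝ V i) (finBasis ℝ V j) = c * M i j
  rw [toL2_apply, _root_.smul_apply, _root_.smul_apply, smul_eq_mul, fL_apply]
  unfold mB
  simp [Finsupp.single_apply]

theorem inv_gram {V : Type*} [NormedAddCommGroup V] [NormedSpace ℝ V] [FiniteDimensional ℝ V]
    {c : ℝ} (hc : c ≠ 0) {M : Matrix (Fin (finrank ℝ V)) (Fin (finrank ℝ V)) ℝ}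
    (hM : IsUnit M.det) :
    (gram (finBasis ℝ V) (toL2 (c • fL M)))⁻¹ = c⁻¹ • M⁻¹ := by
  apply Matrix.inv_eq_right_inv
  rw [gram_toL2, Matrix.smul_mul, Matrix.mul_smul, smul_smul, mul_inv_cancel₀ hc, one_smul,
    Matrix.mul_nonsing_inv _ hM]

theorem nondeg_toL2 {V : Type*} [NormedAddCommGroup V] [NormedSpace ℝ V]
    [FiniteDimensional ℝ V] {c : ℝ} (hc : 0 < c)
    {M : Matrix (Fin (finrank ℝ V)) (Fin (finrank ℝ V)) ℝ} (hM : M.PosDef) :
    Nondeg (finBasis ℝ V) (toL2 (c • fL M)) := by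
  refine ⟨fun u v => ?_, ?_⟩
  · rw [toL2_apply, toL2_apply, _root_.smul_apply, _root_.smul_apply, _root_.smul_apply,
      _root_.smul_apply, fL_symm hM]
  · rw [gram_toL2]
    exact (Matrix.isUnit_iff_isUnit_det _).mp (hM.smul hc).isUnit

/-- The trace of `K(L y, v)`. -/
theorem tr_map {V : Type*} [AddCommGroup V] [Module ℝ V] {ι : Type*} [Fintype ι]
    [DecidableEq ι] {e : Basis ι ℝ V} {k : Bil V} (hk : Nondeg e k) (L : V → V) :
    tr e k (fun y v => k (L y) v) = ∑ i, e.repr (L (e i)) i := by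
  unfold tr
  refine Finset.sum_congr rfl fun i _ => ?_
  have h1 := cop_form_right hk (L (e i)) (e.coord i)
  have h2 : cop e k (e.coord i) (k (L (e i))) =
      ∑ j, (gram e k)⁻¹ i j * k (L (e i)) (e j) := by
    unfold cop tr
    rw [Finset.sum_eq_single i]
    · refine Finset.sum_congr rfl fun j _ => ?_
      simp
    · intro b _ hb
      refine Finset.sum_eq_zero fun j _ => ?_
      simp [Finsupp.single_apply, hb]
    · intro hi
      exact absurd (Finset.mem_univ i) hi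
  rw [← h2, h1]
  rfl

theorem dv_fderiv (hΓ : ContDiffAt ℝ ∞ Γ q) (u x : E₁) :
    fderiv ℝ (fun p : E₁ × E₂ => dv (fun y => Γ (p.1, y) u) p.2) q (x, 0) =
      ∑ k, (finBasis ℝ E₂).repr (fderiv ℝ (fderiv ℝ Γ) q (x, 0) (0, finBasis ℝ E₂ k) u) k := by
  have h1 : (fun p : E₁ × E₂ => dv (fun y => Γ (p.1, y) u) p.2) =ᶠ[𝓝 q] fun p =>
      ∑ k, cd k (fderiv ℝ Γ p (0, finBasis ℝ E₂ k) u) := by
    filter_upwards [ev_diff hΓ] with p hp
    have h2 : HasFDerivAt (fun y : E₂ => Γ (p.1, y) u)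
        (((fderiv ℝ Γ p).comp (ContinuousLinearMap.inr ℝ E₁ E₂)).flip u) p.2 := by
      have h3 : HasFDerivAt (fun y : E₂ => (p.1, y)) (ContinuousLinearMap.inr ℝ E₁ E₂) p.2 :=
        hasFDerivAt_prodMk_right p.1 p.2
      have h4 : HasFDerivAt Γ (fderiv ℝ Γ p) (p.1, p.2) := hp.hasFDerivAt
      have h5 := (h4.comp p.2 h3).clm_apply (hasFDerivAt_const u p.2)
      refine h5.congr_fderiv ?_
      ext y
      simp
    unfold dv
    rw [LinearMap.trace_eq_matrix_trace ℝ (Module.finBasis ℝ E₂), Matrix.trace]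
    apply Finset.sum_congr rfl
    intro i _
    rw [Matrix.diag_apply, LinearMap.toMatrix_apply, h2.fderiv]
    rfl
  rw [h1.fderiv_eq]
  have h6 : ∀ k : Fin (finrank ℝ E₂), HasFDerivAt
      (fun p => cd k (fderiv ℝ Γ p (0, finBasis ℝ E₂ k) u))
      ((cd k).comp (((fderiv ℝ (fderiv ℝ Γ) q).flip (0, finBasis ℝ E₂ k)).flip u)) q := by
    intro k
    have d1 := (diff_fderiv hΓ).hasFDerivAt
    have d2 : HasFDerivAt (fun y => fderiv ℝ Γ y (0, finBasis ℝ E₂ k))
        ((fderiv ℝ (fderiv ℝ Γ) q).flip (0, finBasis ℝ E₂ k)) q := by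
      refine (d1.clm_apply (hasFDerivAt_const (0, finBasis ℝ E₂ k) q)).congr_fderiv ?_
      ext y <;> simp
    have d3 : HasFDerivAt (fun y => fderiv ℝ Γ y (0, finBasis ℝ E₂ k) u)
        (((fderiv ℝ (fderiv ℝ Γ) q).flip (0, finBasis ℝ E₂ k)).flip u) q := by
      refine (d2.clm_apply (hasFDerivAt_const u q)).congr_fderiv ?_
      ext y <;> simp
    exact (cd k).hasFDerivAt.comp q d3
  have h7 := HasFDerivAt.fun_sum (u := Finset.univ) fun k _ => h6 k
  rw [h7.fderiv]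
  simp only [_root_.sum_apply, ContinuousLinearMap.comp_apply, ContinuousLinearMap.flip_apply,
    cd_apply]

end main

end F1

variable {E₁ : Type*} [NormedAddCommGroup E₁] [NormedSpace ℝ E₁] [FiniteDimensional ℝ E₁]
  {E₂ : Type*} [NormedAddCommGroup E₂] [NormedSpace ℝ E₂] [FiniteDimensional ℝ E₂]
  {h : Curv.Coeff E₁} {f : E₁ × E₂ → Matrix (Fin (finrank ℝ E₂)) (Fin (finrank ℝ E₂)) ℝ}
  {Γ : E₁ × E₂ → E₁ →L[ℝ] E₂} {α β : E₁ × E₂ → ℝ} {q : E₁ × E₂}

open F1 Pool.Agent.Lib.MP_df705a_gt.Twist.Alg Pool.Agent.Lib.MP_df705a_gt.Circ in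
/-- Generalise `Circ.scal_conn_le` (Circ/ConnScal.lean): the 2-jet of `connMetric h f Γ α β` at
`q` differs from that of `connMetric h f 0 α β` by off-diagonal terms (`Circ.Off`), with
`m x u = -K(DΓ(x,0) u, ·)` and `n x x' u = -D²(K(Γ u, ·))(x, x')`, `K = e^{2β} f`. -/
theorem scal_conn_le (hD : Dat h f Γ α β q) (hN : NF Γ q) :
    Curv.scal (connMetric h f Γ α β) q ≤ Curv.scal (connMetric h f 0 α β) q -
      2 * Real.exp (-(2 * α q)) * trG h Γ q := by
  have hhq := hD.h_pos.self_of_nhds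
  have hfq := hD.f_pos.self_of_nhds
  have hHL : ContDiffAt ℝ ∞ (HL h α) q :=
    fL_smooth (fun i j => ContDiffAt.comp q (hD.h_smooth i j) contDiffAt_fst) hD.α_smooth
  have hKL : ContDiffAt ℝ ∞ (KL f β) q := fL_smooth hD.f_smooth hD.β_smooth
  have hΓ := hD.Γ_smooth
  have hsH : ∀ᶠ p in 𝓝 q, ∀ v w, HL h α p v w = HL h α p w v := by
    have : ∀ᶠ p : E₁ × E₂ in 𝓝 q, (h p.1).PosDef := continuousAt_fst.eventually hD.h_pos
    filter_upwards [this] with p hp v w
    simp only [HL, _root_.smul_apply]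
    rw [fL_symm hp]
  have hsK : ∀ᶠ p in 𝓝 q, ∀ v w, KL f β p v w = KL f β p w v := by
    filter_upwards [hD.f_pos] with p hp v w
    simp only [KL, _root_.smul_apply]
    rw [fL_symm hp]
  have h0Γ : ContDiffAt ℝ ∞ (0 : E₁ × E₂ → E₁ →L[ℝ] E₂) q := contDiffAt_const
  have hcα : 0 < Real.exp (α q) ^ 2 := by positivity
  have hcβ : 0 < Real.exp (β q) ^ 2 := by positivity
  have nH : Nondeg (finBasis ℝ E₁) (toL2 (HL h α q)) := nondeg_toL2 hcα hhq
  have nK : Nondeg (finBasis ℝ E₂) (toL2 (KL f β q)) := nondeg_toL2 hcβ hfq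
  have f0 : ∀ x, fderiv ℝ (0 : E₁ × E₂ → E₁ →L[ℝ] E₂) q x = 0 := fun x => by simp
  have f00 : ∀ x x', fderiv ℝ (fderiv ℝ (0 : E₁ × E₂ → E₁ →L[ℝ] E₂)) q x x' = 0 :=
    fun x x' => by
    have : fderiv ℝ (0 : E₁ × E₂ → E₁ →L[ℝ] E₂) = 0 := by
      ext1 y
      simp
    rw [this]
    simp
  have hx : ∀ x : E₁ × E₂, fderiv ℝ Γ q x = fderiv ℝ Γ q (x.1, 0) := by
    intro x
    have h1 : x = (x.1, 0) + ((0 : E₁), x.2) := by
      ext <;> simp
    conv_lhs => rw [h1, map_add, hN.dy, add_zero]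
  have hfB : fB (connMetric h f Γ α β) q = fB (connMetric h f 0 α β) q := by
    refine LinearMap.ext fun v => LinearMap.ext fun w => ?_
    rw [conn_form hN.zero, conn_form rfl]
  have hcop : ∀ x u x' u' : E₁, cop (finBasis ℝ E₂) (toL2 (KL f β q)) (mm f Γ β q x u)
      (mm f Γ β q x' u') = KL f β q (fderiv ℝ Γ q (x, 0) u) (fderiv ℝ Γ q (x', 0) u') := by
    intro x u x' u'
    have h1 : (mm f Γ β q x u : E₂ → ℝ) =
        (toL2 (KL f β q) (-(fderiv ℝ Γ q (x, 0) u)) : E₂ → ℝ) := by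
      funext v
      rw [mm_apply, toL2_apply, map_neg, _root_.neg_apply]
    rw [h1, cop_form nK, mm_apply, map_neg, neg_neg]
    exact hsK.self_of_nhds _ _
  have T : Off (finBasis ℝ E₁) (finBasis ℝ E₂) (toL2 (HL h α q)) (toL2 (KL f β q))
      (fB (connMetric h f 0 α β) q) (fD (connMetric h f 0 α β) q)
      (fD (connMetric h f Γ α β) q)
      (fD2 (connMetric h f 0 α β) q) (fD2 (connMetric h f Γ α β) q) (mm f Γ β q)
      (nn f Γ β q) :=
    { hH := nH
      hK := nK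
      Hp := by rw [gram_toL2]; exact hhq.smul hcα
      Kp := by rw [gram_toL2]; exact hfq.smul hcβ
      hg := fun u v => by rw [conn_form rfl, toL2_apply, toL2_apply]
      d12 := fun u v w => by
        rw [conn_D hHL hKL h0Γ rfl, f0]
        simp
      d21 := fun u v w => by
        rw [conn_D hHL hKL h0Γ rfl, f0]
        simp
      d2_12 := fun u u' v w => by
        rw [conn_D2 hHL hKL h0Γ rfl, f0, f0, f00]
        simp
      d2_21 := fun u u' v w => by
        rw [conn_D2 hHL hKL h0Γ rfl, f0, f0, f00]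
        simp
      sD := fun u v w => by
        rw [conn_D hHL hKL h0Γ rfl, conn_D hHL hKL h0Γ rfl, f0,
          D_symm hHL hsH, D_symm hKL hsK]
        simp
      sD2 := fun u u' v w => by
        rw [conn_D2 hHL hKL h0Γ rfl, conn_D2 hHL hKL h0Γ rfl, f0, f0, f00,
          D2_symm hHL hsH, D2_symm hKL hsK]
        simp
      s2D2 := fun u u' v w => by
        rw [conn_D2 hHL hKL h0Γ rfl, conn_D2 hHL hKL h0Γ rfl, f0, f0, f00, f00,
          second_symm hHL, second_symm hKL]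
        simp only [_root_.zero_apply, map_zero]
      anti := fun x u v => by
        rw [mm_apply, mm_apply, hN.anti x u, map_neg, _root_.neg_apply]
      sn := fun x x' u v => by
        rw [nn_apply, nn_apply, second_symm hΓ x x']
        ring
      hD := fun x u v => by
        rw [conn_D hHL hKL h0Γ rfl, conn_D hHL hKL hΓ hN.zero, f0, mm_apply, mm_apply, hx x,
          hsK.self_of_nhds u.2]
        simp only [_root_.zero_apply, map_zero]
        ring
      hD2 := fun x x' u v => by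
        rw [conn_D2 hHL hKL h0Γ rfl, conn_D2 hHL hKL hΓ hN.zero, f0, f0, f00, nn_apply,
          nn_apply, hcop, hcop, ← hx x, ← hx x', hsK.self_of_nhds u.2,
          D_symm hKL hsK x u.2, D_symm hKL hsK x' u.2]
        simp only [_root_.zero_apply, map_zero]
        ring }
  -- the scalar curvatures in the product basis
  have nprod : Nondeg ((finBasis ℝ E₁).prod (finBasis ℝ E₂))
      (fB (connMetric h f 0 α β) q) := nondeg_prod T.hH T.hK T.hg
  have nfin : Nondeg (finBasis ℝ (E₁ × E₂)) (fB (connMetric h f 0 α β) q) := by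
    refine ⟨nprod.symm, ?_⟩
    have h1 := (LinearMap.BilinForm.nondegenerate_iff_det_ne_zero
      (B := fB (connMetric h f 0 α β) q) ((finBasis ℝ E₁).prod (finBasis ℝ E₂))).mpr ?_
    · have h2 := (LinearMap.BilinForm.nondegenerate_iff_det_ne_zero
        (B := fB (connMetric h f 0 α β) q) (finBasis ℝ (E₁ × E₂))).mp h1
      have h3 : gram (finBasis ℝ (E₁ × E₂)) (fB (connMetric h f 0 α β) q) =
          LinearMap.BilinForm.toMatrix (finBasis ℝ (E₁ × E₂))
            (fB (connMetric h f 0 α β) q) := by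
        ext i j
        rw [LinearMap.BilinForm.toMatrix_apply]
        rfl
      rw [h3]
      exact isUnit_iff_ne_zero.mpr h2
    · have h3 : LinearMap.BilinForm.toMatrix ((finBasis ℝ E₁).prod (finBasis ℝ E₂))
          (fB (connMetric h f 0 α β) q) = gram ((finBasis ℝ E₁).prod (finBasis ℝ E₂))
            (fB (connMetric h f 0 α β) q) := by
        ext i j
        rw [LinearMap.BilinForm.toMatrix_apply]
        rfl
      rw [h3]
      exact isUnit_iff_ne_zero.mp nprod.det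
  rw [scal_link (conn_smooth hHL hKL hΓ), scal_link (conn_smooth hHL hKL h0Γ), hfB,
    scal_basis _ _ nfin nprod, scal_basis _ _ nfin nprod, T.scal_eq]
  have h1 := quad_nonneg T.hH T.hK T.Hp T.Kp (mm f Γ β q)
  have h2 : tr (finBasis ℝ E₁) (toL2 (HL h α q))
      (fun x u => tr (finBasis ℝ E₂) (toL2 (KL f β q)) fun y v =>
        nn f Γ β q (x, 0) (0, y) u v) = -(Real.exp (-(2 * α q)) * trG h Γ q) := by
    have h3 : ∀ x u : E₁, tr (finBasis ℝ E₂) (toL2 (KL f β q))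
        (fun y v => nn f Γ β q (x, 0) (0, y) u v) =
        -(∑ k, (finBasis ℝ E₂).repr
          (fderiv ℝ (fderiv ℝ Γ) q (x, 0) (0, finBasis ℝ E₂ k) u) k) -
        tr (finBasis ℝ E₂) (toL2 (KL f β q)) (fun y v =>
          fderiv ℝ (KL f β) q (0, y) (fderiv ℝ Γ q (x, 0) u) v) := by
      intro x u
      have h4 : ∀ y v : E₂, nn f Γ β q (x, 0) (0, y) u v =
          -(toL2 (KL f β q) (fderiv ℝ (fderiv ℝ Γ) q (x, 0) (0, y) u) v) -
          fderiv ℝ (KL f β) q (0, y) (fderiv ℝ Γ q (x, 0) u) v := by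
        intro y v
        rw [nn_apply, hN.dy, toL2_apply]
        simp only [_root_.zero_apply, map_zero]
        ring
      rw [tr_congr h4, tr_sub, tr_neg,
        tr_map nK (fun y => fderiv ℝ (fderiv ℝ Γ) q (x, 0) (0, y) u)]
    rw [tr_congr h3, tr_sub, tr_neg]
    have h5 : tr (finBasis ℝ E₁) (toL2 (HL h α q)) (fun x u =>
        tr (finBasis ℝ E₂) (toL2 (KL f β q)) (fun y v =>
          fderiv ℝ (KL f β) q (0, y) (fderiv ℝ Γ q (x, 0) u) v)) = 0 := by
      refine OffScalAux.tr_anti nH _ fun x u => ?_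
      rw [← tr_neg]
      refine tr_congr fun y v => ?_
      rw [hN.anti x u, map_neg, _root_.neg_apply]
    rw [h5, sub_zero]
    congr 1
    unfold trG tr
    rw [inv_gram hcα.ne' ((Matrix.isUnit_iff_isUnit_det _).mp hhq.isUnit), Finset.mul_sum]
    refine Finset.sum_congr rfl fun i _ => ?_
    rw [Finset.mul_sum]
    refine Finset.sum_congr rfl fun j _ => ?_
    rw [dv_fderiv hΓ, Matrix.smul_apply, smul_eq_mul, mul_assoc]
    congr 1
    rw [← Real.exp_nat_mul, ← Real.exp_neg]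
    norm_num
  rw [h2]
  linarith

end Pool.Agent.Lib.MP_df705a_gt.Fib
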