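import Pool.Agent.Lib.MP_df705a_gt.Fib.Defs
import Pool.Agent.Lib.MP_df705a_gt.Perm.ChartIneq

/-!
# TASK F2: the block-diagonal inequality with a second order correction
-/

open scoped Manifold ContDiff Topology
open Set Bundle Module Filter

noncomputable section

namespace Pool.Agent.Lib.MP_df705a_gt.Fib

open Pool.Agent.Lib.MP_df705a_gt.Twist Pool.Agent.Lib.MP_df705a_gt.Perm
open Pool.Agent.Lib.MP_df705a_gt.Sub (mB connMetric expn hd lift Dat)
open Pool.Agent.Lib.MP_df705a_gt.Circ (Horizontal Submersion HorAt cf Para)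

namespace BlockAux

open Pool.Agent.Lib.MP_df705a_gt.Twist.Alg

theorem lapC_lin {E : Type*} [NormedAddCommGroup E] [NormedSpace ℝ E] [FiniteDimensional ℝ E]
    {h : Curv.Coeff E} {φ ψ : E → ℝ} {x : E} (hφ : ContDiffAt ℝ ∞ φ x)
    (hψ : ContDiffAt ℝ ∞ ψ x) (c d : ℝ) :
    lapC h (fun y => c * φ y + d * ψ y) x = c * lapC h φ x + d * lapC h ψ x := by
  rw [lapC_link (lin_contDiffAt hφ hψ c d), lapC_link hφ, lapC_link hψ]
  exact lap_linear _ _ _ _ _ _ _ _ _ (fun u => lin_fderiv hφ hψ c d u)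
    fun u v => lin_fderiv2 hφ hψ c d u v

theorem slice_second {E₁ : Type*} [NormedAddCommGroup E₁] [NormedSpace ℝ E₁]
    {E₂ : Type*} [NormedAddCommGroup E₂] [NormedSpace ℝ E₂] {F : E₁ × E₂ → ℝ} {q : E₁ × E₂}
    (hF : ContDiffAt ℝ ∞ F q) (x x' : E₁) :
    fderiv ℝ (fun z => fderiv ℝ (fun z => F (z, q.2)) z x) q.1 x' =
      fderiv ℝ (fun p => fderiv ℝ F p (x, 0)) q (x', 0) := by
  rw [fderiv_fderiv_apply (slice1_contDiffAt hF), slice1_fderiv2 hF, fderiv_fderiv_apply hF]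

end BlockAux

open BlockAux Pool.Agent.Lib.MP_df705a_gt.Twist.Alg

variable {E₁ : Type*} [NormedAddCommGroup E₁] [NormedSpace ℝ E₁] [FiniteDimensional ℝ E₁]
  {E₂ : Type*} [NormedAddCommGroup E₂] [NormedSpace ℝ E₂] [FiniteDimensional ℝ E₂]
  {h : Curv.Coeff E₁} {f : E₁ × E₂ → Matrix (Fin (finrank ℝ E₂)) (Fin (finrank ℝ E₂)) ℝ}
  {Γ : E₁ × E₂ → E₁ →L[ℝ] E₂} {α β : E₁ × E₂ → ℝ} {q : E₁ × E₂}

/-- Apply `Perm.point_ineq'` to `h ∘ fst`, `f₁ q = e^{-2 γ(q.1)} f q`, `α` and `β₁ = β + γ ∘ fst`,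
where `γ` is the quadratic function on `E₁` with `γ = 0`, `Dγ = 0` at `q.1` and
`D²γ (x, x') = (1 / (2k)) D²(log det f)(q) ((x, 0), (x', 0))`, `k = dim E₂`. -/
theorem block_ineq (hd₁ : 0 < finrank ℝ E₁) (hd₂ : 0 < finrank ℝ E₂) (hD : Dat h f 0 α β q)
    (h1 : ∀ u : E₁, fderiv ℝ (fun p => Real.log (f p).det) q (u, 0) = 0)
    (u v : E₁ × E₂ → ℝ)
    (hu : u = fun q => ((finrank ℝ E₁ : ℝ) - 1) * α q + (finrank ℝ E₂ : ℝ) * β q)
    (hv : v = fun q => ((finrank ℝ E₂ : ℝ) - 1) * β q + (finrank ℝ E₁ : ℝ) * α q) :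
    Real.exp (α q + β q) * (Curv.scal (connMetric h f 0 α β) q +
        Real.exp (-(2 * α q)) * trD h f q) +
      2 * Real.exp (β q - α q) *
        (lapC h (fun x => u (x, q.2)) q.1 +
          gradC h (fun x => β (x, q.2) - α (x, q.2)) (fun x => u (x, q.2)) q.1) +
      2 * Real.exp (α q - β q) *
        (lapC (fun y => f (q.1, y)) (fun y => v (q.1, y)) q.2 +
          gradC (fun y => f (q.1, y)) (fun y => α (q.1, y) - β (q.1, y))
            (fun y => v (q.1, y)) q.2) ≤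
    Real.exp (β q - α q) * (Curv.scal h q.1 -
        ((finrank ℝ E₁ : ℝ) - 1) * gradC h (fun x => α (x, q.2)) (fun x => α (x, q.2)) q.1) +
      Real.exp (α q - β q) * (Curv.scal (fun y => f (q.1, y)) q.2 -
        ((finrank ℝ E₂ : ℝ) - 1) * gradC (fun y => f (q.1, y)) (fun y => β (q.1, y))
          (fun y => β (q.1, y)) q.2) := by
  have hf := hD.f_pos.self_of_nhds
  have hk : (0 : ℝ) < (finrank ℝ E₂ : ℝ) := by exact_mod_cast hd₂
  set L : E₁ × E₂ → ℝ := fun p => Real.log (f p).det with hLdef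
  set c : ℝ := 1 / (2 * (finrank ℝ E₂ : ℝ)) with hc
  have hL : ContDiffAt ℝ ∞ L q := (contDiffAt_det hD.f_smooth).log hf.det_pos.ne'
  have hLs : ContDiffAt ℝ ∞ (fun x => L (x, q.2)) q.1 := slice1_contDiffAt hL
  have hcst : ContDiffAt ℝ ∞ (fun _ : E₁ => L q) q.1 := contDiffAt_const
  set γ : E₁ → ℝ := fun x => c * L (x, q.2) + (-c) * (fun _ : E₁ => L q) x with hγdef
  have hγ : ContDiffAt ℝ ∞ γ q.1 := lin_contDiffAt hLs hcst c (-c)
  have γ0 : γ q.1 = 0 := by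
    simp only [hγdef]
    ring
  have dγ : ∀ x, fderiv ℝ γ q.1 x = 0 := by
    intro x
    have e1 : fderiv ℝ γ q.1 x = c * fderiv ℝ (fun x => L (x, q.2)) q.1 x +
        (-c) * fderiv ℝ (fun _ : E₁ => L q) q.1 x := lin_fderiv hLs hcst c (-c) x
    rw [e1, slice1_fderiv hL, h1 x, fderiv_const_apply]
    simp
  have ddγ : ∀ x x', fderiv ℝ (fderiv ℝ γ) q.1 x x' =
      c * fderiv ℝ (fderiv ℝ L) q (x, 0) (x', 0) := by
    intro x x'
    have e1 : fderiv ℝ (fderiv ℝ γ) q.1 x x' =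
        c * fderiv ℝ (fderiv ℝ (fun x => L (x, q.2))) q.1 x x' +
        (-c) * fderiv ℝ (fderiv ℝ (fun _ : E₁ => L q)) q.1 x x' :=
      lin_fderiv2 hLs hcst c (-c) x x'
    have e2 : fderiv ℝ (fderiv ℝ (fun _ : E₁ => L q)) q.1 = 0 := by
      have : fderiv ℝ (fun _ : E₁ => L q) = fun _ => 0 := by
        funext z
        exact fderiv_const_apply _
      rw [this]
      exact fderiv_const_apply _
    rw [e1, slice1_fderiv2 hL, e2]
    simp
  have lapγ : lapC h γ q.1 = c * trD h f q := by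
    unfold lapC trD
    rw [Finset.mul_sum]
    refine Finset.sum_congr rfl fun i _ => ?_
    rw [Finset.mul_sum]
    refine Finset.sum_congr rfl fun j _ => ?_
    unfold Curv.covHess
    have e1 : ∀ p, Curv.pd p γ q.1 = 0 := fun p => dγ _
    simp only [e1, mul_zero, Finset.sum_const_zero, sub_zero]
    rw [pd_pd hγ, ddγ]
    have e2 := fderiv_fderiv_apply hL ((finBasis ℝ E₁ i, 0) : E₁ × E₂)
      ((finBasis ℝ E₁ j, 0) : E₁ × E₂)
    rw [e2]
    ring
  have hγf : ContDiffAt ℝ ∞ (fun p : E₁ × E₂ => γ p.1) q :=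
    ContDiffAt.comp (f := Prod.fst) (g := γ) q hγ contDiffAt_fst
  set f₁ : E₁ × E₂ → Matrix (Fin (finrank ℝ E₂)) (Fin (finrank ℝ E₂)) ℝ :=
    fun p => (Real.exp (-γ p.1) ^ 2) • f p with hf₁
  have f₁_smooth : ∀ i j, ContDiffAt ℝ ∞ (fun p => f₁ p i j) q := fun i j =>
    (hγf.neg.exp.pow 2).mul (hD.f_smooth i j)
  have f₁_pos : ∀ᶠ p in 𝓝 q, (f₁ p).PosDef := by
    filter_upwards [hD.f_pos] with p hp
    exact hp.smul (by positivity)
  -- the slice of `f₁` has constant determinant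
  set F : E₁ → Matrix (Fin (finrank ℝ E₂)) (Fin (finrank ℝ E₂)) ℝ := fun x => f₁ (x, q.2) with hF
  have hcont : Tendsto (fun x : E₁ => (x, q.2)) (𝓝 q.1) (𝓝 q) := by
    have : Continuous fun x : E₁ => (x, q.2) := by fun_prop
    exact this.tendsto q.1
  have F_smooth : ∀ i j, ContDiffAt ℝ ∞ (fun x => F x i j) q.1 := fun i j =>
    slice1_contDiffAt (f₁_smooth i j)
  have F_pos : ∀ᶠ x in 𝓝 q.1, (F x).PosDef := hcont.eventually f₁_pos
  have F_det : ∀ᶠ x in 𝓝 q.1, (F x).det = (f q).det := by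
    filter_upwards [hcont.eventually hD.f_pos] with x hx
    have e1 : (F x).det = (Real.exp (-γ x) ^ 2) ^ (finrank ℝ E₂) * (f (x, q.2)).det := by
      simp only [hF, hf₁]
      rw [Matrix.det_smul, Fintype.card_fin]
    have e2 : (Real.exp (-γ x) ^ 2) ^ (finrank ℝ E₂) = Real.exp (L q - L (x, q.2)) := by
      rw [← Real.exp_nat_mul, ← Real.exp_nat_mul]
      congr 1
      simp only [hγdef, hc]
      push_cast
      field_simp
      ring
    rw [e1, e2, Real.exp_sub]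
    simp only [hLdef]
    rw [Real.exp_log hf.det_pos, Real.exp_log hx.det_pos]
    field_simp [hx.det_pos.ne']
  have F_det' : ∀ᶠ x in 𝓝 q.1, (fun x => (F x).det) =ᶠ[𝓝 x] fun _ => (f q).det :=
    F_det.eventually_nhds
  have F_d : ∀ v : E₁, ∀ᶠ x in 𝓝 q.1, fderiv ℝ (fun x => (F x).det) x v = 0 := by
    intro v
    filter_upwards [F_det'] with x hx
    rw [hx.fderiv_eq, fderiv_const_apply]
    rfl
  have F1 : ∀ i j, ContDiffAt ℝ 1 (fun x => F x i j) q.1 := fun i j =>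
    (F_smooth i j).of_le (by norm_num)
  have hf1 : ∀ x : E₁, ∑ k, ∑ l, (f₁ q)⁻¹ k l * fderiv ℝ (fun q => f₁ q k l) q (x, 0) = 0 := by
    intro x
    have e1 := det_dir1 F1 F_pos (F_d x).self_of_nhds
    rw [← e1]
    refine Finset.sum_congr rfl fun k _ => Finset.sum_congr rfl fun l _ => ?_
    have e2 := slice1_fderiv (f₁_smooth k l) x
    exact congrArg _ e2.symm
  have hf2 : ∀ x x' : E₁, ∑ k, ∑ l, (f₁ q)⁻¹ k l *
        fderiv ℝ (fun q => fderiv ℝ (fun q => f₁ q k l) q (x, 0)) q (x', 0) =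
      ∑ k, ∑ l, ∑ r, ∑ s, (f₁ q)⁻¹ k l * (f₁ q)⁻¹ r s *
        fderiv ℝ (fun q => f₁ q k r) q (x, 0) * fderiv ℝ (fun q => f₁ q l s) q (x', 0) := by
    intro x x'
    have e1 := det_dir2 F_smooth F_pos (F_d x) x'
    have e2 : ∑ k, ∑ l, (F q.1)⁻¹ k l *
        fderiv ℝ (fun p => fderiv ℝ (fun p => F p k l) p x) q.1 x' =
        ∑ k, ∑ l, (f₁ q)⁻¹ k l *
          fderiv ℝ (fun q => fderiv ℝ (fun q => f₁ q k l) q (x, 0)) q (x', 0) :=
      Finset.sum_congr rfl fun k _ => Finset.sum_congr rfl fun l _ =>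
        congrArg _ (slice_second (f₁_smooth k l) x x')
    have e3 : ∑ k, ∑ l, ∑ r, ∑ s, (F q.1)⁻¹ k l * (F q.1)⁻¹ r s *
        fderiv ℝ (fun p => F p k r) q.1 x * fderiv ℝ (fun p => F p l s) q.1 x' =
        ∑ k, ∑ l, ∑ r, ∑ s, (f₁ q)⁻¹ k l * (f₁ q)⁻¹ r s *
        fderiv ℝ (fun q => f₁ q k r) q (x, 0) * fderiv ℝ (fun q => f₁ q l s) q (x', 0) := by
      refine Finset.sum_congr rfl fun k _ => Finset.sum_congr rfl fun l _ =>
        Finset.sum_congr rfl fun r _ => Finset.sum_congr rfl fun s _ => ?_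
      have a1 : fderiv ℝ (fun p => F p k r) q.1 x = fderiv ℝ (fun q => f₁ q k r) q (x, 0) :=
        slice1_fderiv (f₁_smooth k r) x
      have a2 : fderiv ℝ (fun p => F p l s) q.1 x' = fderiv ℝ (fun q => f₁ q l s) q (x', 0) :=
        slice1_fderiv (f₁_smooth l s) x'
      rw [a1, a2]
    rw [← e2, ← e3]
    exact e1
  -- `h` does not depend on `y`
  have hhd : ∀ (k l) (p : E₁ × E₂) (y : E₂), DifferentiableAt ℝ (fun x => h x k l) p.1 →
      fderiv ℝ (fun q : E₁ × E₂ => h q.1 k l) p (0, y) = 0 := by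
    intro k l p y hd
    have e1 : HasFDerivAt (fun q : E₁ × E₂ => h q.1 k l)
        ((fderiv ℝ (fun x => h x k l) p.1).comp (ContinuousLinearMap.fst ℝ E₁ E₂)) p :=
      hd.hasFDerivAt.comp p hasFDerivAt_fst
    rw [e1.fderiv]
    simp
  have hh_smooth : ∀ i j, ContDiffAt ℝ ∞ (fun p : E₁ × E₂ => h p.1 i j) q := fun i j =>
    ContDiffAt.comp (f := Prod.fst) (g := fun x => h x i j) q (hD.h_smooth i j) contDiffAt_fst
  have hfst : Tendsto (fun p : E₁ × E₂ => p.1) (𝓝 q) (𝓝 q.1) := continuous_fst.tendsto q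
  have hh_pos : ∀ᶠ p : E₁ × E₂ in 𝓝 q, (h p.1).PosDef := hfst.eventually hD.h_pos
  have hhe : ∀ k l, ∀ᶠ p in 𝓝 q, DifferentiableAt ℝ (fun x => h x k l) (Prod.fst p) :=
    fun k l => hfst.eventually (eventually_differentiableAt (hD.h_smooth k l))
  have hh1 : ∀ y : E₂, ∑ k, ∑ l, (h q.1)⁻¹ k l *
      fderiv ℝ (fun q : E₁ × E₂ => h q.1 k l) q (0, y) = 0 := by
    intro y
    refine Finset.sum_eq_zero fun k _ => Finset.sum_eq_zero fun l _ => ?_
    rw [hhd k l q y (hhe k l).self_of_nhds, mul_zero]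
  have hh2 : ∀ y y' : E₂, ∑ k, ∑ l, (h q.1)⁻¹ k l *
        fderiv ℝ (fun q => fderiv ℝ (fun q : E₁ × E₂ => h q.1 k l) q (0, y)) q (0, y') =
      ∑ k, ∑ l, ∑ r, ∑ s, (h q.1)⁻¹ k l * (h q.1)⁻¹ r s *
        fderiv ℝ (fun q : E₁ × E₂ => h q.1 k r) q (0, y) *
          fderiv ℝ (fun q : E₁ × E₂ => h q.1 l s) q (0, y') := by
    intro y y'
    have e1 : ∑ k, ∑ l, (h q.1)⁻¹ k l *
        fderiv ℝ (fun q => fderiv ℝ (fun q : E₁ × E₂ => h q.1 k l) q (0, y)) q (0, y') = 0 := by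
      refine Finset.sum_eq_zero fun k _ => Finset.sum_eq_zero fun l _ => ?_
      have e2 : (fun q => fderiv ℝ (fun q : E₁ × E₂ => h q.1 k l) q (0, y)) =ᶠ[𝓝 q]
          fun _ => 0 := by
        filter_upwards [hhe k l] with p hp
        exact hhd k l p y hp
      rw [e2.fderiv_eq, fderiv_const_apply]
      simp
    rw [e1]
    refine (Finset.sum_eq_zero fun k _ => Finset.sum_eq_zero fun l _ =>
      Finset.sum_eq_zero fun r _ => Finset.sum_eq_zero fun s _ => ?_).symm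
    rw [hhd k r q y (hhe k r).self_of_nhds]
    ring
  set β₁ : E₁ × E₂ → ℝ := fun p => β p + γ p.1 with hβ₁
  have β₁_smooth : ContDiffAt ℝ ∞ β₁ q := hD.β_smooth.add hγf
  have key := point_ineq' hd₁ hd₂ (fun p : E₁ × E₂ => h p.1) f₁ α β₁ (q := q) hh_smooth
    f₁_smooth hD.α_smooth β₁_smooth hh_pos f₁_pos hf1 hf2 hh1 hh2
    (fun q => ((finrank ℝ E₁ : ℝ) - 1) * α q + (finrank ℝ E₂ : ℝ) * β₁ q)
    (fun q => ((finrank ℝ E₂ : ℝ) - 1) * β₁ q + (finrank ℝ E₁ : ℝ) * α q) rfl rfl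
  -- the terms
  have T1 : blockMetric (fun p : E₁ × E₂ => h p.1) f₁ α β₁ = connMetric h f 0 α β := by
    funext p i j
    unfold blockMetric connMetric mB
    have e1 : Real.exp (β₁ p) ^ 2 * Real.exp (-γ p.1) ^ 2 = Real.exp (β p) ^ 2 := by
      rw [← mul_pow, ← Real.exp_add]
      congr 2
      simp only [hβ₁]
      ring
    congr 1
    rw [← e1, mul_assoc, Finset.mul_sum, Finset.mul_sum, Finset.mul_sum]
    refine Finset.sum_congr rfl fun a _ => ?_
    rw [Finset.mul_sum, Finset.mul_sum, Finset.mul_sum]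
    refine Finset.sum_congr rfl fun b _ => ?_
    simp only [hf₁, Matrix.smul_apply, smul_eq_mul, Pi.zero_apply, _root_.zero_apply, sub_zero]
    ring
  have T3 : β₁ q = β q := by
    simp only [hβ₁, γ0, add_zero]
  have cβ : ContDiffAt ℝ ∞ (fun x => β (x, q.2)) q.1 := slice1_contDiffAt hD.β_smooth
  have cα : ContDiffAt ℝ ∞ (fun x => α (x, q.2)) q.1 := slice1_contDiffAt hD.α_smooth
  have cu : ContDiffAt ℝ ∞ (fun x => u (x, q.2)) q.1 := by
    rw [hu]
    exact lin_contDiffAt cα cβ _ _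
  have u_eq : (fun x => ((finrank ℝ E₁ : ℝ) - 1) * α (x, q.2) +
      (finrank ℝ E₂ : ℝ) * β₁ (x, q.2)) =
      fun x => (1 : ℝ) * u (x, q.2) + (finrank ℝ E₂ : ℝ) * γ x := by
    funext x
    simp only [hu, hβ₁]
    ring
  have T4 : lapC h (fun x => ((finrank ℝ E₁ : ℝ) - 1) * α (x, q.2) +
      (finrank ℝ E₂ : ℝ) * β₁ (x, q.2)) q.1 =
      lapC h (fun x => u (x, q.2)) q.1 + (1 / 2) * trD h f q := by
    rw [u_eq, lapC_lin cu hγ, lapγ, hc]
    field_simp
  have pdu : ∀ i, Curv.pd i (fun x => ((finrank ℝ E₁ : ℝ) - 1) * α (x, q.2) +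
      (finrank ℝ E₂ : ℝ) * β₁ (x, q.2)) q.1 = Curv.pd i (fun x => u (x, q.2)) q.1 := by
    intro i
    rw [u_eq]
    unfold Curv.pd
    rw [lin_fderiv cu hγ, dγ]
    ring
  have pdb : ∀ i, Curv.pd i (fun x => β₁ (x, q.2) - α (x, q.2)) q.1 =
      Curv.pd i (fun x => β (x, q.2) - α (x, q.2)) q.1 := by
    intro i
    have e1 : (fun x => β₁ (x, q.2) - α (x, q.2)) =
        fun x => (1 : ℝ) * (β (x, q.2) - α (x, q.2)) + (1 : ℝ) * γ x := by
      funext x
      simp only [hβ₁]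
      ring
    rw [e1]
    unfold Curv.pd
    rw [lin_fderiv (cβ.sub cα) hγ, dγ]
    simp
  have T5 : gradC h (fun x => β₁ (x, q.2) - α (x, q.2))
      (fun x => ((finrank ℝ E₁ : ℝ) - 1) * α (x, q.2) +
        (finrank ℝ E₂ : ℝ) * β₁ (x, q.2)) q.1 =
      gradC h (fun x => β (x, q.2) - α (x, q.2)) (fun x => u (x, q.2)) q.1 := by
    unfold gradC
    simp only [pdu, pdb]
  have T7 : (fun y => f₁ (q.1, y)) = fun y => f (q.1, y) := by
    funext y
    simp only [hf₁, γ0, neg_zero, Real.exp_zero, one_pow, one_smul]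
  have T8 : (fun y => β₁ (q.1, y)) = fun y => β (q.1, y) := by
    funext y
    simp only [hβ₁, γ0, add_zero]
  have T9 : (fun y => ((finrank ℝ E₂ : ℝ) - 1) * β₁ (q.1, y) +
      (finrank ℝ E₁ : ℝ) * α (q.1, y)) = fun y => v (q.1, y) := by
    funext y
    simp only [hβ₁, γ0, add_zero, hv]
  have T10 : (fun y => α (q.1, y) - β₁ (q.1, y)) = fun y => α (q.1, y) - β (q.1, y) := by
    funext y
    simp only [hβ₁, γ0, add_zero]
  have key' : Real.exp (α q + β₁ q) * Curv.scal (blockMetric (fun p : E₁ × E₂ => h p.1) f₁ α β₁) q +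
      2 * Real.exp (β₁ q - α q) *
        (lapC h (fun x => ((finrank ℝ E₁ : ℝ) - 1) * α (x, q.2) +
          (finrank ℝ E₂ : ℝ) * β₁ (x, q.2)) q.1 +
          gradC h (fun x => β₁ (x, q.2) - α (x, q.2))
            (fun x => ((finrank ℝ E₁ : ℝ) - 1) * α (x, q.2) +
              (finrank ℝ E₂ : ℝ) * β₁ (x, q.2)) q.1) +
      2 * Real.exp (α q - β₁ q) *
        (lapC (fun y => f₁ (q.1, y)) (fun y => ((finrank ℝ E₂ : ℝ) - 1) * β₁ (q.1, y) +
          (finrank ℝ E₁ : ℝ) * α (q.1, y)) q.2 +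
          gradC (fun y => f₁ (q.1, y)) (fun y => α (q.1, y) - β₁ (q.1, y))
            (fun y => ((finrank ℝ E₂ : ℝ) - 1) * β₁ (q.1, y) +
              (finrank ℝ E₁ : ℝ) * α (q.1, y)) q.2) ≤
    Real.exp (β₁ q - α q) * (Curv.scal h q.1 -
        ((finrank ℝ E₁ : ℝ) - 1) * gradC h (fun x => α (x, q.2))
          (fun x => α (x, q.2)) q.1) +
      Real.exp (α q - β₁ q) * (Curv.scal (fun y => f₁ (q.1, y)) q.2 -
        ((finrank ℝ E₂ : ℝ) - 1) * gradC (fun y => f₁ (q.1, y)) (fun y => β₁ (q.1, y))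
          (fun y => β₁ (q.1, y)) q.2) := key
  rw [T1, T4, T5, T7, T8, T9, T10, T3] at key'
  have hexp : Real.exp (α q + β q) * Real.exp (-(2 * α q)) = Real.exp (β q - α q) := by
    rw [← Real.exp_add]
    congr 1
    ring
  have hsplit : Real.exp (α q + β q) * (Curv.scal (connMetric h f 0 α β) q +
        Real.exp (-(2 * α q)) * trD h f q) =
      Real.exp (α q + β q) * Curv.scal (connMetric h f 0 α β) q +
        Real.exp (β q - α q) * trD h f q := by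
    rw [← hexp]
    ring
  rw [hsplit]
  linarith [key']

end Pool.Agent.Lib.MP_df705a_gt.Fib
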