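import Pool.Agent.Lib.MP_df705a_gt.Mg.G058
import Pool.Agent.Lib.MP_df705a_gt.Perm.Defs

/-!
# The horizontal Laplacian and the horizontal gradient product on the manifold
-/

open scoped Manifold ContDiff Topology
open Set Bundle Module Filter

noncomputable section

namespace Pool.Agent.Lib.MP_df705a_gt.Fib

open Pool.Agent.Lib.MP_df705a_gt.Twist Pool.Agent.Lib.MP_df705a_gt.Perm
open Pool.Agent.Lib.MP_df705a_gt.Circ (Horizontal Submersion HorAt cf Para)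

variable {E₁ : Type*} [NormedAddCommGroup E₁] [NormedSpace ℝ E₁] [FiniteDimensional ℝ E₁]
  {B : Type*} [TopologicalSpace B] [ChartedSpace E₁ B] [IsManifold 𝓘(ℝ, E₁) ∞ B]
  {E : Type*} [NormedAddCommGroup E] [NormedSpace ℝ E] [FiniteDimensional ℝ E]
  {M : Type*} [TopologicalSpace M] [ChartedSpace E M] [IsManifold 𝓘(ℝ, E) ∞ M]
  {κ : Type} [Fintype κ]

/-- `∑ c_kl ⟨dφ, dF_k⟩ ⟨dχ, dF_l⟩`, `F_k = f_k ∘ pr`. -/
def grdH (g : ContMDiffRiemannianMetric 𝓘(ℝ, E) ∞ E (fun x : M => TangentSpace 𝓘(ℝ, E) x))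
    (pr : M → B) (f : κ → B → ℝ) (c : κ → κ → B → ℝ) (φ χ : M → ℝ) (p : M) : ℝ :=
  ∑ k, ∑ l, c k l (pr p) * (Grd g φ (fun x => f k (pr x)) p * Grd g χ (fun x => f l (pr x)) p)

/-- `∑ div (c_kl ⟨dφ, dF_k⟩ grad F_l)`. -/
def lapH (g : ContMDiffRiemannianMetric 𝓘(ℝ, E) ∞ E (fun x : M => TangentSpace 𝓘(ℝ, E) x))
    (pr : M → B) (f : κ → B → ℝ) (c : κ → κ → B → ℝ) (φ : M → ℝ) (p : M) : ℝ :=
  ∑ k, ∑ l, (Grd g (fun x => c k l (pr x) * Grd g φ (fun x => f k (pr x)) x)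
      (fun x => f l (pr x)) p +
    c k l (pr p) * Grd g φ (fun x => f k (pr x)) p * Lap g (fun x => f l (pr x)) p)

end Pool.Agent.Lib.MP_df705a_gt.Fib
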