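import Pool.Agent.Lib.MP_df705a_gt.Mg.G013
import Pool.Agent.Lib.MP_df705a_gt.Fib.Defs
import Pool.Agent.Lib.MP_df705a_gt.Fib.GlobDefs
import Pool.Agent.Lib.MP_df705a_gt.Mg.G007

/-!
# TASK G10: properties of the horizontal gradient product
-/

open scoped Manifold ContDiff Topology
open Set Bundle Module Filter

noncomputable section

set_option linter.unusedSectionVars false
set_option linter.unusedVariables false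

namespace Pool.Agent.Lib.MP_df705a_gt.Fib

open Pool.Agent.Lib.MP_df705a_gt.Twist Pool.Agent.Lib.MP_df705a_gt.Perm
open Pool.Agent.Lib.MP_df705a_gt.Circ (Horizontal Submersion HorAt cf Para)

variable {E₁ : Type*} [NormedAddCommGroup E₁] [NormedSpace ℝ E₁] [FiniteDimensional ℝ E₁]
  {B : Type*} [TopologicalSpace B] [ChartedSpace E₁ B] [IsManifold 𝓘(ℝ, E₁) ∞ B]
  {E : Type*} [NormedAddCommGroup E] [NormedSpace ℝ E] [FiniteDimensional ℝ E]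
  {M : Type*} [TopologicalSpace M] [ChartedSpace E M] [IsManifold 𝓘(ℝ, E) ∞ M]
  {κ : Type} [Fintype κ]

namespace G10

/-- The differential of a real function, as a linear form. -/
def dd (φ : M → ℝ) (p : M) : TangentSpace 𝓘(ℝ, E) p →L[ℝ] ℝ := mfderiv 𝓘(ℝ, E) 𝓘(ℝ, ℝ) φ p

theorem exists_grad (g : ContMDiffRiemannianMetric 𝓘(ℝ, E) ∞ E
      (fun x : M => TangentSpace 𝓘(ℝ, E) x)) (φ : M → ℝ) (p : M) :
    ∃ X : TangentSpace 𝓘(ℝ, E) p, ∀ W : TangentSpace 𝓘(ℝ, E) p,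
      g.inner p X W = mfderiv 𝓘(ℝ, E) 𝓘(ℝ, ℝ) φ p W :=
  Circ.GrdSub.exists_riesz g p (dd φ p)

/-- The gradient product is symmetric. -/
theorem grd_eq' (g : ContMDiffRiemannianMetric 𝓘(ℝ, E) ∞ E
      (fun x : M => TangentSpace 𝓘(ℝ, E) x)) {u v : M → ℝ} (hu : Sm E u) (hv : Sm E v) {p : M}
    {X : TangentSpace 𝓘(ℝ, E) p}
    (hX : ∀ W : TangentSpace 𝓘(ℝ, E) p, g.inner p X W = mfderiv 𝓘(ℝ, E) 𝓘(ℝ, ℝ) u p W) :
    Grd g u v p = mfderiv 𝓘(ℝ, E) 𝓘(ℝ, ℝ) v p X := by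
  obtain ⟨Y, hY⟩ := exists_grad g v p
  rw [Circ.GrdSub.grd_eq g hu hv hY, ← hX Y, g.symm p X Y, hY X]

theorem comp_mfderiv {pr : M → B} (hpr : ContMDiff 𝓘(ℝ, E) 𝓘(ℝ, E₁) ∞ pr) {f : B → ℝ}
    (hf : Sm E₁ f) (p : M) (W : TangentSpace 𝓘(ℝ, E) p) :
    mfderiv 𝓘(ℝ, E) 𝓘(ℝ, ℝ) (fun p => f (pr p)) p W =
      mfderiv 𝓘(ℝ, E₁) 𝓘(ℝ, ℝ) f (pr p) (mfderiv 𝓘(ℝ, E) 𝓘(ℝ, E₁) pr p W) := by
  have hprd : MDifferentiableAt 𝓘(ℝ, E) 𝓘(ℝ, E₁) pr p :=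
    hpr.contMDiffAt.mdifferentiableAt (by simp)
  have h1 : MDifferentiableAt 𝓘(ℝ, E₁) 𝓘(ℝ, ℝ) f (pr p) :=
    (ContMDiff.contMDiffAt hf).mdifferentiableAt (by simp)
  have h2 := mfderiv_comp (I := 𝓘(ℝ, E)) (I' := 𝓘(ℝ, E₁)) (I'' := 𝓘(ℝ, ℝ)) p h1 hprd
  have h3 : (fun p => f (pr p)) = f ∘ pr := rfl
  rw [h3, h2]
  rfl

/-- The image of the gradient of `φ` in the tangent space of the base. -/
theorem vec (g : ContMDiffRiemannianMetric 𝓘(ℝ, E) ∞ E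
      (fun x : M => TangentSpace 𝓘(ℝ, E) x))
    {pr : M → B} (hpr : ContMDiff 𝓘(ℝ, E) 𝓘(ℝ, E₁) ∞ pr) {f : κ → B → ℝ}
    (hf : ∀ k, Sm E₁ (f k)) (p : M) {φ : M → ℝ} (hφ : Sm E φ) {X : TangentSpace 𝓘(ℝ, E) p}
    (hX : ∀ W : TangentSpace 𝓘(ℝ, E) p, g.inner p X W = mfderiv 𝓘(ℝ, E) 𝓘(ℝ, ℝ) φ p W)
    (k : κ) : Grd g φ (fun x => f k (pr x)) p =
      dfun (E := E₁) f k (pr p) (mfderiv 𝓘(ℝ, E) 𝓘(ℝ, E₁) pr p X) := by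
  rw [grd_eq' g hφ (Circ.sm_comp_pr hpr (hf k)) hX, comp_mfderiv hpr (hf k)]
  rfl

theorem grdH_eq (g : ContMDiffRiemannianMetric 𝓘(ℝ, E) ∞ E
      (fun x : M => TangentSpace 𝓘(ℝ, E) x))
    (gB : ContMDiffRiemannianMetric 𝓘(ℝ, E₁) ∞ E₁ (fun x : B => TangentSpace 𝓘(ℝ, E₁) x))
    {pr : M → B} (hpr : ContMDiff 𝓘(ℝ, E) 𝓘(ℝ, E₁) ∞ pr) {f : κ → B → ℝ} {c : κ → κ → B → ℝ}
    (hf : ∀ k, Sm E₁ (f k))
    (hdata : ∀ (x : B) (v w : E₁), ∑ k, ∑ l, c k l x * (dfun f k x v * dfun f l x w) =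
        gB.inner x v w) (p : M) {φ χ : M → ℝ} (hφ : Sm E φ) (hχ : Sm E χ)
    {X Y : TangentSpace 𝓘(ℝ, E) p}
    (hX : ∀ W : TangentSpace 𝓘(ℝ, E) p, g.inner p X W = mfderiv 𝓘(ℝ, E) 𝓘(ℝ, ℝ) φ p W)
    (hY : ∀ W : TangentSpace 𝓘(ℝ, E) p, g.inner p Y W = mfderiv 𝓘(ℝ, E) 𝓘(ℝ, ℝ) χ p W) :
    grdH g pr f c φ χ p = gB.inner (pr p) (mfderiv 𝓘(ℝ, E) 𝓘(ℝ, E₁) pr p X)
      (mfderiv 𝓘(ℝ, E) 𝓘(ℝ, E₁) pr p Y) := by
  unfold grdH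
  have h1 : ∀ k, Grd g φ (fun x => f k (pr x)) p =
      dfun (E := E₁) f k (pr p) (mfderiv 𝓘(ℝ, E) 𝓘(ℝ, E₁) pr p X) := vec g hpr hf p hφ hX
  have h2 : ∀ k, Grd g χ (fun x => f k (pr x)) p =
      dfun (E := E₁) f k (pr p) (mfderiv 𝓘(ℝ, E) 𝓘(ℝ, E₁) pr p Y) := vec g hpr hf p hχ hY
  simp only [h1, h2]
  exact hdata (pr p) _ _

theorem inner_nonneg (g : ContMDiffRiemannianMetric 𝓘(ℝ, E) ∞ E
      (fun x : M => TangentSpace 𝓘(ℝ, E) x)) (p : M) (X : TangentSpace 𝓘(ℝ, E) p) :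
    0 ≤ g.inner p X X := by
  by_cases h : X = 0
  · rw [h]
    simp
  · exact (g.pos p X h).le

end G10

open G10

/-- `grdH φ χ p = gB(N_φ, N_χ)` where `N_φ` is the image under `d pr` of the gradient of `φ`:
by `Circ.GrdSub` (`grd_eq`, `exists_riesz`, `mform_gradM`) `Grd g φ F_k` is `df_k` of that vector. -/
theorem exists_vec (g : ContMDiffRiemannianMetric 𝓘(ℝ, E) ∞ E
      (fun x : M => TangentSpace 𝓘(ℝ, E) x))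
    (gB : ContMDiffRiemannianMetric 𝓘(ℝ, E₁) ∞ E₁ (fun x : B => TangentSpace 𝓘(ℝ, E₁) x))
    {pr : M → B} (hpr : ContMDiff 𝓘(ℝ, E) 𝓘(ℝ, E₁) ∞ pr) {f : κ → B → ℝ} {c : κ → κ → B → ℝ}
    (hf : ∀ k, Sm E₁ (f k))
    (hdata : ∀ (x : B) (v w : E₁), ∑ k, ∑ l, c k l x * (dfun f k x v * dfun f l x w) =
        gB.inner x v w) (p : M) {φ : M → ℝ} (hφ : Sm E φ) :
    ∃ N : E₁, ∀ k, Grd g φ (fun x => f k (pr x)) p = dfun f k (pr p) N := by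
  obtain ⟨X, hX⟩ := exists_grad g φ p
  exact ⟨mfderiv 𝓘(ℝ, E) 𝓘(ℝ, E₁) pr p X, vec g hpr hf p hφ hX⟩

/-- `|∇^H (u ∘ pr)|² ≤ 2 |∇^H α|² + 2 |∇^H (α - u ∘ pr)|²`, from `exists_vec`, `hdata` and the
positivity of `gB`. -/
theorem grdH_le (g : ContMDiffRiemannianMetric 𝓘(ℝ, E) ∞ E
      (fun x : M => TangentSpace 𝓘(ℝ, E) x))
    (gB : ContMDiffRiemannianMetric 𝓘(ℝ, E₁) ∞ E₁ (fun x : B => TangentSpace 𝓘(ℝ, E₁) x))
    {pr : M → B} (hpr : ContMDiff 𝓘(ℝ, E) 𝓘(ℝ, E₁) ∞ pr) {f : κ → B → ℝ} {c : κ → κ → B → ℝ}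
    (hf : ∀ k, Sm E₁ (f k))
    (hdata : ∀ (x : B) (v w : E₁), ∑ k, ∑ l, c k l x * (dfun f k x v * dfun f l x w) =
        gB.inner x v w) (p : M) {φ χ : M → ℝ} (hφ : Sm E φ) (hχ : Sm E χ) :
    grdH g pr f c φ φ p ≤ 2 * grdH g pr f c χ χ p +
      2 * grdH g pr f c (fun x => χ x - φ x) (fun x => χ x - φ x) p := by
  obtain ⟨X, hX⟩ := exists_grad g φ p
  obtain ⟨Y, hY⟩ := exists_grad g χ p
  have hsub : Sm E (fun x => χ x - φ x) := ContMDiff.sub hχ hφ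
  have hZ : ∀ W : TangentSpace 𝓘(ℝ, E) p, g.inner p (Y - X) W =
      mfderiv 𝓘(ℝ, E) 𝓘(ℝ, ℝ) (fun x => χ x - φ x) p W := by
    intro W
    have h1 : g.inner p (Y - X) = g.inner p Y - g.inner p X := map_sub _ _ _
    have h2 : MDifferentiableAt 𝓘(ℝ, E) 𝓘(ℝ, ℝ) χ p :=
      (ContMDiff.contMDiffAt hχ).mdifferentiableAt (by simp)
    have h3 : MDifferentiableAt 𝓘(ℝ, E) 𝓘(ℝ, ℝ) φ p :=
      (ContMDiff.contMDiffAt hφ).mdifferentiableAt (by simp)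
    have h4 : mfderiv 𝓘(ℝ, E) 𝓘(ℝ, ℝ) (fun x => χ x - φ x) p W =
        dd χ p W - dd φ p W := by
      have h5 := (h2.hasMFDerivAt.sub h3.hasMFDerivAt).mfderiv
      have h6 : (fun x => χ x - φ x) = χ - φ := rfl
      rw [h6, h5]
      rfl
    rw [h1, h4]
    show g.inner p Y W - g.inner p X W = _
    rw [hX, hY]
    rfl
  rw [grdH_eq g gB hpr hf hdata p hφ hφ hX hX, grdH_eq g gB hpr hf hdata p hχ hχ hY hY,
    grdH_eq g gB hpr hf hdata p hsub hsub hZ hZ]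
  let D : E →L[ℝ] E₁ := mfderiv 𝓘(ℝ, E) 𝓘(ℝ, E₁) pr p
  let G : E₁ →L[ℝ] E₁ →L[ℝ] ℝ := gB.inner (pr p)
  let X' : E := X
  let Y' : E := Y
  change G (D X') (D X') ≤ 2 * G (D Y') (D Y') + 2 * G (D (Y' - X')) (D (Y' - X'))
  have h7 : 0 ≤ G ((2 : ℝ) • D Y' - D X') ((2 : ℝ) • D Y' - D X') :=
    inner_nonneg gB (pr p) ((2 : ℝ) • D Y' - D X' : E₁)
  have h8 : G (D X') (D Y') = G (D Y') (D X') := gB.symm (pr p) (D X') (D Y')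
  rw [map_sub D, map_sub G, map_sub (G (D Y') - G (D X'))]
  rw [map_sub G, map_sub (G ((2 : ℝ) • D Y') - G (D X')), map_smul, map_smul G] at h7
  simp only [_root_.sub_apply, _root_.smul_apply, smul_eq_mul] at h7 ⊢
  rw [h8] at h7 ⊢
  linarith

theorem grdH_nonneg (g : ContMDiffRiemannianMetric 𝓘(ℝ, E) ∞ E
      (fun x : M => TangentSpace 𝓘(ℝ, E) x))
    (gB : ContMDiffRiemannianMetric 𝓘(ℝ, E₁) ∞ E₁ (fun x : B => TangentSpace 𝓘(ℝ, E₁) x))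
    {pr : M → B} (hpr : ContMDiff 𝓘(ℝ, E) 𝓘(ℝ, E₁) ∞ pr) {f : κ → B → ℝ} {c : κ → κ → B → ℝ}
    (hf : ∀ k, Sm E₁ (f k))
    (hdata : ∀ (x : B) (v w : E₁), ∑ k, ∑ l, c k l x * (dfun f k x v * dfun f l x w) =
        gB.inner x v w) (p : M) {φ : M → ℝ} (hφ : Sm E φ) : 0 ≤ grdH g pr f c φ φ p := by
  obtain ⟨X, hX⟩ := exists_grad g φ p
  rw [grdH_eq g gB hpr hf hdata p hφ hφ hX hX]
  exact inner_nonneg gB (pr p) _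

/-- For functions pulled back from the base (Riemannian submersion): `Circ.grd_sub` with `r = 1`
gives `Grd g (u ∘ pr) F_k = Grd gB u f_k`, and `∑ c_kl ⟨du, df_k⟩ ⟨du, df_l⟩ = ⟨du, du⟩` on `B`. -/
theorem grdH_pull (g : ContMDiffRiemannianMetric 𝓘(ℝ, E) ∞ E
      (fun x : M => TangentSpace 𝓘(ℝ, E) x))
    (gB : ContMDiffRiemannianMetric 𝓘(ℝ, E₁) ∞ E₁ (fun x : B => TangentSpace 𝓘(ℝ, E₁) x))
    {pr : M → B} (hpr : RiemSub g gB pr) {f : κ → B → ℝ} {c : κ → κ → B → ℝ}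
    (hf : ∀ k, Sm E₁ (f k))
    (hdata : ∀ (x : B) (v w : E₁), ∑ k, ∑ l, c k l x * (dfun f k x v * dfun f l x w) =
        gB.inner x v w) (p : M) {u : B → ℝ} (hu : Sm E₁ u) :
    grdH g pr f c (fun x => u (pr x)) (fun x => u (pr x)) p = Grd gB u u (pr p) := by
  obtain ⟨Y, hY⟩ := exists_grad gB u (pr p)
  have hH : HorAt g gB pr p 1 := by
    intro a b ha hb
    rw [one_mul]
    exact hpr.2 p a b ha hb
  unfold grdH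
  have h1 : ∀ k, Grd g (fun x => u (pr x)) (fun x => f k (pr x)) p =
      dfun (E := E₁) f k (pr p) Y := by
    intro k
    rw [Circ.grd_sub g gB hpr.1 hH hu (hf k), one_mul, grd_eq' gB hu (hf k) hY]
    rfl
  simp only [h1]
  rw [grd_eq' gB hu hu hY, ← hY Y]
  exact hdata (pr p) Y Y

end Pool.Agent.Lib.MP_df705a_gt.Fib
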