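import Pool.Agent.Lib.MP_df705a_gt.Mg.G016
import Pool.Agent.Lib.MP_df705a_gt.Fib.GrdHPull

/-!
# TASK C3: the horizontal gradient product of the changed metric
-/

open scoped Manifold ContDiff Topology
open Set Bundle Module Filter

noncomputable section

set_option linter.unusedSectionVars false

namespace Pool.Agent.Lib.MP_df705a_gt.Fib

open Pool.Agent.Lib.MP_df705a_gt.Twist Pool.Agent.Lib.MP_df705a_gt.Perm
open Pool.Agent.Lib.MP_df705a_gt.Circ (Horizontal Submersion HorAt cf Para)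

variable {E₁ : Type*} [NormedAddCommGroup E₁] [NormedSpace ℝ E₁] [FiniteDimensional ℝ E₁]
  {B : Type*} [TopologicalSpace B] [ChartedSpace E₁ B] [IsManifold 𝓘(ℝ, E₁) ∞ B]
  {E : Type*} [NormedAddCommGroup E] [NormedSpace ℝ E] [FiniteDimensional ℝ E]
  {M : Type*} [TopologicalSpace M] [ChartedSpace E M] [IsManifold 𝓘(ℝ, E) ∞ M]
  {g₀ g₀' : ContMDiffRiemannianMetric 𝓘(ℝ, E) ∞ E (fun x : M => TangentSpace 𝓘(ℝ, E) x)}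
  {gB gB' : ContMDiffRiemannianMetric 𝓘(ℝ, E₁) ∞ E₁ (fun x : B => TangentSpace 𝓘(ℝ, E₁) x)}
  {pr : M → B} {ψ : B → ℝ}
  {κ : Type} [Fintype κ] {κ' : Type} [Fintype κ']

namespace C3

theorem exists_hor (g : ContMDiffRiemannianMetric 𝓘(ℝ, E) ∞ E
      (fun x : M => TangentSpace 𝓘(ℝ, E) x)) {pr : M → B} (hpr : Submersion E E₁ pr) (p : M)
    (Z : TangentSpace 𝓘(ℝ, E₁) (pr p)) : ∃ W : TangentSpace 𝓘(ℝ, E) p,
      Horizontal (E₁ := E₁) g pr p W ∧ mfderiv 𝓘(ℝ, E) 𝓘(ℝ, E₁) pr p W = Z := by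
  obtain ⟨V, hV⟩ := hpr.2 p Z
  obtain ⟨a, b, hab, ha, hb⟩ := exists_decomp (E₁ := E₁) g pr p V
  refine ⟨a, ha, ?_⟩
  have h1 : mfderiv 𝓘(ℝ, E) 𝓘(ℝ, E₁) pr p (a + b) =
      mfderiv 𝓘(ℝ, E) 𝓘(ℝ, E₁) pr p a + mfderiv 𝓘(ℝ, E) 𝓘(ℝ, E₁) pr p b := map_add _ _ _
  rw [← hab, hb, add_zero] at h1
  rw [← h1, hV]

theorem inner_hor {g : ContMDiffRiemannianMetric 𝓘(ℝ, E) ∞ E
      (fun x : M => TangentSpace 𝓘(ℝ, E) x)}
    {gB : ContMDiffRiemannianMetric 𝓘(ℝ, E₁) ∞ E₁ (fun x : B => TangentSpace 𝓘(ℝ, E₁) x)}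
    {pr : M → B} (hpr : RiemSub g gB pr) {p : M} (X : TangentSpace 𝓘(ℝ, E) p)
    {W : TangentSpace 𝓘(ℝ, E) p} (hW : Horizontal (E₁ := E₁) g pr p W) :
    gB.inner (pr p) (mfderiv 𝓘(ℝ, E) 𝓘(ℝ, E₁) pr p X) (mfderiv 𝓘(ℝ, E) 𝓘(ℝ, E₁) pr p W) =
      g.inner p X W := by
  obtain ⟨a, b, hab, ha, hb⟩ := exists_decomp (E₁ := E₁) g pr p X
  have h1 : mfderiv 𝓘(ℝ, E) 𝓘(ℝ, E₁) pr p (a + b) =
      mfderiv 𝓘(ℝ, E) 𝓘(ℝ, E₁) pr p a + mfderiv 𝓘(ℝ, E) 𝓘(ℝ, E₁) pr p b := map_add _ _ _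
  rw [← hab, hb, add_zero] at h1
  rw [h1, hpr.2 p a W ha hW, hab]
  have h2 : g.inner p (a + b) = g.inner p a + g.inner p b := map_add _ _ _
  have h3 : g.inner p b W = 0 := by
    rw [g.symm]
    exact hW b hb
  rw [h2]
  show _ = g.inner p a W + g.inner p b W
  rw [h3, add_zero]

end C3

/-- Both sides are scalar products of the images of the gradients (`exists_vec`): if `N` is the
image of the `g₀`-gradient of `φ` under `d pr`, then `e^{-2ψ} N` is the image of the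
`g₀'`-gradient, and `gB' = e^{2ψ} gB`. -/
theorem IsChange.grdH (h : IsChange ψ gB pr g₀ g₀') (hpr : RiemSub g₀ gB pr)
    (hconf : IsConf ψ gB gB') {f : κ → B → ℝ} {c : κ → κ → B → ℝ} (hf : ∀ k, Sm E₁ (f k))
    (hdata : ∀ (x : B) (v w : E₁), ∑ k, ∑ l, c k l x * (dfun f k x v * dfun f l x w) =
        gB.inner x v w)
    {f' : κ' → B → ℝ} {c' : κ' → κ' → B → ℝ} (hf' : ∀ k, Sm E₁ (f' k))
    (hdata' : ∀ (x : B) (v w : E₁), ∑ k, ∑ l, c' k l x * (dfun f' k x v * dfun f' l x w) =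
        gB'.inner x v w) {φ : M → ℝ} (hφ : Sm E φ) (p : M) :
    Fib.grdH g₀' pr f' c' φ φ p =
      Real.exp (-(2 * ψ (pr p))) * Fib.grdH g₀ pr f c φ φ p := by
  obtain ⟨X, hX⟩ := G10.exists_grad g₀ φ p
  obtain ⟨X', hX'⟩ := G10.exists_grad g₀' φ p
  rw [G10.grdH_eq g₀' gB' hpr.1.1 hf' hdata' p hφ hφ hX' hX',
    G10.grdH_eq g₀ gB hpr.1.1 hf hdata p hφ hφ hX hX, hconf]
  have hE : 0 < Real.exp (ψ (pr p)) ^ 2 := by positivity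
  have key : ∀ Z : TangentSpace 𝓘(ℝ, E₁) (pr p),
      Real.exp (ψ (pr p)) ^ 2 * gB.inner (pr p) (mfderiv 𝓘(ℝ, E) 𝓘(ℝ, E₁) pr p X') Z =
        gB.inner (pr p) (mfderiv 𝓘(ℝ, E) 𝓘(ℝ, E₁) pr p X) Z := by
    intro Z
    obtain ⟨W, hW, rfl⟩ := C3.exists_hor g₀ hpr.1 p Z
    have h1 := h p X' W
    rw [hX', ← hX, ← C3.inner_hor hpr X hW, ← C3.inner_hor hpr X' hW] at h1
    rw [h1]
    ring
  have h1 := key (mfderiv 𝓘(ℝ, E) 𝓘(ℝ, E₁) pr p X')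
  have h2 := key (mfderiv 𝓘(ℝ, E) 𝓘(ℝ, E₁) pr p X)
  have h3 := gB.symm (pr p) (mfderiv 𝓘(ℝ, E) 𝓘(ℝ, E₁) pr p X)
    (mfderiv 𝓘(ℝ, E) 𝓘(ℝ, E₁) pr p X')
  rw [h1, h3]
  have h4 : Real.exp (-(2 * ψ (pr p))) = (Real.exp (ψ (pr p)) ^ 2)⁻¹ := by
    rw [← Real.exp_nat_mul, ← Real.exp_neg]
    norm_num
  rw [h4, ← h2, ← mul_assoc, inv_mul_cancel₀ hE.ne', one_mul]

end Pool.Agent.Lib.MP_df705a_gt.Fib
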