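import Pool.Agent.Lib.MP_df705a_gt.Mg.G016
import Pool.Agent.Lib.MP_df705a_gt.Fib.Defs
import Pool.Agent.Lib.MP_df705a_gt.Fib.FibredDefs
import Pool.Agent.Lib.MP_df705a_gt.Fib.SubChart

/-!
# TASK C2: properties of the changed metric
-/

open scoped Manifold ContDiff Topology
open Set Bundle Module Filter

noncomputable section

namespace Pool.Agent.Lib.MP_df705a_gt.Fib

open Pool.Agent.Lib.MP_df705a_gt.Twist Pool.Agent.Lib.MP_df705a_gt.Perm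
open Pool.Agent.Lib.MP_df705a_gt.Circ (Horizontal Submersion HorAt cf Para)

variable {E₁ : Type*} [NormedAddCommGroup E₁] [NormedSpace ℝ E₁] [FiniteDimensional ℝ E₁]
  {E₂ : Type*} [NormedAddCommGroup E₂] [NormedSpace ℝ E₂] [FiniteDimensional ℝ E₂]
  {B : Type*} [TopologicalSpace B] [ChartedSpace E₁ B] [IsManifold 𝓘(ℝ, E₁) ∞ B]
  {E : Type*} [NormedAddCommGroup E] [NormedSpace ℝ E] [FiniteDimensional ℝ E]
  {M : Type*} [TopologicalSpace M] [ChartedSpace E M] [IsManifold 𝓘(ℝ, E) ∞ M]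
  {g₀ g₀' g : ContMDiffRiemannianMetric 𝓘(ℝ, E) ∞ E (fun x : M => TangentSpace 𝓘(ℝ, E) x)}
  {gB gB' : ContMDiffRiemannianMetric 𝓘(ℝ, E₁) ∞ E₁ (fun x : B => TangentSpace 𝓘(ℝ, E₁) x)}
  {pr : M → B} {ψ : B → ℝ}

theorem C2.inner_vert (h : IsChange ψ gB pr g₀ g₀') {p : M} (u : TangentSpace 𝓘(ℝ, E) p)
    {w : TangentSpace 𝓘(ℝ, E) p} (hw : mfderiv 𝓘(ℝ, E) 𝓘(ℝ, E₁) pr p w = 0) :
    g₀'.inner p u w = g₀.inner p u w := by
  rw [h p u w, hw, map_zero, mul_zero, add_zero]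

theorem IsChange.horizontal_iff (h : IsChange ψ gB pr g₀ g₀') {p : M}
    {u : TangentSpace 𝓘(ℝ, E) p} :
    Horizontal (E₁ := E₁) g₀' pr p u ↔ Horizontal (E₁ := E₁) g₀ pr p u := by
  constructor
  · intro hu w hw
    rw [← C2.inner_vert h u hw]
    exact hu w hw
  · intro hu w hw
    rw [C2.inner_vert h u hw]
    exact hu w hw

theorem C2.inner_hor (h : IsChange ψ gB pr g₀ g₀') (hpr : RiemSub g₀ gB pr) {p : M}
    {u v : TangentSpace 𝓘(ℝ, E) p} (hu : Horizontal (E₁ := E₁) g₀ pr p u)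
    (hv : Horizontal (E₁ := E₁) g₀ pr p v) :
    g₀'.inner p u v = Real.exp (ψ (pr p)) ^ 2 * g₀.inner p u v := by
  rw [h p u v, hpr.2 p u v hu hv]
  ring

theorem IsChange.riemSub (h : IsChange ψ gB pr g₀ g₀') (hpr : RiemSub g₀ gB pr)
    (hconf : IsConf ψ gB gB') : RiemSub g₀' gB' pr := by
  refine ⟨hpr.1, fun p u v hu hv => ?_⟩
  rw [h.horizontal_iff] at hu hv
  rw [hconf, hpr.2 p u v hu hv, C2.inner_hor h hpr hu hv]

theorem IsChange.biconformal (h : IsChange ψ gB pr g₀ g₀') (hpr : RiemSub g₀ gB pr)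
    {a b : M → ℝ} (hbi : Biconformal E₁ g₀ g pr a b) :
    Biconformal E₁ g₀' g pr (fun p => a p * Real.exp (-ψ (pr p))) b := by
  intro p u v w z hu hv hw hz
  rw [h.horizontal_iff] at hu hv
  rw [hbi p u v w z hu hv hw hz, C2.inner_hor h hpr hu hv, C2.inner_vert h w hz]
  have he : Real.exp (-ψ (pr p)) * Real.exp (ψ (pr p)) = 1 := by
    rw [← Real.exp_add, neg_add_cancel, Real.exp_zero]
  have he2 : Real.exp (-ψ (pr p)) ^ 2 * Real.exp (ψ (pr p)) ^ 2 = 1 := by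
    rw [← mul_pow, he, one_pow]
  linear_combination (-(a p ^ 2) * g₀.inner p u v) * he2

/-- In an adapted parametrization the vectors `(0, w)` are vertical. -/
theorem C2.vert {σ : E₁ × E₂ → M} {q : E₁ × E₂} {z : B} (hA : AC E pr σ q z) :
    ∀ᶠ y in 𝓝 q, ∀ w : E₂, mfderiv 𝓘(ℝ, E) 𝓘(ℝ, E₁) pr (σ y)
      (mfderiv 𝓘(ℝ, E₁ × E₂) 𝓘(ℝ, E) σ y (0, w)) = 0 := by
  filter_upwards [hA.para, hA.src, hA.fst.eventually_nhds] with y hy hs hf w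
  by_cases hd : MDifferentiableAt 𝓘(ℝ, E) 𝓘(ℝ, E₁) pr (σ y)
  · have hσ : MDifferentiableAt 𝓘(ℝ, E₁ × E₂) 𝓘(ℝ, E) σ y :=
      hy.smooth.mdifferentiableAt (by simp)
    have he : MDifferentiableAt 𝓘(ℝ, E₁) 𝓘(ℝ, E₁) (extChartAt 𝓘(ℝ, E₁) z) (pr (σ y)) :=
      mdifferentiableAt_extChartAt (by rwa [extChartAt_source] at hs)
    have h1 : mfderiv 𝓘(ℝ, E₁ × E₂) 𝓘(ℝ, E₁)
        (fun y => extChartAt 𝓘(ℝ, E₁) z (pr (σ y))) y =
        mfderiv 𝓘(ℝ, E₁ × E₂) 𝓘(ℝ, E₁) (fun y : E₁ × E₂ => y.1) y :=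
      Filter.EventuallyEq.mfderiv_eq hf
    have h2 : mfderiv 𝓘(ℝ, E₁ × E₂) 𝓘(ℝ, E₁)
        (fun y => extChartAt 𝓘(ℝ, E₁) z (pr (σ y))) y =
        (mfderiv 𝓘(ℝ, E₁) 𝓘(ℝ, E₁) (extChartAt 𝓘(ℝ, E₁) z) (pr (σ y))).comp
          ((mfderiv 𝓘(ℝ, E) 𝓘(ℝ, E₁) pr (σ y)).comp
            (mfderiv 𝓘(ℝ, E₁ × E₂) 𝓘(ℝ, E) σ y)) := by
      have h3 : mfderiv 𝓘(ℝ, E₁ × E₂) 𝓘(ℝ, E₁) (pr ∘ σ) y =
          (mfderiv 𝓘(ℝ, E) 𝓘(ℝ, E₁) pr (σ y)).comp (mfderiv 𝓘(ℝ, E₁ × E₂) 𝓘(ℝ, E) σ y) :=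
        mfderiv_comp y hd hσ
      rw [← h3]
      exact mfderiv_comp y he (hd.comp y hσ)
    have h4 : mfderiv 𝓘(ℝ, E₁ × E₂) 𝓘(ℝ, E₁) (fun y : E₁ × E₂ => y.1) y =
        ContinuousLinearMap.fst ℝ E₁ E₂ := by
      rw [mfderiv_eq_fderiv]
      exact fderiv_fst
    rw [h2, h4] at h1
    have h5 := congrArg (fun L : (E₁ × E₂) →L[ℝ] E₁ => L (0, w)) h1
    have hinj : Function.Injective
        (mfderiv 𝓘(ℝ, E₁) 𝓘(ℝ, E₁) (extChartAt 𝓘(ℝ, E₁) z) (pr (σ y))) :=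
      (isInvertible_mfderiv_extChartAt hs).injective
    apply hinj
    exact h5.trans (ContinuousLinearMap.map_zero
      (mfderiv 𝓘(ℝ, E₁) 𝓘(ℝ, E₁) (extChartAt 𝓘(ℝ, E₁) z) (pr (σ y)))).symm
  · rw [mfderiv_zero_of_not_mdifferentiableAt hd]
    rfl

theorem C2.gσ_vert (h : IsChange ψ gB pr g₀ g₀') {σ : E₁ × E₂ → M} {y : E₁ × E₂} {w : E₂}
    (hw : mfderiv 𝓘(ℝ, E) 𝓘(ℝ, E₁) pr (σ y)
      (mfderiv 𝓘(ℝ, E₁ × E₂) 𝓘(ℝ, E) σ y (0, w)) = 0) (v : E₁ × E₂) :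
    gσ g₀' σ y (0, w) v = gσ g₀ σ y (0, w) v := by
  rw [gσ_apply, gσ_apply, g₀'.symm, g₀.symm]
  exact C2.inner_vert h _ hw

/-- The fibre metric and the connection do not change. -/
theorem IsChange.fm_gam (h : IsChange ψ gB pr g₀ g₀') {σ : E₁ × E₂ → M} {q : E₁ × E₂} {z : B}
    (hA : AC E pr σ q z) :
    ∀ᶠ y in 𝓝 q, fm g₀' σ y = fm g₀ σ y ∧ gam g₀' σ y = gam g₀ σ y := by
  filter_upwards [C2.vert hA] with y hy
  have h1 : fm g₀' σ y = fm g₀ σ y := by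
    ext i j
    exact C2.gσ_vert h (hy _) _
  have h2 : ∀ w : E₂, gσ g₀' σ y (0, w) = gσ g₀ σ y (0, w) := fun w => by
    ext v
    · exact C2.gσ_vert h (hy w) _
    · exact C2.gσ_vert h (hy w) _
  refine ⟨h1, ?_⟩
  unfold gam
  rw [h1]
  simp only [h2]

theorem Min.congr {f f' : E₁ × E₂ → Matrix (Fin (finrank ℝ E₂)) (Fin (finrank ℝ E₂)) ℝ}
    {Γ Γ' : E₁ × E₂ → E₁ →L[ℝ] E₂} {q : E₁ × E₂} (hM : Min f Γ q)
    (hf : ∀ᶠ y in 𝓝 q, f' y = f y ∧ Γ' y = Γ y) : Min f' Γ' q := by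
  unfold Min at *
  filter_upwards [hM, hf.eventually_nhds] with p hp hfp u
  rw [← hp u]
  have h1 : (fun p => Real.log (f' p).det) =ᶠ[𝓝 p] fun p => Real.log (f p).det := by
    filter_upwards [hfp] with y hy
    rw [hy.1]
  have h2 : (fun y => Γ' (p.1, y) u) =ᶠ[𝓝 p.2] fun y => Γ (p.1, y) u := by
    have ht : Tendsto (fun y : E₂ => (p.1, y)) (𝓝 p.2) (𝓝 p) := by
      have : ContinuousAt (fun y : E₂ => (p.1, y)) p.2 := by fun_prop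
      exact this
    filter_upwards [ht.eventually hfp] with y hy
    rw [hy.2]
  have h3 : Γ' p = Γ p := hfp.self_of_nhds.2
  unfold Sub.expn Sub.hd Sub.lift dv
  rw [h1.fderiv_eq, h2.fderiv_eq, h3]

end Pool.Agent.Lib.MP_df705a_gt.Fib
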