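import Pool.Agent.Lib.MP_df705a_gt.Fib.Defs

/-!
# TASK F4a: determinant and positivity of the connection metric
-/

open scoped Manifold ContDiff Topology Matrix
open Set Bundle Module Filter

noncomputable section

namespace Pool.Agent.Lib.MP_df705a_gt.Fib

open Pool.Agent.Lib.MP_df705a_gt.Twist Pool.Agent.Lib.MP_df705a_gt.Perm
open Pool.Agent.Lib.MP_df705a_gt.Sub (mB connMetric expn hd lift Dat)
open Pool.Agent.Lib.MP_df705a_gt.Circ (Horizontal Submersion HorAt cf Para)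

variable {E₁ : Type*} [NormedAddCommGroup E₁] [NormedSpace ℝ E₁] [FiniteDimensional ℝ E₁]
  {E₂ : Type*} [NormedAddCommGroup E₂] [NormedSpace ℝ E₂] [FiniteDimensional ℝ E₂]
  {h : Curv.Coeff E₁} {f : E₁ × E₂ → Matrix (Fin (finrank ℝ E₂)) (Fin (finrank ℝ E₂)) ℝ}
  {Γ : E₁ × E₂ → E₁ →L[ℝ] E₂} {α β : E₁ × E₂ → ℝ} {q : E₁ × E₂}

namespace F4a

/-- The product basis. -/
def pb (E₁ E₂ : Type*) [NormedAddCommGroup E₁] [NormedSpace ℝ E₁] [FiniteDimensional ℝ E₁]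
    [NormedAddCommGroup E₂] [NormedSpace ℝ E₂] [FiniteDimensional ℝ E₂] :
    Basis (Fin (finrank ℝ E₁) ⊕ Fin (finrank ℝ E₂)) ℝ (E₁ × E₂) :=
  (finBasis ℝ E₁).prod (finBasis ℝ E₂)

theorem pb_repr_inl (v : E₁ × E₂) (k : Fin (finrank ℝ E₁)) :
    (pb E₁ E₂).repr v (Sum.inl k) = (finBasis ℝ E₁).repr v.1 k := by
  simp [pb]

theorem pb_repr_inr (v : E₁ × E₂) (k : Fin (finrank ℝ E₂)) :
    (pb E₁ E₂).repr v (Sum.inr k) = (finBasis ℝ E₂).repr v.2 k := by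
  simp [pb]

/-- The identification of the index types. -/
def ie (E₁ E₂ : Type*) [NormedAddCommGroup E₁] [NormedSpace ℝ E₁] [FiniteDimensional ℝ E₁]
    [NormedAddCommGroup E₂] [NormedSpace ℝ E₂] [FiniteDimensional ℝ E₂] :
    Fin (finrank ℝ (E₁ × E₂)) ≃ Fin (finrank ℝ E₁) ⊕ Fin (finrank ℝ E₂) :=
  (finBasis ℝ (E₁ × E₂)).indexEquiv (pb E₁ E₂)

/-- The change of basis. -/
def cb (E₁ E₂ : Type*) [NormedAddCommGroup E₁] [NormedSpace ℝ E₁] [FiniteDimensional ℝ E₁]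
    [NormedAddCommGroup E₂] [NormedSpace ℝ E₂] [FiniteDimensional ℝ E₂] :
    Matrix (Fin (finrank ℝ E₁) ⊕ Fin (finrank ℝ E₂)) (Fin (finrank ℝ E₁) ⊕ Fin (finrank ℝ E₂)) ℝ :=
  (pb E₁ E₂).toMatrix ((finBasis ℝ (E₁ × E₂)).reindex (ie E₁ E₂))

theorem cb_inl (k : Fin (finrank ℝ E₁)) (i : Fin (finrank ℝ E₁) ⊕ Fin (finrank ℝ E₂)) :
    cb E₁ E₂ (Sum.inl k) i =
      (finBasis ℝ E₁).repr (finBasis ℝ (E₁ × E₂) ((ie E₁ E₂).symm i)).1 k := by
  rw [cb, Basis.toMatrix_apply, pb_repr_inl, Basis.reindex_apply]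

theorem cb_inr (k : Fin (finrank ℝ E₂)) (i : Fin (finrank ℝ E₁) ⊕ Fin (finrank ℝ E₂)) :
    cb E₁ E₂ (Sum.inr k) i =
      (finBasis ℝ E₂).repr (finBasis ℝ (E₁ × E₂) ((ie E₁ E₂).symm i)).2 k := by
  rw [cb, Basis.toMatrix_apply, pb_repr_inr, Basis.reindex_apply]

theorem cb_det : (cb E₁ E₂).det ≠ 0 := by
  have h := (pb E₁ E₂).isUnit_det ((finBasis ℝ (E₁ × E₂)).reindex (ie E₁ E₂))
  rw [Basis.det_apply] at h
  exact h.ne_zero

/-- The unipotent matrix. -/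
def un (γ : E₁ →L[ℝ] E₂) :
    Matrix (Fin (finrank ℝ E₁) ⊕ Fin (finrank ℝ E₂)) (Fin (finrank ℝ E₁) ⊕ Fin (finrank ℝ E₂)) ℝ :=
  Matrix.fromBlocks 1 0 (Matrix.of fun l k => -(finBasis ℝ E₂).repr (γ (finBasis ℝ E₁ k)) l) 1

theorem un_det (γ : E₁ →L[ℝ] E₂) : (un γ).det = 1 := by
  rw [un, Matrix.det_fromBlocks_zero₁₂]
  simp

theorem lin_sum (γ : E₁ →L[ℝ] E₂) (v : E₁) (l : Fin (finrank ℝ E₂)) :
    ∑ k, (finBasis ℝ E₂).repr (γ (finBasis ℝ E₁ k)) l * (finBasis ℝ E₁).repr v k =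
      (finBasis ℝ E₂).repr (γ v) l := by
  conv_rhs => rw [← (finBasis ℝ E₁).sum_repr v]
  rw [map_sum, map_sum, Finsupp.finsetSum_apply]
  refine Finset.sum_congr rfl fun k _ => ?_
  rw [map_smul, map_smul, Finsupp.smul_apply, smul_eq_mul, mul_comm]

theorem un_cb_inl (γ : E₁ →L[ℝ] E₂) (k : Fin (finrank ℝ E₁))
    (i : Fin (finrank ℝ E₁) ⊕ Fin (finrank ℝ E₂)) :
    (un γ * cb E₁ E₂) (Sum.inl k) i =
      (finBasis ℝ E₁).repr (finBasis ℝ (E₁ × E₂) ((ie E₁ E₂).symm i)).1 k := by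
  rw [Matrix.mul_apply, Fintype.sum_sum_type]
  simp only [un, Matrix.fromBlocks_apply₁₁, Matrix.fromBlocks_apply₁₂, Matrix.zero_apply,
    zero_mul, Finset.sum_const_zero, add_zero, Matrix.one_apply, ite_mul, one_mul,
    Finset.sum_ite_eq, Finset.mem_univ, if_true]
  rw [cb_inl]

theorem un_cb_inr (γ : E₁ →L[ℝ] E₂) (k : Fin (finrank ℝ E₂))
    (i : Fin (finrank ℝ E₁) ⊕ Fin (finrank ℝ E₂)) :
    (un γ * cb E₁ E₂) (Sum.inr k) i =
      (finBasis ℝ E₂).repr ((finBasis ℝ (E₁ × E₂) ((ie E₁ E₂).symm i)).2 -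
        γ (finBasis ℝ (E₁ × E₂) ((ie E₁ E₂).symm i)).1) k := by
  rw [Matrix.mul_apply, Fintype.sum_sum_type]
  simp only [un, Matrix.fromBlocks_apply₂₁, Matrix.fromBlocks_apply₂₂, Matrix.of_apply,
    Matrix.one_apply, ite_mul, one_mul, zero_mul, cb_inl, cb_inr, neg_mul,
    Finset.sum_neg_distrib, lin_sum, Finset.sum_ite_eq, Finset.mem_univ, if_true]
  rw [map_sub, Finsupp.sub_apply]
  ring

/-- The block diagonal matrix. -/
def dg (H : Matrix (Fin (finrank ℝ E₁)) (Fin (finrank ℝ E₁)) ℝ)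
    (F : Matrix (Fin (finrank ℝ E₂)) (Fin (finrank ℝ E₂)) ℝ) :
    Matrix (Fin (finrank ℝ E₁) ⊕ Fin (finrank ℝ E₂)) (Fin (finrank ℝ E₁) ⊕ Fin (finrank ℝ E₂)) ℝ :=
  Matrix.fromBlocks H 0 0 F

omit [FiniteDimensional ℝ E₁] [FiniteDimensional ℝ E₂] in
theorem dg_det (H : Matrix (Fin (finrank ℝ E₁)) (Fin (finrank ℝ E₁)) ℝ)
    (F : Matrix (Fin (finrank ℝ E₂)) (Fin (finrank ℝ E₂)) ℝ) :
    (dg H F).det = H.det * F.det := by
  rw [dg, Matrix.det_fromBlocks_zero₁₂]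

theorem conn_eq (h : Curv.Coeff E₁)
    (f : E₁ × E₂ → Matrix (Fin (finrank ℝ E₂)) (Fin (finrank ℝ E₂)) ℝ)
    (Γ : E₁ × E₂ → E₁ →L[ℝ] E₂) (q : E₁ × E₂) :
    (conn₀ h f Γ q).submatrix (ie E₁ E₂).symm (ie E₁ E₂).symm =
      (un (Γ q) * cb E₁ E₂).transpose * dg (h q.1) (f q) * (un (Γ q) * cb E₁ E₂) := by
  ext i j
  rw [Matrix.mul_apply, Fintype.sum_sum_type]
  simp only [Matrix.mul_apply (M := (un (Γ q) * cb E₁ E₂).transpose), Fintype.sum_sum_type,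
    Matrix.transpose_apply, un_cb_inl, un_cb_inr, dg, Matrix.fromBlocks_apply₁₁,
    Matrix.fromBlocks_apply₁₂, Matrix.fromBlocks_apply₂₁, Matrix.fromBlocks_apply₂₂,
    Matrix.zero_apply, mul_zero, Finset.sum_const_zero, add_zero, zero_add,
    Matrix.submatrix_apply, conn₀, connMetric, mB, Real.exp_zero, one_pow, one_mul]
  congr 1
  · rw [Finset.sum_comm]
    refine Finset.sum_congr rfl fun a _ => ?_
    rw [Finset.sum_mul]
    refine Finset.sum_congr rfl fun b _ => ?_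
    ring
  · rw [Finset.sum_comm]
    refine Finset.sum_congr rfl fun a _ => ?_
    rw [Finset.sum_mul]
    refine Finset.sum_congr rfl fun b _ => ?_
    ring

omit [FiniteDimensional ℝ E₁] [FiniteDimensional ℝ E₂] in
theorem dg_posDef {H : Matrix (Fin (finrank ℝ E₁)) (Fin (finrank ℝ E₁)) ℝ} (hH : H.PosDef)
    {F : Matrix (Fin (finrank ℝ E₂)) (Fin (finrank ℝ E₂)) ℝ} (hF : F.PosDef) :
    (dg H F).PosDef := by
  refine Matrix.PosDef.of_dotProduct_mulVec_pos ?_ fun x hx => ?_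
  · have h1 := hH.isHermitian
    have h2 := hF.isHermitian
    rw [dg, Matrix.IsHermitian, Matrix.fromBlocks_conjTranspose, h1.eq, h2.eq]
    simp only [Matrix.conjTranspose_zero]
  · have key : star x ⬝ᵥ dg H F *ᵥ x =
        star (fun k => x (Sum.inl k)) ⬝ᵥ H *ᵥ (fun k => x (Sum.inl k)) +
          star (fun k => x (Sum.inr k)) ⬝ᵥ F *ᵥ (fun k => x (Sum.inr k)) := by
      rw [dg, Matrix.fromBlocks_mulVec]
      simp only [dotProduct, Fintype.sum_sum_type, Sum.elim_inl, Sum.elim_inr, Pi.star_apply,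
        star_trivial, Matrix.zero_mulVec, add_zero, zero_add]
      rfl
    rw [key]
    by_cases h0 : (fun k => x (Sum.inl k)) = 0
    · have h2 : (fun k => x (Sum.inr k)) ≠ 0 := by
        intro h3
        apply hx
        funext i
        rcases i with k | k
        · exact congrFun h0 k
        · exact congrFun h3 k
      rw [h0]
      simp only [star_zero, zero_dotProduct, zero_add]
      exact hF.dotProduct_mulVec_pos h2
    · have h4 := hH.dotProduct_mulVec_pos h0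
      have h5 := hF.posSemidef.dotProduct_mulVec_nonneg (fun k => x (Sum.inr k))
      linarith

end F4a

/-- Generalise `Circ.exists_det_conn` (Circ/ConnDet.lean). -/
theorem exists_det_conn (E₁ E₂ : Type*) [NormedAddCommGroup E₁] [NormedSpace ℝ E₁]
    [FiniteDimensional ℝ E₁] [NormedAddCommGroup E₂] [NormedSpace ℝ E₂] [FiniteDimensional ℝ E₂] :
    ∃ c : ℝ, 0 < c ∧ ∀ (h : Curv.Coeff E₁)
      (f : E₁ × E₂ → Matrix (Fin (finrank ℝ E₂)) (Fin (finrank ℝ E₂)) ℝ)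
      (Γ : E₁ × E₂ → E₁ →L[ℝ] E₂) (q : E₁ × E₂),
      (conn₀ h f Γ q).det = c * ((h q.1).det * (f q).det) := by
  refine ⟨(F4a.cb E₁ E₂).det ^ 2, by have := F4a.cb_det (E₁ := E₁) (E₂ := E₂); positivity,
    fun h f Γ q => ?_⟩
  rw [← Matrix.det_submatrix_equiv_self (F4a.ie E₁ E₂).symm, F4a.conn_eq, Matrix.det_mul,
    Matrix.det_mul, Matrix.det_transpose, Matrix.det_mul, F4a.un_det, F4a.dg_det]
  ring

theorem conn_posDef (Γ : E₁ × E₂ → E₁ →L[ℝ] E₂) (hh : (h q.1).PosDef) (hf : (f q).PosDef) :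
    (conn₀ h f Γ q).PosDef := by
  have h1 : ((conn₀ h f Γ q).submatrix (F4a.ie E₁ E₂).symm (F4a.ie E₁ E₂).symm).PosDef := by
    rw [F4a.conn_eq]
    have h2 := F4a.dg_posDef hh hf
    refine h2.conjTranspose_mul_mul_same (B := F4a.un (Γ q) * F4a.cb E₁ E₂) ?_
    apply Matrix.mulVec_injective_of_isUnit
    rw [Matrix.isUnit_iff_isUnit_det, Matrix.det_mul, F4a.un_det, one_mul]
    exact (F4a.cb_det).isUnit
  have h3 := h1.submatrix (e := F4a.ie E₁ E₂) (F4a.ie E₁ E₂).injective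
  rwa [Matrix.submatrix_submatrix, Equiv.symm_comp_self, Matrix.submatrix_id_id] at h3

end Pool.Agent.Lib.MP_df705a_gt.Fib
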