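import Pool.Agent.Lib.MP_df705a_gt.Mg.G013
import Pool.Agent.Lib.MP_df705a_gt.Fib.GlobDefs
import Pool.Agent.Lib.MP_df705a_gt.Mg.G062

/-!
# TASK G9: product rules on the manifold
-/

open scoped Manifold ContDiff Topology
open Set Bundle Module Filter

noncomputable section

namespace Pool.Agent.Lib.MP_df705a_gt.Fib

open Pool.Agent.Lib.MP_df705a_gt.Twist Pool.Agent.Lib.MP_df705a_gt.Perm
open Pool.Agent.Lib.MP_df705a_gt.Circ (Horizontal Submersion HorAt cf Para)

variable {E₁ : Type*} [NormedAddCommGroup E₁] [NormedSpace ℝ E₁] [FiniteDimensional ℝ E₁]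
  {B : Type*} [TopologicalSpace B] [ChartedSpace E₁ B] [IsManifold 𝓘(ℝ, E₁) ∞ B]
  {E : Type*} [NormedAddCommGroup E] [NormedSpace ℝ E] [FiniteDimensional ℝ E]
  {M : Type*} [TopologicalSpace M] [ChartedSpace E M] [IsManifold 𝓘(ℝ, E) ∞ M]

namespace G9

theorem gradC_mul (h : Curv.Coeff E) {u v : E → ℝ} {y : E} (hu : DifferentiableAt ℝ u y)
    (hv : DifferentiableAt ℝ v y) (F : E → ℝ) :
    gradC h (fun z => u z * v z) F y = u y * gradC h v F y + v y * gradC h u F y := by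
  unfold gradC
  rw [Finset.mul_sum, Finset.mul_sum, ← Finset.sum_add_distrib]
  refine Finset.sum_congr rfl fun i _ => ?_
  rw [Finset.mul_sum, Finset.mul_sum, ← Finset.sum_add_distrib]
  refine Finset.sum_congr rfl fun j _ => ?_
  rw [G4.pd_mul hu hv]
  ring

theorem gradC_sub (h : Curv.Coeff E) {u v : E → ℝ} {y : E} (hu : DifferentiableAt ℝ u y)
    (hv : DifferentiableAt ℝ v y) (F : E → ℝ) :
    gradC h (fun z => u z - v z) F y = gradC h u F y - gradC h v F y := by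
  unfold gradC
  rw [← Finset.sum_sub_distrib]
  refine Finset.sum_congr rfl fun i _ => ?_
  rw [← Finset.sum_sub_distrib]
  refine Finset.sum_congr rfl fun j _ => ?_
  rw [G4.pd_sub hu hv]
  ring

theorem gradC_comp_left (h : Curv.Coeff E) {u : E → ℝ} {y : E} {ph : ℝ → ℝ}
    (hu : DifferentiableAt ℝ u y) (hph : DifferentiableAt ℝ ph (u y)) (F : E → ℝ) :
    gradC h (fun z => ph (u z)) F y = deriv ph (u y) * gradC h u F y := by
  unfold gradC
  rw [Finset.mul_sum]
  refine Finset.sum_congr rfl fun i _ => ?_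
  rw [Finset.mul_sum]
  refine Finset.sum_congr rfl fun j _ => ?_
  rw [G4.pd_comp hu hph]
  ring

end G9

theorem grd_mul_left (g : ContMDiffRiemannianMetric 𝓘(ℝ, E) ∞ E
      (fun x : M => TangentSpace 𝓘(ℝ, E) x)) {s w : M → ℝ} (hs : Sm E s) (hw : Sm E w)
    (u : M → ℝ) (p : M) :
    Grd g (fun x => s x * w x) u p = s p * Grd g w u p + w p * Grd g s u p := by
  have h := G9.gradC_mul (coeff g p) (G4.diff_of (G4.rd_contDiffAt hs p))
    (G4.diff_of (G4.rd_contDiffAt hw p)) (rd E p u)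
  rw [G4.rd_self, G4.rd_self] at h
  exact h

theorem grd_sub_left (g : ContMDiffRiemannianMetric 𝓘(ℝ, E) ∞ E
      (fun x : M => TangentSpace 𝓘(ℝ, E) x)) {s w : M → ℝ} (hs : Sm E s) (hw : Sm E w)
    (u : M → ℝ) (p : M) :
    Grd g (fun x => s x - w x) u p = Grd g s u p - Grd g w u p :=
  G9.gradC_sub (coeff g p) (G4.diff_of (G4.rd_contDiffAt hs p))
    (G4.diff_of (G4.rd_contDiffAt hw p)) (rd E p u)

theorem grd_exp_left (g : ContMDiffRiemannianMetric 𝓘(ℝ, E) ∞ E
      (fun x : M => TangentSpace 𝓘(ℝ, E) x)) {s : M → ℝ} (hs : Sm E s) (u : M → ℝ) (p : M) :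
    Grd g (fun x => Real.exp (s x)) u p = Real.exp (s p) * Grd g s u p := by
  have h := G9.gradC_comp_left (coeff g p) (ph := Real.exp) (G4.diff_of (G4.rd_contDiffAt hs p))
    Real.differentiableAt_exp (rd E p u)
  rw [G4.rd_self, Real.deriv_exp] at h
  exact h

variable {κ : Type} [Fintype κ]

/-- `div (s ∇^H φ)` for `s = e^(a - b)`. -/
theorem div_id (g : ContMDiffRiemannianMetric 𝓘(ℝ, E) ∞ E
      (fun x : M => TangentSpace 𝓘(ℝ, E) x)) {pr : M → B}
    (hpr : ContMDiff 𝓘(ℝ, E) 𝓘(ℝ, E₁) ∞ pr) {f : κ → B → ℝ} {c : κ → κ → B → ℝ}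
    (hf : ∀ k, Sm E₁ (f k)) (hc : ∀ k l, Sm E₁ (c k l)) {a b φ : M → ℝ}
    (ha : Sm E a) (hb : Sm E b) (hφ : Sm E φ) (p : M) :
    ∑ k, ∑ l, (Grd g (fun x => Real.exp (a x - b x) *
        (c k l (pr x) * Grd g φ (fun x => f k (pr x)) x)) (fun x => f l (pr x)) p +
      Real.exp (a p - b p) * (c k l (pr p) * Grd g φ (fun x => f k (pr x)) p) *
        Lap g (fun x => f l (pr x)) p) =
    Real.exp (a p - b p) *
      (lapH g pr f c φ p + (grdH g pr f c φ a p - grdH g pr f c φ b p)) := by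
  have hab : Sm E (fun x => a x - b x) := ContMDiff.sub ha hb
  have he : Sm E (fun x => Real.exp (a x - b x)) :=
    sm_comp (φ := Real.exp) hab (fun x => Real.contDiff_exp.contDiffAt)
  have hfk : ∀ k, Sm E (fun x => f k (pr x)) := fun k => ContMDiff.comp (hf k) hpr
  have hck : ∀ k l, Sm E (fun x => c k l (pr x)) := fun k l => ContMDiff.comp (hc k l) hpr
  have hQ : ∀ k l, Sm E (fun x => c k l (pr x) * Grd g φ (fun x => f k (pr x)) x) := fun k l =>
    ContMDiff.mul (hck k l) (Circ.sm_grd g hφ (hfk k))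
  unfold lapH grdH
  rw [← Finset.sum_sub_distrib, ← Finset.sum_add_distrib, Finset.mul_sum]
  refine Finset.sum_congr rfl fun k _ => ?_
  rw [← Finset.sum_sub_distrib, ← Finset.sum_add_distrib, Finset.mul_sum]
  refine Finset.sum_congr rfl fun l _ => ?_
  rw [grd_mul_left g he (hQ k l), grd_exp_left g hab, grd_sub_left g ha hb]
  ring

end Pool.Agent.Lib.MP_df705a_gt.Fib
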