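import Pool.Agent.Lib.MP_df705a_gt.Fib.Defs

/-!
# TASK F3: the consequences of the invariance of the volume density in normal form
-/

open scoped Manifold ContDiff Topology
open Set Bundle Module Filter

noncomputable section

namespace Pool.Agent.Lib.MP_df705a_gt.Fib

open Pool.Agent.Lib.MP_df705a_gt.Twist Pool.Agent.Lib.MP_df705a_gt.Perm
open Pool.Agent.Lib.MP_df705a_gt.Sub (mB connMetric expn hd lift Dat)
open Pool.Agent.Lib.MP_df705a_gt.Circ (Horizontal Submersion HorAt cf Para)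

variable {E₁ : Type*} [NormedAddCommGroup E₁] [NormedSpace ℝ E₁] [FiniteDimensional ℝ E₁]
  {E₂ : Type*} [NormedAddCommGroup E₂] [NormedSpace ℝ E₂] [FiniteDimensional ℝ E₂]
  {h : Curv.Coeff E₁} {f : E₁ × E₂ → Matrix (Fin (finrank ℝ E₂)) (Fin (finrank ℝ E₂)) ℝ}
  {Γ : E₁ × E₂ → E₁ →L[ℝ] E₂} {α β : E₁ × E₂ → ℝ} {q : E₁ × E₂}

namespace F3

theorem contDiffAt_logdet (hD : Dat h f Γ α β q) :
    ContDiffAt ℝ ∞ (fun p => Real.log (f p).det) q :=
  (contDiffAt_det hD.f_smooth).log hD.f_pos.self_of_nhds.det_pos.ne'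

theorem hasFDerivAt_expn (hD : Dat h f Γ α β q) (u : E₁) :
    HasFDerivAt (fun p => fderiv ℝ (fun p => Real.log (f p).det) p (u, Γ p u))
      ((fderiv ℝ (fun p => Real.log (f p).det) q).comp
        ((0 : E₁ × E₂ →L[ℝ] E₁).prod ((fderiv ℝ Γ q).flip u)) +
        (fderiv ℝ (fderiv ℝ (fun p => Real.log (f p).det)) q).flip (u, Γ q u)) q := by
  have h1 : HasFDerivAt (fderiv ℝ (fun p => Real.log (f p).det))
      (fderiv ℝ (fderiv ℝ (fun p => Real.log (f p).det)) q) q := by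
    have h2 : ContDiffAt ℝ 1 (fderiv ℝ (fun p => Real.log (f p).det)) q :=
      (contDiffAt_logdet hD).fderiv_right (by norm_cast)
    exact (h2.differentiableAt one_ne_zero).hasFDerivAt
  have h3 : HasFDerivAt Γ (fderiv ℝ Γ q) q :=
    (hD.Γ_smooth.differentiableAt (by simp)).hasFDerivAt
  have h4 : HasFDerivAt (fun p => Γ p u) ((fderiv ℝ Γ q).flip u) q := by
    have h5 := h3.clm_apply (hasFDerivAt_const u q)
    simpa using h5
  have h6 : HasFDerivAt (fun p => ((u, Γ p u) : E₁ × E₂))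
      ((0 : E₁ × E₂ →L[ℝ] E₁).prod ((fderiv ℝ Γ q).flip u)) q :=
    (hasFDerivAt_const u q).prodMk h4
  exact h1.clm_apply h6

theorem second (hD : Dat h f Γ α β q) (u v : E₁) :
    fderiv ℝ (fun p => fderiv ℝ (fun p => Real.log (f p).det) p (u, 0)) q (v, 0) =
      fderiv ℝ (fderiv ℝ (fun p => Real.log (f p).det)) q (v, 0) (u, 0) := by
  have h1 : HasFDerivAt (fderiv ℝ (fun p => Real.log (f p).det))
      (fderiv ℝ (fderiv ℝ (fun p => Real.log (f p).det)) q) q := by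
    have h2 : ContDiffAt ℝ 1 (fderiv ℝ (fun p => Real.log (f p).det)) q :=
      (contDiffAt_logdet hD).fderiv_right (by norm_cast)
    exact (h2.differentiableAt one_ne_zero).hasFDerivAt
  have h2 := h1.clm_apply (hasFDerivAt_const ((u, 0) : E₁ × E₂) q)
  rw [h2.fderiv]
  simp

theorem dv_eventually (hM : Min f Γ q) (u : E₁) :
    (fun p : E₁ × E₂ => dv (fun y => Γ (p.1, y) u) p.2) =ᶠ[𝓝 q]
      fun p => (-(1 / 2) : ℝ) * fderiv ℝ (fun p => Real.log (f p).det) p (u, Γ p u) := by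
  filter_upwards [hM] with p hp
  have h1 : (1 / 2) * fderiv ℝ (fun p => Real.log (f p).det) p (u, Γ p u) +
      dv (fun y => Γ (p.1, y) u) p.2 = 0 := hp u
  linarith

theorem key (hD : Dat h f Γ α β q) (hN : NF Γ q) (hM : Min f Γ q) (u v : E₁) :
    fderiv ℝ (fun p : E₁ × E₂ => dv (fun y => Γ (p.1, y) u) p.2) q (v, 0) =
      -(1 / 2) * (fderiv ℝ (fun p => Real.log (f p).det) q (0, fderiv ℝ Γ q (v, 0) u) +
        fderiv ℝ (fun p => fderiv ℝ (fun p => Real.log (f p).det) p (u, 0)) q (v, 0)) := by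
  rw [(dv_eventually hM u).fderiv_eq, ((hasFDerivAt_expn hD u).const_mul (-(1 / 2) : ℝ)).fderiv,
    second hD, hN.zero]
  simp
  ring

end F3

theorem fderiv_logdet (hD : Dat h f Γ α β q) (hN : NF Γ q) (hM : Min f Γ q) (u : E₁) :
    fderiv ℝ (fun p => Real.log (f p).det) q (u, 0) = 0 := by
  have h1 : (1 / 2) * fderiv ℝ (fun p => Real.log (f p).det) q (u, Γ q u) +
      dv (fun y => Γ (q.1, y) u) q.2 = 0 := hM.self_of_nhds u
  have h2 : dv (fun y => Γ (q.1, y) u) q.2 = 0 := by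
    have h3 : HasFDerivAt Γ (fderiv ℝ Γ q) q :=
      (hD.Γ_smooth.differentiableAt (by simp)).hasFDerivAt
    have h4 : HasFDerivAt (fun y : E₂ => ((q.1, y) : E₁ × E₂))
        ((0 : E₂ →L[ℝ] E₁).prod (ContinuousLinearMap.id ℝ E₂)) q.2 :=
      (hasFDerivAt_const q.1 q.2).prodMk (hasFDerivAt_id q.2)
    have h5 : HasFDerivAt (fun y : E₂ => Γ (q.1, y))
        ((fderiv ℝ Γ q).comp ((0 : E₂ →L[ℝ] E₁).prod (ContinuousLinearMap.id ℝ E₂))) q.2 :=
      HasFDerivAt.comp (g := Γ) q.2 h3 h4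
    have h6 := h5.clm_apply (hasFDerivAt_const u q.2)
    unfold dv
    rw [h6.fderiv]
    have h7 : ((Γ (q.1, q.2)).comp (0 : E₂ →L[ℝ] E₁) +
        ((fderiv ℝ Γ q).comp ((0 : E₂ →L[ℝ] E₁).prod
          (ContinuousLinearMap.id ℝ E₂))).flip u : E₂ →L[ℝ] E₂) = 0 := by
      ext w
      have h8 := hN.dy w
      simp [h8]
    rw [h7]
    simp
  rw [hN.zero, h2] at h1
  simpa using h1

/-- Differentiate `expn f Γ p (b j) = 0` in the direction `(b i, 0)`. -/
theorem trD_eq (hD : Dat h f Γ α β q) (hN : NF Γ q) (hM : Min f Γ q) :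
    trD h f q = -(2 * trG h Γ q) := by
  have hsymm : ∀ i j, (h q.1)⁻¹ i j = (h q.1)⁻¹ j i := by
    intro i j
    have h1 : ((h q.1)⁻¹).IsHermitian := hD.h_pos.self_of_nhds.isHermitian.inv
    have h2 := h1.apply i j
    simpa using h2.symm
  have hanti : ∑ i, ∑ j, (h q.1)⁻¹ i j * fderiv ℝ (fun p => Real.log (f p).det) q
      (0, fderiv ℝ Γ q (finBasis ℝ E₁ i, 0) (finBasis ℝ E₁ j)) = 0 := by
    set S := ∑ i, ∑ j, (h q.1)⁻¹ i j * fderiv ℝ (fun p => Real.log (f p).det) q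
      (0, fderiv ℝ Γ q (finBasis ℝ E₁ i, 0) (finBasis ℝ E₁ j)) with hS
    have h1 : S = -S := by
      calc S = ∑ j, ∑ i, (h q.1)⁻¹ i j * fderiv ℝ (fun p => Real.log (f p).det) q
            (0, fderiv ℝ Γ q (finBasis ℝ E₁ i, 0) (finBasis ℝ E₁ j)) := by
            rw [hS, Finset.sum_comm]
        _ = ∑ j, ∑ i, -((h q.1)⁻¹ j i * fderiv ℝ (fun p => Real.log (f p).det) q
            (0, fderiv ℝ Γ q (finBasis ℝ E₁ j, 0) (finBasis ℝ E₁ i))) := by
            refine Finset.sum_congr rfl fun j _ => Finset.sum_congr rfl fun i _ => ?_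
            rw [hsymm i j, hN.anti (finBasis ℝ E₁ i) (finBasis ℝ E₁ j)]
            have h2 : ((0 : E₁), -(fderiv ℝ Γ q (finBasis ℝ E₁ j, 0)) (finBasis ℝ E₁ i)) =
                -((0 : E₁), (fderiv ℝ Γ q (finBasis ℝ E₁ j, 0)) (finBasis ℝ E₁ i)) := by
              ext <;> simp
            rw [h2, map_neg]
            ring
        _ = -S := by
            simp only [Finset.sum_neg_distrib]
            rw [hS]
    linarith
  unfold trD trG
  have h3 : ∑ i, ∑ j, (h q.1)⁻¹ i j *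
      fderiv ℝ (fun p : E₁ × E₂ => dv (fun y => Γ (p.1, y) (finBasis ℝ E₁ j)) p.2) q
        (finBasis ℝ E₁ i, 0) =
      -(1 / 2) * (∑ i, ∑ j, (h q.1)⁻¹ i j * fderiv ℝ (fun p => Real.log (f p).det) q
          (0, fderiv ℝ Γ q (finBasis ℝ E₁ i, 0) (finBasis ℝ E₁ j)) +
        ∑ i, ∑ j, (h q.1)⁻¹ i j *
          fderiv ℝ (fun p => fderiv ℝ (fun p => Real.log (f p).det) p (finBasis ℝ E₁ j, 0)) q
            (finBasis ℝ E₁ i, 0)) := by
    rw [← Finset.sum_add_distrib, Finset.mul_sum]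
    refine Finset.sum_congr rfl fun i _ => ?_
    rw [← Finset.sum_add_distrib, Finset.mul_sum]
    refine Finset.sum_congr rfl fun j _ => ?_
    rw [F3.key hD hN hM]
    ring
  rw [h3, hanti]
  ring

end Pool.Agent.Lib.MP_df705a_gt.Fib
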