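import Pool.Agent.Lib.MP_df705a_gt.Fib.Defs
import Pool.Agent.Lib.MP_df705a_gt.Fib.FibredDefs
import Pool.Agent.Lib.MP_df705a_gt.Fib.SubChart

/-!
# TASK G8: the scalar curvature of the fibres in adapted coordinates
-/

open scoped Manifold ContDiff Topology
open Set Bundle Module Filter

noncomputable section

set_option linter.unusedSectionVars false

namespace Pool.Agent.Lib.MP_df705a_gt.Fib

open Pool.Agent.Lib.MP_df705a_gt.Twist Pool.Agent.Lib.MP_df705a_gt.Perm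
open Pool.Agent.Lib.MP_df705a_gt.Sub (mB connMetric expn hd lift Dat)
open Pool.Agent.Lib.MP_df705a_gt.Circ (Horizontal Submersion HorAt cf Para)

variable {E₁ : Type*} [NormedAddCommGroup E₁] [NormedSpace ℝ E₁] [FiniteDimensional ℝ E₁]
  {B : Type*} [TopologicalSpace B] [ChartedSpace E₁ B] [IsManifold 𝓘(ℝ, E₁) ∞ B]
  {E : Type*} [NormedAddCommGroup E] [NormedSpace ℝ E] [FiniteDimensional ℝ E]
  {M : Type*} [TopologicalSpace M] [ChartedSpace E M] [IsManifold 𝓘(ℝ, E) ∞ M]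

namespace G8

variable {E₂ : Type*} [NormedAddCommGroup E₂] [NormedSpace ℝ E₂] [FiniteDimensional ℝ E₂]

theorem slice_smooth (x : E₁) (y : E₂) :
    ContMDiffAt 𝓘(ℝ, E₂) 𝓘(ℝ, E₁ × E₂) ∞ (fun y : E₂ => (x, y)) y := by
  rw [contMDiffAt_iff_contDiffAt]
  exact contDiffAt_const.prodMk contDiffAt_id

theorem slice_mfderiv {σ : E₁ × E₂ → M} {x : E₁} {y : E₂}
    (h : ContMDiffAt 𝓘(ℝ, E₁ × E₂) 𝓘(ℝ, E) ∞ σ (x, y)) (v : E₂) :
    mfderiv 𝓘(ℝ, E₂) 𝓘(ℝ, E) (fun y => σ (x, y)) y v =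
      mfderiv 𝓘(ℝ, E₁ × E₂) 𝓘(ℝ, E) σ (x, y) (0, v) := by
  have h1 : mfderiv 𝓘(ℝ, E₂) 𝓘(ℝ, E) (σ ∘ fun y : E₂ => (x, y)) y =
      (mfderiv 𝓘(ℝ, E₁ × E₂) 𝓘(ℝ, E) σ (x, y)).comp
        (mfderiv 𝓘(ℝ, E₂) 𝓘(ℝ, E₁ × E₂) (fun y : E₂ => (x, y)) y) :=
    mfderiv_comp y (h.mdifferentiableAt (by simp)) ((slice_smooth x y).mdifferentiableAt (by simp))
  have h2 : (fun y => σ (x, y)) = σ ∘ fun y : E₂ => (x, y) := rfl
  rw [h2, h1, mfderiv_eq_fderiv, (hasFDerivAt_prodMk_right x y).fderiv]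
  rfl

end G8

/-- Apply the hypothesis to `y ↦ σ (q.1, y)`. -/
theorem fibScal {k : ℕ} (g : ContMDiffRiemannianMetric 𝓘(ℝ, E) ∞ E
      (fun x : M => TangentSpace 𝓘(ℝ, E) x))
    {pr : M → B} (hs : NonposFibres k g pr)
    {σ : E₁ × EuclideanSpace ℝ (Fin k) → M} {q : E₁ × EuclideanSpace ℝ (Fin k)} {z : B}
    (hA : AC E pr σ q z) :
    Curv.scal (fun y => fm g σ (q.1, y)) q.2 ≤ 0 := by
  have hc : Tendsto (fun y : EuclideanSpace ℝ (Fin k) => (q.1, y)) (𝓝 q.2) (𝓝 q) := by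
    have : Continuous fun y : EuclideanSpace ℝ (Fin k) => (q.1, y) := by fun_prop
    exact this.tendsto q.2
  have h0 : Para E σ (q.1, q.2) := hA.para.self_of_nhds
  have h1 : ContMDiffAt 𝓘(ℝ, EuclideanSpace ℝ (Fin k)) 𝓘(ℝ, E) ∞ (fun y => σ (q.1, y)) q.2 :=
    h0.smooth.comp q.2 (G8.slice_smooth q.1 q.2)
  have h2 : Function.Injective
      (mfderiv 𝓘(ℝ, EuclideanSpace ℝ (Fin k)) 𝓘(ℝ, E) (fun y => σ (q.1, y)) q.2) := by
    intro v w hvw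
    have h3 := G8.slice_mfderiv h0.smooth v
    have h4 := G8.slice_mfderiv h0.smooth w
    have h5 : mfderiv 𝓘(ℝ, E₁ × EuclideanSpace ℝ (Fin k)) 𝓘(ℝ, E) σ (q.1, q.2) (0, v) =
        mfderiv 𝓘(ℝ, E₁ × EuclideanSpace ℝ (Fin k)) 𝓘(ℝ, E) σ (q.1, q.2) (0, w) := by
      rw [← h3, ← h4]
      exact hvw
    exact congrArg Prod.snd (h0.bij.1 h5)
  have h3 : ∀ᶠ y in 𝓝 q.2, pr (σ (q.1, y)) = pr (σ (q.1, q.2)) := by
    have e1 := hA.src.self_of_nhds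
    have e2 := hA.fst.self_of_nhds
    filter_upwards [hc.eventually hA.src, hc.eventually hA.fst] with y hy1 hy2
    exact (extChartAt 𝓘(ℝ, E₁) z).injOn hy1 e1 (hy2.trans e2.symm)
  have h4 := hs (fun y => σ (q.1, y)) q.2 h1 h2 h3
  have h5 : (fun y => fm g σ (q.1, y)) =ᶠ[𝓝 q.2] cf g (fun y => σ (q.1, y)) := by
    filter_upwards [hc.eventually hA.para] with y hy
    ext i j
    show g.inner (σ (q.1, y)) _ _ = g.inner (σ (q.1, y)) _ _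
    rw [G8.slice_mfderiv hy.smooth, G8.slice_mfderiv hy.smooth]
    rfl
  rw [scalC_congr h5]
  exact h4

end Pool.Agent.Lib.MP_df705a_gt.Fib
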