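import Pool.Agent.Lib.MP_df705a_gt.Fib.Defs

/-!
# The horizontal Laplacian and the horizontal gradient product, in coordinates
-/

open scoped Manifold ContDiff Topology
open Set Bundle Module Filter

noncomputable section

namespace Pool.Agent.Lib.MP_df705a_gt.Fib

open Pool.Agent.Lib.MP_df705a_gt.Twist Pool.Agent.Lib.MP_df705a_gt.Perm
open Pool.Agent.Lib.MP_df705a_gt.Sub (mB connMetric expn hd lift Dat)
open Pool.Agent.Lib.MP_df705a_gt.Circ (Horizontal Submersion HorAt cf Para)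

variable {E₁ : Type*} [NormedAddCommGroup E₁] [NormedSpace ℝ E₁] [FiniteDimensional ℝ E₁]
  {E₂ : Type*} [NormedAddCommGroup E₂] [NormedSpace ℝ E₂] [FiniteDimensional ℝ E₂]
  {h : Curv.Coeff E₁} {f : E₁ × E₂ → Matrix (Fin (finrank ℝ E₂)) (Fin (finrank ℝ E₂)) ℝ}
  {Γ : E₁ × E₂ → E₁ →L[ℝ] E₂} {α β : E₁ × E₂ → ℝ} {q : E₁ × E₂}

variable {κ : Type*} [Fintype κ]

/-- The horizontal gradient product `∑ c_kl ⟨dφ, dF_k⟩ ⟨dχ, dF_l⟩`, `F_k = f_k ∘ fst`. -/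
def gradHC (h : Curv.Coeff E₁) (f : E₁ × E₂ → Matrix (Fin (finrank ℝ E₂)) (Fin (finrank ℝ E₂)) ℝ)
    (Γ : E₁ × E₂ → E₁ →L[ℝ] E₂) (F : κ → E₁ → ℝ) (c : κ → κ → E₁ → ℝ) (φ χ : E₁ × E₂ → ℝ)
    (q : E₁ × E₂) : ℝ :=
  ∑ k, ∑ l, c k l q.1 * (gradC (conn₀ h f Γ) φ (fun p => F k p.1) q *
    gradC (conn₀ h f Γ) χ (fun p => F l p.1) q)

/-- The horizontal Laplacian `∑ div (c_kl ⟨dφ, dF_k⟩ grad F_l)`. -/
def lapHC (h : Curv.Coeff E₁) (f : E₁ × E₂ → Matrix (Fin (finrank ℝ E₂)) (Fin (finrank ℝ E₂)) ℝ)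
    (Γ : E₁ × E₂ → E₁ →L[ℝ] E₂) (F : κ → E₁ → ℝ) (c : κ → κ → E₁ → ℝ) (φ : E₁ × E₂ → ℝ)
    (q : E₁ × E₂) : ℝ :=
  ∑ k, ∑ l, (gradC (conn₀ h f Γ)
      (fun p => c k l p.1 * gradC (conn₀ h f Γ) φ (fun p => F k p.1) p) (fun p => F l p.1) q +
    c k l q.1 * gradC (conn₀ h f Γ) φ (fun p => F k p.1) q *
      lapC (conn₀ h f Γ) (fun p => F l p.1) q)

end Pool.Agent.Lib.MP_df705a_gt.Fib
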