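import Pool.Agent.Lib.MP_df705a_gt.Mg.G062
import Pool.Agent.Lib.MP_df705a_gt.Fib.LapConn
import Pool.Agent.Lib.MP_df705a_gt.Fib.LapHDefs

/-!
# TASK F6: the horizontal Laplacian in normal form
-/

open scoped Manifold ContDiff Topology
open Set Bundle Module Filter

noncomputable section

namespace Pool.Agent.Lib.MP_df705a_gt.Fib

open Pool.Agent.Lib.MP_df705a_gt.Twist Pool.Agent.Lib.MP_df705a_gt.Perm
open Pool.Agent.Lib.MP_df705a_gt.Sub (mB connMetric expn hd lift Dat)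
open Pool.Agent.Lib.MP_df705a_gt.Circ (Horizontal Submersion HorAt cf Para)

variable {E₁ : Type*} [NormedAddCommGroup E₁] [NormedSpace ℝ E₁] [FiniteDimensional ℝ E₁]
  {E₂ : Type*} [NormedAddCommGroup E₂] [NormedSpace ℝ E₂] [FiniteDimensional ℝ E₂]
  {h : Curv.Coeff E₁} {f : E₁ × E₂ → Matrix (Fin (finrank ℝ E₂)) (Fin (finrank ℝ E₂)) ℝ}
  {Γ : E₁ × E₂ → E₁ →L[ℝ] E₂} {α β : E₁ × E₂ → ℝ} {q : E₁ × E₂}

variable {κ : Type*} [Fintype κ] {F : κ → E₁ → ℝ} {c : κ → κ → E₁ → ℝ}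

namespace F6

section trace

omit [Fintype κ] in
/-- The scalar product of two covectors. -/
theorem pair_gradM (M : Matrix (Fin (finrank ℝ E₁)) (Fin (finrank ℝ E₁)) ℝ)
    (L L' : E₁ →L[ℝ] ℝ) :
    L (gradM (finBasis ℝ E₁) M L') =
      ∑ i, ∑ j, M⁻¹ i j * (L (finBasis ℝ E₁ i) * L' (finBasis ℝ E₁ j)) := by
  unfold gradM
  rw [map_sum]
  refine Finset.sum_congr rfl fun i _ => ?_
  rw [map_smul, smul_eq_mul, Finset.sum_mul]
  refine Finset.sum_congr rfl fun j _ => ?_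
  ring

omit [Fintype κ] in
theorem pair_gradM_symm {M : Matrix (Fin (finrank ℝ E₁)) (Fin (finrank ℝ E₁)) ℝ}
    (hM : M.PosDef) (L L' : E₁ →L[ℝ] ℝ) :
    L (gradM (finBasis ℝ E₁) M L') = L' (gradM (finBasis ℝ E₁) M L) := by
  rw [pair_gradM, pair_gradM, Finset.sum_comm]
  refine Finset.sum_congr rfl fun i _ => Finset.sum_congr rfl fun j _ => ?_
  rw [posDef_symm hM.inv j i]
  ring

omit [Fintype κ] in
/-- The gradient is dual to the covector. -/
theorem mB_gradM {M : Matrix (Fin (finrank ℝ E₁)) (Fin (finrank ℝ E₁)) ℝ}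
    (hM : M.PosDef) (L : E₁ →L[ℝ] ℝ) (w : E₁) :
    mB M (gradM (finBasis ℝ E₁) M L) w = L w := by
  have hdet : IsUnit M.det := hM.det_pos.ne'.isUnit
  have hr : ∀ i, (finBasis ℝ E₁).repr (gradM (finBasis ℝ E₁) M L) i =
      ∑ j, M⁻¹ i j * L (finBasis ℝ E₁ j) := by
    intro i
    rw [← cd_gradM, cd_apply]
  have hid : ∀ r j, ∑ i, M⁻¹ i r * M i j = if r = j then 1 else 0 := by
    intro r j
    have h1 := congrFun (congrFun (Matrix.nonsing_inv_mul M hdet) r) j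
    rw [Matrix.mul_apply, Matrix.one_apply] at h1
    rw [← h1]
    refine Finset.sum_congr rfl fun i _ => ?_
    rw [posDef_symm hM.inv i r]
  have hw : L w = ∑ j, (finBasis ℝ E₁).repr w j * L (finBasis ℝ E₁ j) := by
    conv_lhs => rw [← (finBasis ℝ E₁).sum_repr w]
    rw [map_sum]
    refine Finset.sum_congr rfl fun j _ => ?_
    rw [map_smul, smul_eq_mul]
  have h2 : mB M (gradM (finBasis ℝ E₁) M L) w =
      ∑ j, (finBasis ℝ E₁).repr w j * ∑ r, L (finBasis ℝ E₁ r) * ∑ i, M⁻¹ i r * M i j := by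
    unfold mB
    rw [Finset.sum_comm]
    refine Finset.sum_congr rfl fun j _ => ?_
    simp only [hr, Finset.mul_sum, Finset.sum_mul]
    rw [Finset.sum_comm]
    refine Finset.sum_congr rfl fun i _ => Finset.sum_congr rfl fun r _ => ?_
    ring
  rw [h2, hw]
  refine Finset.sum_congr rfl fun j _ => ?_
  simp only [hid, mul_ite, mul_one, mul_zero, Finset.sum_ite_eq', Finset.mem_univ, if_true]

/-- The trace of `ξ ⊗ η` by the data of the metric. -/
theorem sum_data {M : Matrix (Fin (finrank ℝ E₁)) (Fin (finrank ℝ E₁)) ℝ} (hM : M.PosDef)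
    {φ : κ → E₁ →L[ℝ] ℝ} {c : κ → κ → ℝ}
    (hdata : ∀ u v, mB M u v = ∑ k, ∑ l, c k l * (φ k u * φ l v)) (ξ η : E₁ →L[ℝ] ℝ) :
    ∑ k, ∑ l, c k l * (ξ (gradM (finBasis ℝ E₁) M (φ k)) *
      η (gradM (finBasis ℝ E₁) M (φ l))) = ξ (gradM (finBasis ℝ E₁) M η) := by
  have h1 := hdata (gradM (finBasis ℝ E₁) M ξ) (gradM (finBasis ℝ E₁) M η)
  rw [mB_gradM hM] at h1
  rw [h1]
  refine Finset.sum_congr rfl fun k _ => Finset.sum_congr rfl fun l _ => ?_
  rw [pair_gradM_symm hM ξ (φ k), pair_gradM_symm hM η (φ l)]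

/-- The trace of an antisymmetric form vanishes. -/
theorem anti_data {M : Matrix (Fin (finrank ℝ E₁)) (Fin (finrank ℝ E₁)) ℝ} (hM : M.PosDef)
    {φ : κ → E₁ →L[ℝ] ℝ} {c : κ → κ → ℝ}
    (hdata : ∀ u v, mB M u v = ∑ k, ∑ l, c k l * (φ k u * φ l v))
    (A : E₁ → E₁ →L[ℝ] ℝ) (hA : ∀ u v, A u v = -A v u) :
    ∑ k, ∑ l, c k l * A (gradM (finBasis ℝ E₁) M (φ l)) (gradM (finBasis ℝ E₁) M (φ k)) = 0 := by
  have h1 : ∀ u v, A u v = ∑ a, cd a u * A (finBasis ℝ E₁ a) v := by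
    intro u v
    rw [hA u v]
    conv_lhs => rw [← (finBasis ℝ E₁).sum_repr u]
    rw [map_sum, ← Finset.sum_neg_distrib]
    refine Finset.sum_congr rfl fun a _ => ?_
    rw [map_smul, smul_eq_mul, cd_apply, hA v]
    ring
  have h2 : ∀ k l, c k l * A (gradM (finBasis ℝ E₁) M (φ l)) (gradM (finBasis ℝ E₁) M (φ k)) =
      ∑ a, c k l * (A (finBasis ℝ E₁ a) (gradM (finBasis ℝ E₁) M (φ k)) *
        cd a (gradM (finBasis ℝ E₁) M (φ l))) := by
    intro k l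
    rw [h1, Finset.mul_sum]
    refine Finset.sum_congr rfl fun a _ => ?_
    ring
  have h3 : ∑ k, ∑ l, c k l * A (gradM (finBasis ℝ E₁) M (φ l)) (gradM (finBasis ℝ E₁) M (φ k)) =
      ∑ a, A (finBasis ℝ E₁ a) (gradM (finBasis ℝ E₁) M (cd a)) := by
    calc _ = ∑ k, ∑ l, ∑ a, c k l * (A (finBasis ℝ E₁ a) (gradM (finBasis ℝ E₁) M (φ k)) *
        cd a (gradM (finBasis ℝ E₁) M (φ l))) :=
          Finset.sum_congr rfl fun k _ => Finset.sum_congr rfl fun l _ => h2 k l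
      _ = ∑ k, ∑ a, ∑ l, c k l * (A (finBasis ℝ E₁ a) (gradM (finBasis ℝ E₁) M (φ k)) *
        cd a (gradM (finBasis ℝ E₁) M (φ l))) :=
          Finset.sum_congr rfl fun k _ => Finset.sum_comm
      _ = ∑ a, ∑ k, ∑ l, c k l * (A (finBasis ℝ E₁ a) (gradM (finBasis ℝ E₁) M (φ k)) *
        cd a (gradM (finBasis ℝ E₁) M (φ l))) := Finset.sum_comm
      _ = _ := Finset.sum_congr rfl fun a _ => sum_data hM hdata (A (finBasis ℝ E₁ a)) (cd a)
  rw [h3]
  have h4 : ∑ a, A (finBasis ℝ E₁ a) (gradM (finBasis ℝ E₁) M (cd a)) =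
      ∑ a, ∑ i, M⁻¹ i a * A (finBasis ℝ E₁ a) (finBasis ℝ E₁ i) := by
    refine Finset.sum_congr rfl fun a _ => ?_
    rw [pair_gradM]
    refine Finset.sum_congr rfl fun i _ => ?_
    have h5 : ∀ j, cd a (finBasis ℝ E₁ j) = if j = a then (1 : ℝ) else 0 := by
      intro j
      rw [cd_apply, Basis.repr_self, Finsupp.single_apply]
    simp only [h5, mul_ite, mul_one, mul_zero, Finset.sum_ite_eq', Finset.mem_univ, if_true]
  have h6 : ∑ a, ∑ i, M⁻¹ i a * A (finBasis ℝ E₁ a) (finBasis ℝ E₁ i) =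
      -∑ a, ∑ i, M⁻¹ i a * A (finBasis ℝ E₁ a) (finBasis ℝ E₁ i) := by
    conv_lhs => rw [Finset.sum_comm]
    rw [← Finset.sum_neg_distrib]
    refine Finset.sum_congr rfl fun i _ => ?_
    rw [← Finset.sum_neg_distrib]
    refine Finset.sum_congr rfl fun j _ => ?_
    rw [posDef_symm hM.inv i j, hA (finBasis ℝ E₁ j) (finBasis ℝ E₁ i)]
    ring
  rw [h4]
  linarith

end trace

omit [Fintype κ] in
theorem gradC_eq {E : Type*} [NormedAddCommGroup E] [NormedSpace ℝ E] [FiniteDimensional ℝ E]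
    (h : Curv.Coeff E) (W u : E → ℝ) (x : E) :
    gradC h W u x = fderiv ℝ W x (gradM (finBasis ℝ E) (h x) (fderiv ℝ u x)) := by
  unfold gradC gradM
  rw [map_sum]
  refine Finset.sum_congr rfl fun i _ => ?_
  rw [map_smul, smul_eq_mul, Finset.sum_mul]
  refine Finset.sum_congr rfl fun j _ => ?_
  change (h x)⁻¹ i j * (fderiv ℝ W x (finBasis ℝ E i) * fderiv ℝ u x (finBasis ℝ E j)) = _
  ring

omit [Fintype κ] in
/-- The gradient product with a function of `x`, at a point of differentiability. -/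
theorem grad_pt (Γ : E₁ × E₂ → E₁ →L[ℝ] E₂) {p : E₁ × E₂} (hh : (h p.1).PosDef)
    (hf : (f p).PosDef) {F : E₁ → ℝ} (hF : DifferentiableAt ℝ F p.1) (W : E₁ × E₂ → ℝ) :
    gradC (conn₀ h f Γ) W (fun p => F p.1) p =
      fderiv ℝ W p (lift Γ p (gradM (finBasis ℝ E₁) (h p.1) (fderiv ℝ F p.1))) := by
  have h1 : fderiv ℝ (fun p : E₁ × E₂ => F p.1) p =
      (fderiv ℝ F p.1).comp (ContinuousLinearMap.fst ℝ E₁ E₂) :=
    (hF.hasFDerivAt.comp p hasFDerivAt_fst).fderiv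
  rw [gradC_eq, h1, gradM_conn Γ hh hf]

end F6

theorem gradHC_eq (hD : Dat h f Γ α β q) (hN : NF Γ q)
    (hF : ∀ k, ContDiffAt ℝ ∞ (F k) q.1)
    (hdata : ∀ᶠ y in 𝓝 q.1, ∀ u v, mB (h y) u v =
      ∑ k, ∑ l, c k l y * (fderiv ℝ (F k) y u * fderiv ℝ (F l) y v))
    {φ χ : E₁ × E₂ → ℝ} (hφ : ContDiffAt ℝ ∞ φ q) (hχ : ContDiffAt ℝ ∞ χ q) :
    gradHC h f Γ F c φ χ q = gradC h (fun x => φ (x, q.2)) (fun x => χ (x, q.2)) q.1 := by
  have hM : (h q.1).PosDef := hD.h_pos.self_of_nhds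
  have hl : ∀ w : E₁, lift Γ q w = (w, 0) := by
    intro w
    unfold lift
    rw [hN.zero]
    rfl
  have e1 : ∀ {W : E₁ × E₂ → ℝ} (_ : ContDiffAt ℝ ∞ W q) (w : E₁),
      fderiv ℝ W q (w, 0) = fderiv ℝ (fun x => W (x, q.2)) q.1 w := fun hW w =>
    (Alg.slice1_fderiv hW w).symm
  unfold gradHC
  rw [F6.gradC_eq]
  simp only [grad_conn hD (hF _), hl, e1 hφ, e1 hχ]
  exact F6.sum_data hM hdata.self_of_nhds _ _

/-- Use `grad_conn`, `lap_conn` (near `q`), `Circ.divC_data` with `ξ x = D(φ(·, q.2))(x)`, and the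
antisymmetry of `DΓ(u, 0) v` (the terms `Dφ(0, DΓ(∇F_l, 0) ∇F_k)` cancel in the sum). -/
theorem lapHC_eq (hD : Dat h f Γ α β q) (hN : NF Γ q) (hM : Min f Γ q)
    (hF : ∀ k, ContDiffAt ℝ ∞ (F k) q.1) (hc : ∀ k l, ContDiffAt ℝ ∞ (c k l) q.1)
    (hdata : ∀ᶠ y in 𝓝 q.1, ∀ u v, mB (h y) u v =
      ∑ k, ∑ l, c k l y * (fderiv ℝ (F k) y u * fderiv ℝ (F l) y v))
    {φ : E₁ × E₂ → ℝ} (hφ : ContDiffAt ℝ ∞ φ q) :
    lapHC h f Γ F c φ q = lapC h (fun x => φ (x, q.2)) q.1 := by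
  have hMp : (h q.1).PosDef := hD.h_pos.self_of_nhds
  set g : κ → E₁ → E₁ := fun k x => gradM (finBasis ℝ E₁) (h x) (fderiv ℝ (F k) x) with hg
  have hgs : ∀ k, ContDiffAt ℝ ∞ (g k) q.1 := fun k =>
    gradM_contDiffAt (finBasis ℝ E₁) hD.h_smooth hMp.det_pos.ne'
      ((hF k).fderiv_right (m := ∞) (by simp))
  have hl : ∀ w : E₁, lift Γ q w = (w, 0) := by
    intro w
    unfold lift
    rw [hN.zero]
    rfl
  set Φ : κ → E₁ × E₂ → ℝ := fun k p => fderiv ℝ φ p (lift Γ p (g k p.1)) with hΦ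
  have hφ' : ContDiffAt ℝ ∞ (fderiv ℝ φ) q := hφ.fderiv_right (m := ∞) (by simp)
  have hgs2 : ∀ k, ContDiffAt ℝ ∞ (fun p : E₁ × E₂ => g k p.1) q := fun k =>
    ContDiffAt.comp (f := Prod.fst) (g := g k) q (hgs k) contDiffAt_fst
  have hcs : ∀ k l, ContDiffAt ℝ ∞ (fun p : E₁ × E₂ => c k l p.1) q := fun k l =>
    ContDiffAt.comp (f := Prod.fst) (g := c k l) q (hc k l) contDiffAt_fst
  have hΦs : ∀ k, ContDiffAt ℝ ∞ (Φ k) q := fun k =>
    hφ'.clm_apply ((hgs2 k).prodMk (hD.Γ_smooth.clm_apply (hgs2 k)))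
  -- near `q`
  have m1 : ∀ᶠ p : E₁ × E₂ in 𝓝 q, (h p.1).PosDef := (continuous_fst.tendsto q).eventually hD.h_pos
  have m2 : ∀ᶠ p : E₁ × E₂ in 𝓝 q, ∀ k, DifferentiableAt ℝ (F k) p.1 := by
    have h0 : ∀ᶠ x : E₁ in 𝓝 q.1, ∀ k, DifferentiableAt ℝ (F k) x := by
      rw [eventually_all]
      intro k
      have h1 : ContDiffAt ℝ 1 (F k) q.1 := (hF k).of_le (by norm_num)
      filter_upwards [h1.eventually (by simp)] with x hx
      exact hx.differentiableAt (by norm_num)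
    exact (continuous_fst.tendsto q).eventually h0
  have hev : ∀ k, (fun p => gradC (conn₀ h f Γ) φ (fun p => F k p.1) p) =ᶠ[𝓝 q] Φ k := by
    intro k
    filter_upwards [m1, m2, hD.f_pos] with p p1 p2 p3
    exact F6.grad_pt Γ p1 p3 (p2 k) φ
  -- the slice
  set ξ : E₁ → E₁ →L[ℝ] ℝ := fderiv ℝ (fun x => φ (x, q.2)) with hξ
  have hξs : ContDiffAt ℝ ∞ ξ q.1 :=
    (Alg.slice1_contDiffAt hφ).fderiv_right (m := ∞) (by simp)
  have hφd : ∀ᶠ x in 𝓝 q.1, DifferentiableAt ℝ φ (x, q.2) := by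
    have h1 : ContDiffAt ℝ 1 φ q := hφ.of_le (by norm_num)
    have h2 : Tendsto (fun x : E₁ => (x, q.2)) (𝓝 q.1) (𝓝 q) := by
      have : Continuous fun x : E₁ => (x, q.2) := by fun_prop
      exact this.tendsto q.1
    filter_upwards [h2.eventually (h1.eventually (by simp))] with x hx
    exact hx.differentiableAt (by norm_num)
  set R : κ → E₁ → ℝ := fun k x => fderiv ℝ φ (x, q.2) (0, Γ (x, q.2) (g k x)) with hR
  have hsplit : ∀ k, (fun x => Φ k (x, q.2)) =ᶠ[𝓝 q.1] fun x => ξ x (g k x) + R k x := by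
    intro k
    filter_upwards [hφd] with x hx
    have h1 : ξ x (g k x) = fderiv ℝ φ (x, q.2) (g k x, 0) := by
      rw [hξ, (Alg.slice1_hasFDerivAt hx).fderiv]
      rfl
    rw [h1]
    have h2 : ((g k x, Γ (x, q.2) (g k x)) : E₁ × E₂) =
        (g k x, 0) + (0, Γ (x, q.2) (g k x)) := by simp
    show fderiv ℝ φ (x, q.2) (g k x, Γ (x, q.2) (g k x)) =
      fderiv ℝ φ (x, q.2) (g k x, 0) + fderiv ℝ φ (x, q.2) (0, Γ (x, q.2) (g k x))
    rw [h2, map_add]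
  have hq2 : (q.1, q.2) = q := rfl
  have hRd : ∀ k, HasFDerivAt (R k) ((fderiv ℝ φ q).comp ((ContinuousLinearMap.inr ℝ E₁ E₂).comp
      (((fderiv ℝ Γ q).comp (ContinuousLinearMap.inl ℝ E₁ E₂)).flip (g k q.1)))) q.1 := by
    intro k
    have a0 : HasFDerivAt (fun x : E₁ => (x, q.2)) (ContinuousLinearMap.inl ℝ E₁ E₂) q.1 :=
      (hasFDerivAt_id q.1).prodMk (hasFDerivAt_const q.2 q.1)
    have a1 : HasFDerivAt (fun x => fderiv ℝ φ (x, q.2))
        ((fderiv ℝ (fderiv ℝ φ) q).comp (ContinuousLinearMap.inl ℝ E₁ E₂)) q.1 :=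
      HasFDerivAt.comp (g := fderiv ℝ φ) (f := fun x : E₁ => (x, q.2)) q.1
        (hφ'.differentiableAt (by simp)).hasFDerivAt a0
    have a2 : HasFDerivAt (fun x => Γ (x, q.2))
        ((fderiv ℝ Γ q).comp (ContinuousLinearMap.inl ℝ E₁ E₂)) q.1 :=
      HasFDerivAt.comp (g := Γ) (f := fun x : E₁ => (x, q.2)) q.1
        (hD.Γ_smooth.differentiableAt (by simp)).hasFDerivAt a0
    have a3 := a2.clm_apply ((hgs k).differentiableAt (by simp)).hasFDerivAt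
    have a4 := a1.clm_apply ((hasFDerivAt_const (0 : E₁) q.1).prodMk a3)
    refine a4.congr_fderiv ?_
    refine ContinuousLinearMap.ext fun w => ?_
    simp only [_root_.add_apply, ContinuousLinearMap.comp_apply, ContinuousLinearMap.flip_apply,
      ContinuousLinearMap.prod_apply, _root_.zero_apply, hq2, hN.zero,
      ContinuousLinearMap.inr_apply]
    have hz2 : ((0 : E₁), (0 : E₂)) = 0 := rfl
    rw [hz2, map_zero, add_zero, zero_add]
  have hR0 : ∀ k, R k q.1 = 0 := by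
    intro k
    show fderiv ℝ φ q (0, Γ q (g k q.1)) = 0
    rw [hN.zero]
    exact map_zero (fderiv ℝ φ q)
  have hterm : ∀ k l, gradC (conn₀ h f Γ)
      (fun p => c k l p.1 * gradC (conn₀ h f Γ) φ (fun p => F k p.1) p) (fun p => F l p.1) q +
      c k l q.1 * gradC (conn₀ h f Γ) φ (fun p => F k p.1) q *
        lapC (conn₀ h f Γ) (fun p => F l p.1) q =
      (fderiv ℝ (fun y => c k l y * ξ y (g k y)) q.1 (g l q.1) +
        c k l q.1 * ξ q.1 (g k q.1) * lapC h (F l) q.1) +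
      c k l q.1 * fderiv ℝ φ q (0, fderiv ℝ Γ q (g l q.1, 0) (g k q.1)) := by
    intro k l
    have h1 : (fun p : E₁ × E₂ => c k l p.1 * gradC (conn₀ h f Γ) φ (fun p => F k p.1) p) =ᶠ[𝓝 q]
        fun p => c k l p.1 * Φ k p := by
      filter_upwards [hev k] with p hp
      rw [hp]
    have h2 : gradC (conn₀ h f Γ) φ (fun p => F k p.1) q = ξ q.1 (g k q.1) := by
      have h3' : gradC (conn₀ h f Γ) φ (fun p => F k p.1) q = Φ k q := (hev k).self_of_nhds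
      have h3 : Φ k (q.1, q.2) = ξ q.1 (g k q.1) + R k q.1 := (hsplit k).self_of_nhds
      rw [hR0, add_zero] at h3
      exact h3'.trans h3
    rw [grad_conn hD (hF l), lap_conn hD (hF l), hM.self_of_nhds, add_zero, h2, h1.fderiv_eq, hl]
    have h4 := Alg.slice1_fderiv ((hcs k l).mul (hΦs k)) (g l q.1)
    have h5 : (fun x => c k l x * Φ k (x, q.2)) =ᶠ[𝓝 q.1]
        fun x => c k l x * ξ x (g k x) + c k l x * R k x := by
      filter_upwards [hsplit k] with x hx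
      rw [hx]
      ring
    have h6 : fderiv ℝ (fun p : E₁ × E₂ => c k l p.1 * Φ k p) q (g l q.1, 0) =
        fderiv ℝ (fun x => c k l x * Φ k (x, q.2)) q.1 (g l q.1) := h4.symm
    have hcd : DifferentiableAt ℝ (c k l) q.1 := (hc k l).differentiableAt (by simp)
    have hξd : DifferentiableAt ℝ (fun x => ξ x (g k x)) q.1 :=
      (hξs.clm_apply (hgs k)).differentiableAt (by simp)
    have h7 : HasFDerivAt (fun x => c k l x * ξ x (g k x) + c k l x * R k x)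
        (fderiv ℝ (fun x => c k l x * ξ x (g k x)) q.1 +
          (c k l q.1 • ((fderiv ℝ φ q).comp ((ContinuousLinearMap.inr ℝ E₁ E₂).comp
      (((fderiv ℝ Γ q).comp (ContinuousLinearMap.inl ℝ E₁ E₂)).flip (g k q.1)))) +
          R k q.1 • fderiv ℝ (c k l) q.1)) q.1 :=
      (hcd.mul hξd).hasFDerivAt.add (hcd.hasFDerivAt.mul (hRd k))
    rw [h6, h5.fderiv_eq, h7.fderiv, hR0]
    simp
    ring
  unfold lapHC
  simp only [hterm, Finset.sum_add_distrib]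
  have hdiv := Circ.divC_data hD.h_smooth hD.h_pos hξs hF hc hdata
  simp only [Finset.sum_add_distrib] at hdiv
  have hanti := F6.anti_data hMp (φ := fun k => fderiv ℝ (F k) q.1) (c := fun k l => c k l q.1)
    hdata.self_of_nhds
    (fun u => (fderiv ℝ φ q).comp ((ContinuousLinearMap.inr ℝ E₁ E₂).comp (fderiv ℝ Γ q (u, 0))))
    (by
      intro u v
      simp only [ContinuousLinearMap.comp_apply]
      rw [hN.anti u v, map_neg, map_neg])
  rw [hdiv]
  have h8 : ∑ k, ∑ l, c k l q.1 * fderiv ℝ φ q (0, fderiv ℝ Γ q (g l q.1, 0) (g k q.1)) = 0 :=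
    hanti
  rw [h8, add_zero]
  rfl

end Pool.Agent.Lib.MP_df705a_gt.Fib
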