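import Pool.Agent.Lib.MP_df705a_gt.Fib.GradSplit

/-!
# TASK F8: the Laplacian splits in normal form
-/

open scoped Manifold ContDiff Topology
open Set Bundle Module Filter

noncomputable section

namespace Pool.Agent.Lib.MP_df705a_gt.Fib

open Pool.Agent.Lib.MP_df705a_gt.Twist Pool.Agent.Lib.MP_df705a_gt.Perm
open Pool.Agent.Lib.MP_df705a_gt.Sub (mB connMetric expn hd lift Dat)
open Pool.Agent.Lib.MP_df705a_gt.Circ (Horizontal Submersion HorAt cf Para)

namespace LapSplitAux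

open Pool.Agent.Lib.MP_df705a_gt.Twist.Alg

/-- The Laplacian does not depend on the basis. -/
theorem lap_basis' {V : Type*} [AddCommGroup V] [Module ℝ V] {ι κ : Type*} [Fintype ι]
    [DecidableEq ι] [Fintype κ] [DecidableEq κ] {e : Basis ι ℝ V} {f : Basis κ ℝ V} {h : Bil V}
    (he : Nondeg e h) (hf : Nondeg f h) (D : V →ₗ[ℝ] Bil V) (f1 : V →ₗ[ℝ] ℝ)
    (f2 : Bil V) : lap e h D f1 f2 = lap f h D f1 f2 := by
  obtain ⟨x, hx⟩ := exists_rep he f1
  have h1 : (f1 : V → ℝ) = h x := funext fun v => (hx v).symm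
  have h2 : ∀ u v, chr D u v x = (2⁻¹ : ℝ) * (D u v x + D v u x - D x u v) := by
    intro u v
    rw [chr_apply]
    ring
  have h3 : ∀ u v, f2 u v - cop e h (chr D u v) f1 =
      (f2 - (2⁻¹ : ℝ) • ((D.flip.flip.compr₂ (LinearMap.applyₗ x)) +
        (D.flip.compr₂ (LinearMap.applyₗ x)) - D x) : Bil V) u v := by
    intro u v
    rw [h1, cop_form_right he, h2]
    simp [LinearMap.compr₂_apply]
  have h4 : ∀ u v, f2 u v - cop f h (chr D u v) f1 =
      (f2 - (2⁻¹ : ℝ) • ((D.flip.flip.compr₂ (LinearMap.applyₗ x)) +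
        (D.flip.compr₂ (LinearMap.applyₗ x)) - D x) : Bil V) u v := by
    intro u v
    rw [h1, cop_form_right hf, h2]
    simp [LinearMap.compr₂_apply]
  unfold lap
  rw [tr_congr h3, tr_congr h4]
  exact tr_basis he hf _

theorem form_moving {X : Type*} [NormedAddCommGroup X] [NormedSpace ℝ X]
    {E : Type*} [NormedAddCommGroup E] [NormedSpace ℝ E] [FiniteDimensional ℝ E]
    {F : X → Matrix (Fin (finrank ℝ E)) (Fin (finrank ℝ E)) ℝ} {a b : X → E}
    {a' b' : X →L[ℝ] E} {q : X} (hF : ∀ i j, DifferentiableAt ℝ (fun p => F p i j) q)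
    (ha : HasFDerivAt a a' q) (hb : HasFDerivAt b b' q) (u : X) :
    fderiv ℝ (fun p => mB (F p) (a p) (b p)) q u =
      mkD (finBasis ℝ E) (j1 (fun i j y => F y i j) q) u (a q) (b q) +
        (mkB (finBasis ℝ E) (fun i j => F q i j) (a' u) (b q) +
          mkB (finBasis ℝ E) (fun i j => F q i j) (a q) (b' u)) := by
  have hca : ∀ i, HasFDerivAt (fun p => (finBasis ℝ E).repr (a p) i)
      ((LinearMap.toContinuousLinearMap ((finBasis ℝ E).coord i)).comp a') q := fun i =>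
    (LinearMap.toContinuousLinearMap ((finBasis ℝ E).coord i)).hasFDerivAt.comp q ha
  have hcb : ∀ i, HasFDerivAt (fun p => (finBasis ℝ E).repr (b p) i)
      ((LinearMap.toContinuousLinearMap ((finBasis ℝ E).coord i)).comp b') q := fun i =>
    (LinearMap.toContinuousLinearMap ((finBasis ℝ E).coord i)).hasFDerivAt.comp q hb
  have key : HasFDerivAt (fun p => mB (F p) (a p) (b p)) _ q :=
    HasFDerivAt.fun_sum fun i _ => HasFDerivAt.fun_sum fun j _ =>
      (hF i j).hasFDerivAt.mul ((hca i).mul (hcb j))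
  rw [key.fderiv, mkD_apply, mkB_apply, mkB_apply, ← Finset.sum_add_distrib,
    ← Finset.sum_add_distrib]
  simp only [_root_.sum_apply, _root_.add_apply, _root_.smul_apply, smul_eq_mul,
    ContinuousLinearMap.comp_apply, LinearMap.coe_toContinuousLinearMap', Basis.coord_apply]
  refine Finset.sum_congr rfl fun i _ => ?_
  rw [← Finset.sum_add_distrib, ← Finset.sum_add_distrib]
  refine Finset.sum_congr rfl fun j _ => ?_
  rw [j1_apply]
  ring

variable {E₁ : Type*} [NormedAddCommGroup E₁] [NormedSpace ℝ E₁] [FiniteDimensional ℝ E₁]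
  {E₂ : Type*} [NormedAddCommGroup E₂] [NormedSpace ℝ E₂] [FiniteDimensional ℝ E₂]
  {h : Curv.Coeff E₁} {f : E₁ × E₂ → Matrix (Fin (finrank ℝ E₂)) (Fin (finrank ℝ E₂)) ℝ}
  {Γ : E₁ × E₂ → E₁ →L[ℝ] E₂} {α β : E₁ × E₂ → ℝ} {q : E₁ × E₂}

theorem conn0_fD (hD : Dat h f Γ α β q) (hΓ : Γ q = 0) (u v w : E₁ × E₂) :
    fD (conn₀ h f Γ) q u v w =
      fD h q.1 u.1 v.1 w.1 + mkD (finBasis ℝ E₂) (j1 (fun i j y => f y i j) q) u v.2 w.2 -
        mkB (finBasis ℝ E₂) (fun i j => f q i j) (fderiv ℝ Γ q u v.1) w.2 -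
        mkB (finBasis ℝ E₂) (fun i j => f q i j) v.2 (fderiv ℝ Γ q u w.1) := by
  have hΓd : HasFDerivAt Γ (fderiv ℝ Γ q) q :=
    (hD.Γ_smooth.differentiableAt (by norm_num)).hasFDerivAt
  set P : Bil E₂ := mkB (finBasis ℝ E₂) (fun i j => f q i j) with hP
  set G : E₁ →ₗ[ℝ] E₂ := (fderiv ℝ Γ q u : E₁ →ₗ[ℝ] E₂) with hG
  have key : fD (conn₀ h f Γ) q u =
      (fD h q.1 u.1).compl₁₂ (LinearMap.fst ℝ E₁ E₂) (LinearMap.fst ℝ E₁ E₂) +
      (mkD (finBasis ℝ E₂) (j1 (fun i j y => f y i j) q) u).compl₁₂ (LinearMap.snd ℝ E₁ E₂)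
        (LinearMap.snd ℝ E₁ E₂) -
      P.compl₁₂ (G.comp (LinearMap.fst ℝ E₁ E₂)) (LinearMap.snd ℝ E₁ E₂) -
      P.compl₁₂ (LinearMap.snd ℝ E₁ E₂) (G.comp (LinearMap.fst ℝ E₁ E₂)) := by
    refine LinearMap.ext_basis (finBasis ℝ (E₁ × E₂)) (finBasis ℝ (E₁ × E₂)) fun i j => ?_
    rw [mkD_basis, j1_apply]
    set bi := finBasis ℝ (E₁ × E₂) i with hbi
    set bj := finBasis ℝ (E₁ × E₂) j with hbj
    have h1 : (fun p => conn₀ h f Γ p i j) = fun p =>
        mB (h p.1) bi.1 bj.1 + mB (f p) (bi.2 - Γ p bi.1) (bj.2 - Γ p bj.1) := by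
      funext p
      simp only [conn₀, connMetric, Real.exp_zero, one_pow, one_mul, hbi, hbj]
    have ha : HasFDerivAt (fun p => bi.2 - Γ p bi.1)
        (-(((fderiv ℝ Γ q).flip) bi.1)) q := by
      have h2 : HasFDerivAt (fun p => Γ p bi.1) (((fderiv ℝ Γ q).flip) bi.1) q := by
        have := hΓd.clm_apply (hasFDerivAt_const bi.1 q)
        simpa using this
      simpa using (hasFDerivAt_const bi.2 q).fun_sub h2
    have hb : HasFDerivAt (fun p => bj.2 - Γ p bj.1)
        (-(((fderiv ℝ Γ q).flip) bj.1)) q := by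
      have h2 : HasFDerivAt (fun p => Γ p bj.1) (((fderiv ℝ Γ q).flip) bj.1) q := by
        have := hΓd.clm_apply (hasFDerivAt_const bj.1 q)
        simpa using this
      simpa using (hasFDerivAt_const bj.2 q).fun_sub h2
    have hfd : ∀ i j, DifferentiableAt ℝ (fun p => f p i j) q := fun i j =>
      (hD.f_smooth i j).differentiableAt (by norm_num)
    have hhd : ∀ i j, DifferentiableAt ℝ (fun p : E₁ × E₂ => h p.1 i j) q := fun i j =>
      ((hD.h_smooth i j).differentiableAt (by norm_num)).comp q differentiableAt_fst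
    have c1 : DifferentiableAt ℝ (fun p : E₁ × E₂ => mB (h p.1) bi.1 bj.1) q := by
      unfold mB
      exact DifferentiableAt.fun_sum fun i _ => DifferentiableAt.fun_sum fun j _ =>
        (hhd i j).mul_const _
    have hca : ∀ (a : E₁ × E₂ → E₂) (a' : (E₁ × E₂) →L[ℝ] E₂), HasFDerivAt a a' q → ∀ i,
        DifferentiableAt ℝ (fun p => (finBasis ℝ E₂).repr (a p) i) q := fun a a' ha i =>
      ((LinearMap.toContinuousLinearMap ((finBasis ℝ E₂).coord i)).hasFDerivAt.comp q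
        ha).differentiableAt
    have c2 : DifferentiableAt ℝ (fun p : E₁ × E₂ =>
        mB (f p) (bi.2 - Γ p bi.1) (bj.2 - Γ p bj.1)) q := by
      unfold mB
      exact DifferentiableAt.fun_sum fun i _ => DifferentiableAt.fun_sum fun j _ =>
        (hfd i j).mul ((hca _ _ ha i).mul (hca _ _ hb j))
    have e1 : fderiv ℝ (fun p : E₁ × E₂ => mB (h p.1) bi.1 bj.1) q u =
        fD h q.1 u.1 bi.1 bj.1 := by
      have h2 := form_moving (F := h) (a := fun _ => bi.1) (b := fun _ => bj.1) (a' := 0)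
        (b' := 0) (q := q.1) (fun i j => (hD.h_smooth i j).differentiableAt (by norm_num))
        (hasFDerivAt_const _ _) (hasFDerivAt_const _ _) u.1
      have h3 : fderiv ℝ (fun p : E₁ × E₂ => mB (h p.1) bi.1 bj.1) q u =
          fderiv ℝ (fun x => mB (h x) bi.1 bj.1) q.1 u.1 := by
        have hd1 : DifferentiableAt ℝ (fun x => mB (h x) bi.1 bj.1) q.1 := by
          unfold mB
          exact DifferentiableAt.fun_sum fun i _ => DifferentiableAt.fun_sum fun j _ =>
            ((hD.h_smooth i j).differentiableAt (by norm_num)).mul_const _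
        have := (hd1.hasFDerivAt.comp q hasFDerivAt_fst)
        have h4 : fderiv ℝ (fun p : E₁ × E₂ => mB (h p.1) bi.1 bj.1) q = _ := this.fderiv
        rw [h4]
        rfl
      rw [h3, h2]
      simp
    rw [h1, fderiv_fun_add c1 c2, _root_.add_apply, e1, form_moving hfd ha hb u]
    simp only [hΓ, _root_.zero_apply, sub_zero, LinearMap.sub_apply, LinearMap.add_apply,
      LinearMap.compl₁₂_apply, LinearMap.fst_apply, LinearMap.snd_apply, LinearMap.comp_apply,
      _root_.neg_apply, ContinuousLinearMap.flip_apply, map_neg, LinearMap.neg_apply]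
    rw [hG, hP]
    simp only [ContinuousLinearMap.coe_coe]
    ring
  rw [key]
  rfl

end LapSplitAux

open LapSplitAux GradSplitAux

variable {E₁ : Type*} [NormedAddCommGroup E₁] [NormedSpace ℝ E₁] [FiniteDimensional ℝ E₁]
  {E₂ : Type*} [NormedAddCommGroup E₂] [NormedSpace ℝ E₂] [FiniteDimensional ℝ E₂]
  {h : Curv.Coeff E₁} {f : E₁ × E₂ → Matrix (Fin (finrank ℝ E₂)) (Fin (finrank ℝ E₂)) ℝ}
  {Γ : E₁ × E₂ → E₁ →L[ℝ] E₂} {α β : E₁ × E₂ → ℝ} {q : E₁ × E₂}

open Pool.Agent.Lib.MP_df705a_gt.Twist.Alg in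
/-- First order computation at `q`: `g^{ij} Γ_{ij,k}` for the metric `conn₀ h f Γ` in normal form,
where `∂_u log det f = 0`. -/
theorem lapC_split (hD : Dat h f Γ α β q) (hN : NF Γ q)
    (h1 : ∀ u : E₁, fderiv ℝ (fun p => Real.log (f p).det) q (u, 0) = 0)
    {φ : E₁ × E₂ → ℝ} (hφ : ContDiffAt ℝ ∞ φ q) :
    lapC (conn₀ h f Γ) φ q =
      lapC h (fun x => φ (x, q.2)) q.1 +
      lapC (fun y => f (q.1, y)) (fun y => φ (q.1, y)) q.2 := by
  have hh := hD.h_pos.self_of_nhds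
  have hf := hD.f_pos.self_of_nhds
  have hΓ := hN.zero
  have n1 := nondeg_prod_at (h := h) (f := f) hΓ hh hf
  have n2 := nondeg_basis (finBasis ℝ (E₁ × E₂)) n1
  have nh := nondeg_mkB (E := E₁) hh
  have nf := nondeg_mkB (E := E₂) hf
  set H : Bil E₁ := mkB (finBasis ℝ E₁) fun i j => h q.1 i j with hHdef
  set K : Bil E₂ := mkB (finBasis ℝ E₂) fun i j => f q i j with hKdef
  set DF : (E₁ × E₂) →ₗ[ℝ] Bil E₂ := mkD (finBasis ℝ E₂) (j1 (fun i j y => f y i j) q) with hDF
  set D := fD (conn₀ h f Γ) q with hDdef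
  have hDa : ∀ u v w : E₁ × E₂, D u v w = fD h q.1 u.1 v.1 w.1 + DF u v.2 w.2 -
      K (fderiv ℝ Γ q u v.1) w.2 - K v.2 (fderiv ℝ Γ q u w.1) := fun u v w => conn0_fD hD hΓ u v w
  set φ1 : (E₁ × E₂) →ₗ[ℝ] ℝ := (fderiv ℝ φ q : (E₁ × E₂) →ₗ[ℝ] ℝ) with hφ1
  set φ2 := toL2 (fderiv ℝ (fderiv ℝ φ) q) with hφ2
  -- the trace of the derivative of the fibre metric
  have htr : ∀ x : E₁, tr (finBasis ℝ E₂) K (fun v w => DF (x, 0) v w) = 0 := by
    intro x
    have hf1 : ∀ i j, ContDiffAt ℝ 1 (fun y => f y i j) q := fun i j =>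
      (hD.f_smooth i j).of_le (by norm_num)
    have hdet : ContDiffAt ℝ ∞ (fun p => (f p).det) q := contDiffAt_det hD.f_smooth
    have hpos : 0 < (f q).det := hf.det_pos
    have h2 : fderiv ℝ (fun p => (f p).det) q (x, 0) = 0 := by
      have h3 := ((hdet.differentiableAt (by norm_num)).hasFDerivAt.log hpos.ne').fderiv
      have h4 := h1 x
      rw [h3, _root_.smul_apply, smul_eq_mul] at h4
      exact (mul_eq_zero.1 h4).resolve_left (inv_ne_zero hpos.ne')
    have h5 := det_dir1 hf1 hD.f_pos h2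
    have h6 : gram (finBasis ℝ E₂) K = f q := gram_mkB _ _
    unfold tr
    rw [h6, ← h5]
    refine Finset.sum_congr rfl fun i _ => Finset.sum_congr rfl fun j _ => ?_
    exact congrArg _ (mkD_basis (finBasis ℝ E₂) (j1 (fun i j y => f y i j) q) (x, 0) i j)
  have c11 : ∀ u v x : E₁, chr D (u, 0) (v, 0) (x, 0) = chr (fD h q.1) u v x := by
    intro u v x
    rw [chr_apply, chr_apply, hDa, hDa, hDa]
    simp
  have c12 : ∀ (u v : E₁) (y : E₂), chr D (u, 0) (v, 0) (0, y) = 0 := by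
    intro u v y
    rw [chr_apply, hDa, hDa, hDa]
    have h2 := hN.anti u v
    simp [h2]
  have c21 : ∀ (u v : E₂) (x : E₁), chr D (0, u) (0, v) (x, 0) = (-(1 / 2)) * DF (x, 0) u v := by
    intro u v x
    rw [chr_apply, hDa, hDa, hDa]
    simp [hN.dy]
    ring
  have c22 : ∀ u v y : E₂, chr D (0, u) (0, v) (0, y) = chr (r2 DF) u v y := by
    intro u v y
    rw [chr_apply, chr_apply, hDa, hDa, hDa]
    simp [hN.dy, r2]
  rw [lapC_link hφ, lap_basis' n2 n1]
  unfold lap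
  rw [tr_prod nh nf (fun u v => form_at hΓ u v)]
  have A1 : tr (finBasis ℝ E₁) H (fun u v => φ2 (u, 0) (v, 0) -
      cop ((finBasis ℝ E₁).prod (finBasis ℝ E₂)) (fB (conn₀ h f Γ) q) (chr D (u, 0) (v, 0)) φ1) =
      lapC h (fun x => φ (x, q.2)) q.1 := by
    rw [lapC_link (slice1_contDiffAt hφ)]
    unfold lap
    refine tr_congr fun u v => ?_
    rw [cop_prod nh nf (fun u v => form_at hΓ u v)]
    have e1 : (fun y => chr D (u, 0) (v, 0) (0, y)) = 0 := funext fun y => c12 u v y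
    rw [e1, cop_zero_left, add_zero]
    congr 1
    · exact (slice1_fderiv2 hφ u v).symm
    · exact cop_congr (fun x => c11 u v x) fun x => (slice1_fderiv hφ x).symm
  have A2 : tr (finBasis ℝ E₂) K (fun u v => φ2 (0, u) (0, v) -
      cop ((finBasis ℝ E₁).prod (finBasis ℝ E₂)) (fB (conn₀ h f Γ) q) (chr D (0, u) (0, v)) φ1) =
      lapC (fun y => f (q.1, y)) (fun y => φ (q.1, y)) q.2 := by
    rw [lapC_link (h := fun y => f (q.1, y)) (slice2_contDiffAt hφ), slice2_fD hD.f_smooth]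
    unfold lap
    have e0 : ∀ u v : E₂, cop ((finBasis ℝ E₁).prod (finBasis ℝ E₂)) (fB (conn₀ h f Γ) q)
        (chr D (0, u) (0, v)) φ1 = cop (finBasis ℝ E₁) H (fun x => (-(1 / 2)) * DF (x, 0) u v)
          (fun x => φ1 (x, 0)) + cop (finBasis ℝ E₂) K (chr (r2 DF) u v) (fun y => φ1 (0, y)) := by
      intro u v
      rw [cop_prod nh nf (fun u v => form_at hΓ u v)]
      congr 1
      · exact cop_congr (fun x => c21 u v x) fun x => rfl
      · exact cop_congr (fun x => c22 u v x) fun x => rfl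
    simp only [e0]
    have e2 : tr (finBasis ℝ E₂) K (fun u v => cop (finBasis ℝ E₁) H
        (fun x => (-(1 / 2)) * DF (x, 0) u v) (fun x => φ1 (x, 0))) = 0 := by
      rw [tr_cop_left (T := fun u v x => (-(1 / 2)) * DF (x, 0) u v)]
      have e3 : (fun x => tr (finBasis ℝ E₂) K fun v w => (-(1 / 2)) * DF (x, 0) v w) = 0 := by
        funext x
        rw [tr_const_mul, htr]
        simp
      rw [e3, cop_zero_left]
    have e4 : ∀ u v : E₂, φ2 (0, u) (0, v) - (cop (finBasis ℝ E₁) H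
        (fun x => (-(1 / 2)) * DF (x, 0) u v) (fun x => φ1 (x, 0)) +
          cop (finBasis ℝ E₂) K (chr (r2 DF) u v) (fun y => φ1 (0, y))) =
        (φ2 (0, u) (0, v) - cop (finBasis ℝ E₂) K (chr (r2 DF) u v) (fun y => φ1 (0, y))) -
          cop (finBasis ℝ E₁) H (fun x => (-(1 / 2)) * DF (x, 0) u v) (fun x => φ1 (x, 0)) := by
      intro u v
      ring
    simp only [e4]
    rw [tr_sub, e2, sub_zero]
    refine tr_congr fun u v => ?_
    congr 1
    · exact (slice2_fderiv2 hφ u v).symm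
    · exact cop_congr (fun x => rfl) fun x => (slice2_fderiv hφ x).symm
  rw [A1, A2]

end Pool.Agent.Lib.MP_df705a_gt.Fib
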