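import Pool.Agent.Lib.MP_df705a_gt.Fib.Block
import Pool.Agent.Lib.MP_df705a_gt.Fib.ConnScal
import Pool.Agent.Lib.MP_df705a_gt.Fib.ExpnD
import Pool.Agent.Lib.MP_df705a_gt.Fib.LapH
import Pool.Agent.Lib.MP_df705a_gt.Fib.LapSplit
import Pool.Agent.Lib.MP_df705a_gt.Mg.G062

/-!
# The local inequality in normal form
-/

open scoped Manifold ContDiff Topology
open Set Bundle Module Filter

noncomputable section

namespace Pool.Agent.Lib.MP_df705a_gt.Fib

open Pool.Agent.Lib.MP_df705a_gt.Twist Pool.Agent.Lib.MP_df705a_gt.Perm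
open Pool.Agent.Lib.MP_df705a_gt.Sub (mB connMetric expn hd lift Dat)
open Pool.Agent.Lib.MP_df705a_gt.Circ (Horizontal Submersion HorAt cf Para)

variable {E₁ : Type*} [NormedAddCommGroup E₁] [NormedSpace ℝ E₁] [FiniteDimensional ℝ E₁]
  {E₂ : Type*} [NormedAddCommGroup E₂] [NormedSpace ℝ E₂] [FiniteDimensional ℝ E₂]
  {h : Curv.Coeff E₁} {f : E₁ × E₂ → Matrix (Fin (finrank ℝ E₂)) (Fin (finrank ℝ E₂)) ℝ}
  {Γ : E₁ × E₂ → E₁ →L[ℝ] E₂} {α β : E₁ × E₂ → ℝ} {q : E₁ × E₂}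

variable {κ : Type*} [Fintype κ] {F : κ → E₁ → ℝ} {c : κ → κ → E₁ → ℝ}

theorem gradC_sub_left {E : Type*} [NormedAddCommGroup E] [NormedSpace ℝ E]
    [FiniteDimensional ℝ E] (h : Curv.Coeff E) {u v : E → ℝ} (w : E → ℝ) {x : E}
    (hu : DifferentiableAt ℝ u x) (hv : DifferentiableAt ℝ v x) :
    gradC h (fun x => u x - v x) w x = gradC h u w x - gradC h v w x := by
  unfold gradC
  rw [← Finset.sum_sub_distrib]
  refine Finset.sum_congr rfl fun i _ => ?_
  rw [← Finset.sum_sub_distrib]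
  refine Finset.sum_congr rfl fun j _ => ?_
  have h1 : Curv.pd i (fun x => u x - v x) x = Curv.pd i u x - Curv.pd i v x := by
    unfold Curv.pd
    rw [fderiv_fun_sub hu hv]
    rfl
  rw [h1]
  ring

theorem gradC_comm {E : Type*} [NormedAddCommGroup E] [NormedSpace ℝ E]
    [FiniteDimensional ℝ E] {h : Curv.Coeff E} {u v : E → ℝ} {x : E} (hh : (h x).PosDef) :
    gradC h u v x = gradC h v u x := by
  unfold gradC
  rw [Finset.sum_comm]
  refine Finset.sum_congr rfl fun i _ => Finset.sum_congr rfl fun j _ => ?_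
  have h1 : (h x)⁻¹ j i = (h x)⁻¹ i j := by
    have := hh.inv.isHermitian.apply i j
    simpa using this
  rw [h1]
  ring

theorem loc_ineq (hd₁ : 0 < finrank ℝ E₁) (hd₂ : 0 < finrank ℝ E₂) (hD : Dat h f Γ α β q)
    (hN : NF Γ q) (hM : Min f Γ q)
    (hF : ∀ k, ContDiffAt ℝ ∞ (F k) q.1) (hc : ∀ k l, ContDiffAt ℝ ∞ (c k l) q.1)
    (hdata : ∀ᶠ y in 𝓝 q.1, ∀ u v, mB (h y) u v =
      ∑ k, ∑ l, c k l y * (fderiv ℝ (F k) y u * fderiv ℝ (F l) y v))
    (hs : Curv.scal (fun y => f (q.1, y)) q.2 ≤ 0)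
    (u v : E₁ × E₂ → ℝ)
    (hu : u = fun q => ((finrank ℝ E₁ : ℝ) - 1) * α q + (finrank ℝ E₂ : ℝ) * β q)
    (hv : v = fun q => ((finrank ℝ E₂ : ℝ) - 1) * β q + (finrank ℝ E₁ : ℝ) * α q) :
    Real.exp (α q + β q) * Curv.scal (connMetric h f Γ α β) q +
      2 * Real.exp (β q - α q) *
        (lapHC h f Γ F c u q + (gradHC h f Γ F c u β q - gradHC h f Γ F c u α q)) +
      2 * Real.exp (α q - β q) *
        ((lapC (conn₀ h f Γ) v q - lapHC h f Γ F c v q) +
          ((gradC (conn₀ h f Γ) α v q - gradC (conn₀ h f Γ) β v q) -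
            (gradHC h f Γ F c v α q - gradHC h f Γ F c v β q))) ≤
    Real.exp (β q - α q) * (Curv.scal h q.1 -
        ((finrank ℝ E₁ : ℝ) - 1) * gradHC h f Γ F c α α q) := by
  have hα := hD.α_smooth
  have hβ := hD.β_smooth
  have hu' : ContDiffAt ℝ ∞ u q := by
    rw [hu]
    exact (contDiffAt_const.mul hα).add (contDiffAt_const.mul hβ)
  have hv' : ContDiffAt ℝ ∞ v q := by
    rw [hv]
    exact (contDiffAt_const.mul hβ).add (contDiffAt_const.mul hα)
  have h1 := fderiv_logdet hD hN hM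
  have h2 := trD_eq hD hN hM
  have h3 := scal_conn_le hD hN
  have hD0 : Dat h f 0 α β q :=
    ⟨hD.h_smooth, hD.f_smooth, contDiffAt_const, hD.α_smooth, hD.β_smooth, hD.h_pos, hD.f_pos⟩
  have h4 := block_ineq hd₁ hd₂ hD0 h1 u v hu hv
  have dx : ∀ {w : E₁ × E₂ → ℝ}, ContDiffAt ℝ ∞ w q →
      DifferentiableAt ℝ (fun x => w (x, q.2)) q.1 := by
    intro w hw
    have h5 : DifferentiableAt ℝ w (q.1, q.2) := hw.differentiableAt (by simp)
    exact h5.comp q.1 (differentiableAt_id.prodMk (differentiableAt_const _))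
  have dy : ∀ {w : E₁ × E₂ → ℝ}, ContDiffAt ℝ ∞ w q →
      DifferentiableAt ℝ (fun y => w (q.1, y)) q.2 := by
    intro w hw
    have h5 : DifferentiableAt ℝ w (q.1, q.2) := hw.differentiableAt (by simp)
    exact h5.comp q.2 ((differentiableAt_const _).prodMk differentiableAt_id)
  have hhq := hD.h_pos.self_of_nhds
  rw [gradC_sub_left h _ (dx hβ) (dx hα), gradC_sub_left _ _ (dy hα) (dy hβ)] at h4
  rw [lapHC_eq hD hN hM hF hc hdata hu', lapHC_eq hD hN hM hF hc hdata hv',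
    gradHC_eq hD hN hF hdata hu' hβ, gradHC_eq hD hN hF hdata hu' hα,
    gradHC_eq hD hN hF hdata hv' hα, gradHC_eq hD hN hF hdata hv' hβ,
    gradHC_eq hD hN hF hdata hα hα,
    gradC_comm (u := fun x => u (x, q.2)) (v := fun x => β (x, q.2)) hhq,
    gradC_comm (u := fun x => u (x, q.2)) (v := fun x => α (x, q.2)) hhq,
    gradC_comm (u := fun x => v (x, q.2)) (v := fun x => α (x, q.2)) hhq,
    gradC_comm (u := fun x => v (x, q.2)) (v := fun x => β (x, q.2)) hhq,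
    lapC_split hD hN h1 hv', gradC_split hD hN.zero hα hv', gradC_split hD hN.zero hβ hv']
  have h5 : 0 ≤ gradC (fun y => f (q.1, y)) (fun y => β (q.1, y)) (fun y => β (q.1, y)) q.2 :=
    G4.gradC_nonneg hD.f_pos.self_of_nhds
  have h6 : (0 : ℝ) ≤ (finrank ℝ E₂ : ℝ) - 1 := by
    have : (1 : ℝ) ≤ (finrank ℝ E₂ : ℝ) := by exact_mod_cast hd₂
    linarith
  have h7 : Real.exp (α q - β q) * (Curv.scal (fun y => f (q.1, y)) q.2 -
        ((finrank ℝ E₂ : ℝ) - 1) * gradC (fun y => f (q.1, y)) (fun y => β (q.1, y))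
          (fun y => β (q.1, y)) q.2) ≤ 0 := by
    refine mul_nonpos_of_nonneg_of_nonpos (Real.exp_pos _).le ?_
    have := mul_nonneg h6 h5
    linarith
  have h8 : Real.exp (α q + β q) * Curv.scal (connMetric h f Γ α β) q ≤
      Real.exp (α q + β q) * (Curv.scal (connMetric h f 0 α β) q +
        Real.exp (-(2 * α q)) * trD h f q) := by
    refine mul_le_mul_of_nonneg_left ?_ (Real.exp_pos _).le
    rw [h2]
    linarith
  linarith

end Pool.Agent.Lib.MP_df705a_gt.Fib
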