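import Pool.Agent.Lib.MP_df705a_gt.Circ.DataB
import Pool.Agent.Lib.MP_df705a_gt.Mg.G013
import Pool.Agent.Lib.MP_df705a_gt.Mg.G061
import Pool.Agent.Lib.MP_df705a_gt.Fib.CompAC
import Pool.Agent.Lib.MP_df705a_gt.Fib.CompGam
import Pool.Agent.Lib.MP_df705a_gt.Fib.FibredConn
import Pool.Agent.Lib.MP_df705a_gt.Fib.FibredSm
import Pool.Agent.Lib.MP_df705a_gt.Fib.GlobDefs
import Pool.Agent.Lib.MP_df705a_gt.Fib.Loc
import Pool.Agent.Lib.MP_df705a_gt.Fib.Normal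

/-!
# The inequality on the manifold
-/

open scoped Manifold ContDiff Topology
open Set Bundle Module Filter

noncomputable section

namespace Pool.Agent.Lib.MP_df705a_gt.Fib

open Pool.Agent.Lib.MP_df705a_gt.Twist Pool.Agent.Lib.MP_df705a_gt.Perm
open Pool.Agent.Lib.MP_df705a_gt.Sub (mB connMetric expn hd lift Dat)
open Pool.Agent.Lib.MP_df705a_gt.Circ (Horizontal Submersion HorAt cf Para)

theorem lapC_congr_metric {E' : Type*} [NormedAddCommGroup E'] [NormedSpace ℝ E']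
    [FiniteDimensional ℝ E'] {h h' : Curv.Coeff E'} {u : E' → ℝ} {x : E'} (hh : h =ᶠ[𝓝 x] h') :
    lapC h u x = lapC h' u x := by
  have h1 : ∀ i j k, Curv.christoffel h i j k x = Curv.christoffel h' i j k x :=
    fun i j k => christoffel_congr hh i j k
  unfold lapC Curv.covHess
  simp only [h1, hh.self_of_nhds]

theorem gradC_congr_metric {E' : Type*} [NormedAddCommGroup E'] [NormedSpace ℝ E']
    [FiniteDimensional ℝ E'] {h h' : Curv.Coeff E'} {u v : E' → ℝ} {x : E'} (hh : h x = h' x) :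
    gradC h u v x = gradC h' u v x := by
  unfold gradC
  rw [hh]

variable {E₁ : Type*} [NormedAddCommGroup E₁] [NormedSpace ℝ E₁] [FiniteDimensional ℝ E₁]
  {B : Type*} [TopologicalSpace B] [ChartedSpace E₁ B] [IsManifold 𝓘(ℝ, E₁) ∞ B]
  {E : Type*} [NormedAddCommGroup E] [NormedSpace ℝ E] [FiniteDimensional ℝ E]
  {M : Type*} [TopologicalSpace M] [ChartedSpace E M] [IsManifold 𝓘(ℝ, E) ∞ M]

theorem biconformal_self {g₀ : ContMDiffRiemannianMetric 𝓘(ℝ, E) ∞ E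
      (fun x : M => TangentSpace 𝓘(ℝ, E) x)} {pr : M → B} :
    Biconformal E₁ g₀ g₀ pr (fun p => Real.exp ((fun _ => (0 : ℝ)) p))
      (fun p => Real.exp ((fun _ => (0 : ℝ)) p)) := by
  intro p u v w z hu hv hw hz
  have h1 : g₀.inner p (u + w) (v + z) = g₀.inner p u v + g₀.inner p u z +
      (g₀.inner p w v + g₀.inner p w z) := by
    have e1 : g₀.inner p (u + w) = g₀.inner p u + g₀.inner p w := map_add _ _ _
    have e2 : g₀.inner p u (v + z) = g₀.inner p u v + g₀.inner p u z := map_add _ _ _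
    have e3 : g₀.inner p w (v + z) = g₀.inner p w v + g₀.inner p w z := map_add _ _ _
    rw [e1, ← e2, ← e3]
    rfl
  have h2 : g₀.inner p w v = 0 := by
    rw [g₀.symm]
    exact hv w hw
  rw [h1, hu z hz, h2]
  simp only [Real.exp_zero]
  ring

theorem glob_ineq {k : ℕ} (hk : 0 < k) (hd : finrank ℝ E = finrank ℝ E₁ + k)
    (hd₁ : 0 < finrank ℝ E₁)
    (g₀ g : ContMDiffRiemannianMetric 𝓘(ℝ, E) ∞ E (fun x : M => TangentSpace 𝓘(ℝ, E) x))
    (gB : ContMDiffRiemannianMetric 𝓘(ℝ, E₁) ∞ E₁ (fun x : B => TangentSpace 𝓘(ℝ, E₁) x))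
    {pr : M → B} (hpr : RiemSub g₀ gB pr)
    (hmin : ∀ (σ : E₁ × EuclideanSpace ℝ (Fin k) → M) (q : E₁ × EuclideanSpace ℝ (Fin k)) (z : B),
      AC E pr σ q z → Min (fm g₀ σ) (gam g₀ σ) q)
    (hs : ∀ (σ : E₁ × EuclideanSpace ℝ (Fin k) → M) (q : E₁ × EuclideanSpace ℝ (Fin k)) (z : B),
      AC E pr σ q z → Curv.scal (fun y => fm g₀ σ (q.1, y)) q.2 ≤ 0) {α β : M → ℝ} (hα : Sm E α) (hβ : Sm E β)
    (hbi : Biconformal E₁ g₀ g pr (fun p => Real.exp (α p)) (fun p => Real.exp (β p)))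
    {κ : Type} [Fintype κ] {f : κ → B → ℝ} {c : κ → κ → B → ℝ}
    (hf : ∀ k, Sm E₁ (f k)) (hc : ∀ k l, Sm E₁ (c k l))
    (hdata : ∀ (x : B) (v w : E₁), ∑ k, ∑ l, c k l x * (dfun f k x v * dfun f l x w) =
        gB.inner x v w) (u v : M → ℝ)
    (hu : u = fun p => ((finrank ℝ E₁ : ℝ) - 1) * α p + (k : ℝ) * β p)
    (hv : v = fun p => ((k : ℝ) - 1) * β p + (finrank ℝ E₁ : ℝ) * α p) (p : M) :
    Real.exp (α p + β p) * Scal g p +
      2 * Real.exp (β p - α p) *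
        (lapH g₀ pr f c u p + (grdH g₀ pr f c u β p - grdH g₀ pr f c u α p)) +
      2 * Real.exp (α p - β p) *
        ((Lap g₀ v p - lapH g₀ pr f c v p) +
          ((Grd g₀ α v p - Grd g₀ β v p) -
            (grdH g₀ pr f c v α p - grdH g₀ pr f c v β p))) ≤
    Real.exp (β p - α p) * (Scal gB (pr p) -
        ((finrank ℝ E₁ : ℝ) - 1) * grdH g₀ pr f c α α p) := by
  have hfr : finrank ℝ (EuclideanSpace ℝ (Fin k)) = k := finrank_euclideanSpace_fin
  have hd' : finrank ℝ E = finrank ℝ E₁ + finrank ℝ (EuclideanSpace ℝ (Fin k)) := by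
    rw [hfr]
    exact hd
  have hd₂ : 0 < finrank ℝ (EuclideanSpace ℝ (Fin k)) := by
    rw [hfr]
    exact hk
  obtain ⟨σ₀, q, hσq₀, hA₀⟩ := exists_AC (E₂ := EuclideanSpace ℝ (Fin k)) hd' hpr.1 p
  have hz0 : Sm E (fun _ : M => (0 : ℝ)) := sm_const 0
  have hD₀ := Dat_of_AC g₀ gB hA₀ hα hβ
  set τ := normT (gam g₀ σ₀) q with hτd
  have hτ : ContDiff ℝ ∞ τ := normT_smooth _ _
  have hτq : τ q = q := normT_self _ _
  have hτ1 : ∀ y, (τ y).1 = y.1 := fun y => normT_fst _ _ y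
  have hτ2 : Function.Bijective (fderiv ℝ τ q) := by
    constructor
    · intro a b hab
      rw [hτd, normT_fderiv, normT_fderiv, Prod.ext_iff] at hab
      obtain ⟨h1, h2⟩ := hab
      simp only at h1 h2
      rw [h1] at h2
      exact Prod.ext h1 (add_right_cancel h2)
    · intro b
      refine ⟨(b.1, b.2 - gam g₀ σ₀ q b.1), ?_⟩
      rw [hτd, normT_fderiv]
      simp
  have hA := hA₀.comp hτ hτq hτ1 hτ2
  set σ : E₁ × EuclideanSpace ℝ (Fin k) → M := σ₀ ∘ τ with hσ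
  have hσq : σ q = p := by
    rw [hσ, Function.comp_apply, hτq, hσq₀]
  have hD := Dat_of_AC g₀ gB hA hα hβ
  have hN : NF (gam g₀ σ) q :=
    NF_of_rel hD₀.Γ_smooth hD.Γ_smooth (gam_comp g₀ hA₀ hτ hτq hτ1 hτ2)
  have hM : Min (fm g₀ σ) (gam g₀ σ) q := hmin σ q _ hA
  have hcf₀ : ∀ᶠ y in 𝓝 q, cf g₀ σ y = conn₀ (coeff gB (pr p)) (fm g₀ σ) (gam g₀ σ) y :=
    cf_eq_conn g₀ g₀ gB hpr (α := fun _ => 0) (β := fun _ => 0) biconformal_self hA
  have hcf := cf_eq_conn g₀ g gB hpr hbi hA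
  set z := pr p with hz
  have hsc : Curv.scal (fun y => fm g₀ σ (q.1, y)) q.2 ≤ 0 := hs σ q _ hA
  -- the point of the base
  have hq1 : q.1 = extChartAt 𝓘(ℝ, E₁) z z := by
    have h1 := hA.fst.self_of_nhds
    rw [hσq, ← hz] at h1
    exact h1.symm
  have htar : ∀ᶠ y in 𝓝 q, y.1 ∈ (extChartAt 𝓘(ℝ, E₁) z).target := by
    filter_upwards [hA.src, hA.fst] with y h1 h2
    rw [← h2]
    exact (extChartAt 𝓘(ℝ, E₁) z).map_source h1
  have hsymm : ∀ᶠ y in 𝓝 q, (extChartAt 𝓘(ℝ, E₁) z).symm y.1 = pr (σ y) := by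
    filter_upwards [hA.src, hA.fst] with y h1 h2
    rw [← h2]
    exact (extChartAt 𝓘(ℝ, E₁) z).left_inv h1
  have htq : q.1 ∈ (extChartAt 𝓘(ℝ, E₁) z).target := htar.self_of_nhds
  have htnhds : (extChartAt 𝓘(ℝ, E₁) z).target ∈ 𝓝 q.1 :=
    (isOpen_extChartAt_target z).mem_nhds htq
  -- functions pulled back from the base
  have hbase : ∀ u : B → ℝ, (fun y : E₁ × EuclideanSpace ℝ (Fin k) => rd E₁ z u y.1) =ᶠ[𝓝 q]
      (fun p => u (pr p)) ∘ σ := by
    intro u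
    filter_upwards [hsymm] with y hy
    unfold rd
    rw [hy]
    rfl
  -- the local inequality
  have hloc := loc_ineq (κ := κ) (F := fun k => rd E₁ z (f k)) (c := fun k l => rd E₁ z (c k l))
    hd₁ hd₂ hD hN hM
    (fun k => g3_rd_smooth (hf k) z htq) (fun k l => g3_rd_smooth (hc k l) z htq)
    (by
      filter_upwards [htnhds] with y hy u v
      exact Circ.data_chart gB hf hdata z hy u v) hsc (u ∘ σ) (v ∘ σ)
    (by
      rw [hu, hfr]
      rfl)
    (by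
      rw [hv, hfr]
      rfl)
  -- smoothness
  have hus : Sm E u := by
    rw [hu]
    exact sm_add (sm_smul hα _) (sm_smul hβ _)
  have hvs : Sm E v := by
    rw [hv]
    exact sm_add (sm_smul hβ _) (sm_smul hα _)
  have hfs : ∀ k, Sm E (fun x => f k (pr x)) := fun k => Circ.sm_comp_pr hpr.1.1 (hf k)
  -- translations
  have hgrd : ∀ {w w' : M → ℝ}, Sm E w → Sm E w' → ∀ᶠ y in 𝓝 q,
      gradC (conn₀ (coeff gB z) (fm g₀ σ) (gam g₀ σ)) (w ∘ σ) (w' ∘ σ) y =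
        Grd g₀ w w' (σ y) := by
    intro w w' hw hw'
    filter_upwards [hcf₀, hA.para] with y h1 h2
    rw [← Circ.grd_cf g₀ h2 hw hw']
    exact gradC_congr_metric h1.symm
  have hlap : ∀ {w : M → ℝ}, Sm E w → ∀ᶠ y in 𝓝 q,
      lapC (conn₀ (coeff gB z) (fm g₀ σ) (gam g₀ σ)) (w ∘ σ) y = Lap g₀ w (σ y) := by
    intro w hw
    filter_upwards [hcf₀.eventually_nhds, hA.para] with y h1 h2
    rw [← Circ.lap_cf g₀ h2 hw]
    exact lapC_congr_metric (h1.mono fun _ h => h.symm)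
  have hgrd1 : ∀ {w : M → ℝ}, Sm E w → ∀ k, ∀ᶠ y in 𝓝 q,
      gradC (conn₀ (coeff gB z) (fm g₀ σ) (gam g₀ σ)) (w ∘ σ) (fun p => rd E₁ z (f k) p.1) y =
        Grd g₀ w (fun x => f k (pr x)) (σ y) := by
    intro w hw k
    filter_upwards [hgrd hw (hfs k), (hbase (f k)).eventually_nhds] with y h1 h2
    rw [← h1]
    exact g3_gradC_congr EventuallyEq.rfl h2
  have hlap1 : ∀ k, ∀ᶠ y in 𝓝 q,
      lapC (conn₀ (coeff gB z) (fm g₀ σ) (gam g₀ σ)) (fun p => rd E₁ z (f k) p.1) y =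
        Lap g₀ (fun x => f k (pr x)) (σ y) := by
    intro k
    filter_upwards [hlap (hfs k), (hbase (f k)).eventually_nhds] with y h1 h2
    rw [← h1]
    exact g3_lapC_congr h2
  have hcc : ∀ k l, ∀ᶠ y in 𝓝 q, rd E₁ z (c k l) y.1 = c k l (pr (σ y)) := by
    intro k l
    filter_upwards [hbase (c k l)] with y h1
    exact h1
  have egrdH : ∀ {w w' : M → ℝ}, Sm E w → Sm E w' →
      gradHC (coeff gB z) (fm g₀ σ) (gam g₀ σ) (fun k => rd E₁ z (f k))
        (fun k l => rd E₁ z (c k l)) (w ∘ σ) (w' ∘ σ) q = grdH g₀ pr f c w w' p := by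
    intro w w' hw hw'
    unfold gradHC grdH
    refine Finset.sum_congr rfl fun a _ => Finset.sum_congr rfl fun b _ => ?_
    beta_reduce
    rw [(hcc a b).self_of_nhds, (hgrd1 hw a).self_of_nhds, (hgrd1 hw' b).self_of_nhds, hσq]
  have elapH : ∀ {w : M → ℝ}, Sm E w →
      lapHC (coeff gB z) (fm g₀ σ) (gam g₀ σ) (fun k => rd E₁ z (f k))
        (fun k l => rd E₁ z (c k l)) (w ∘ σ) q = lapH g₀ pr f c w p := by
    intro w hw
    unfold lapHC lapH
    refine Finset.sum_congr rfl fun a _ => Finset.sum_congr rfl fun b _ => ?_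
    have hW : Sm E (fun x => c a b (pr x) * Grd g₀ w (fun x => f a (pr x)) x) :=
      ContMDiff.mul (Circ.sm_comp_pr hpr.1.1 (hc a b)) (Circ.sm_grd g₀ hw (hfs a))
    have h1 : (fun y : E₁ × EuclideanSpace ℝ (Fin k) => rd E₁ z (c a b) y.1 *
        gradC (conn₀ (coeff gB z) (fm g₀ σ) (gam g₀ σ)) (w ∘ σ)
          (fun p => rd E₁ z (f a) p.1) y) =ᶠ[𝓝 q]
        (fun x => c a b (pr x) * Grd g₀ w (fun x => f a (pr x)) x) ∘ σ := by
      filter_upwards [hcc a b, hgrd1 hw a] with y h2 h3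
      rw [h2, h3]
      rfl
    beta_reduce
    rw [g3_gradC_congr h1 EventuallyEq.rfl, (hgrd1 hW b).self_of_nhds,
      (hcc a b).self_of_nhds, (hgrd1 hw a).self_of_nhds, (hlap1 b).self_of_nhds, hσq]
  have hpq := hA.para.self_of_nhds
  have e1 : Curv.scal (connMetric (coeff gB z) (fm g₀ σ) (gam g₀ σ) (α ∘ σ) (β ∘ σ)) q =
      Scal g p := by
    rw [← hσq, ← Circ.scal_cf g hpq]
    exact scalC_congr (hcf.mono fun _ h => h.symm)
  have e2 : Curv.scal (coeff gB z) q.1 = Scal gB z := by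
    rw [hq1]
    rfl
  have e3 : (α ∘ σ) q = α p := by rw [Function.comp_apply, hσq]
  have e4 : (β ∘ σ) q = β p := by rw [Function.comp_apply, hσq]
  rw [e1, e2, e3, e4, elapH hus, elapH hvs, egrdH hus hβ, egrdH hus hα, egrdH hvs hα,
    egrdH hvs hβ, egrdH hα hα, (hlap hvs).self_of_nhds, (hgrd hα hvs).self_of_nhds,
    (hgrd hβ hvs).self_of_nhds, hσq] at hloc
  exact hloc

end Pool.Agent.Lib.MP_df705a_gt.Fib
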