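import Pool.Agent.Lib.MP_df705a_gt.Fib.Defs

/-!
# TASK F7: the gradient product splits at a point where the connection vanishes
-/

open scoped Manifold ContDiff Topology
open Set Bundle Module Filter

noncomputable section

namespace Pool.Agent.Lib.MP_df705a_gt.Fib

open Pool.Agent.Lib.MP_df705a_gt.Twist Pool.Agent.Lib.MP_df705a_gt.Perm
open Pool.Agent.Lib.MP_df705a_gt.Sub (mB connMetric expn hd lift Dat)
open Pool.Agent.Lib.MP_df705a_gt.Circ (Horizontal Submersion HorAt cf Para)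

namespace GradSplitAux

open Pool.Agent.Lib.MP_df705a_gt.Twist.Alg

theorem nondeg_mkB {E : Type*} [NormedAddCommGroup E] [NormedSpace ℝ E] [FiniteDimensional ℝ E]
    {M : Matrix (Fin (finrank ℝ E)) (Fin (finrank ℝ E)) ℝ} (hM : M.PosDef) :
    Nondeg (finBasis ℝ E) (mkB (finBasis ℝ E) fun i j => M i j) := by
  refine ⟨mkB_symm _ fun i j => ?_, ?_⟩
  · have := hM.isHermitian.apply j i
    simpa using this
  · have h1 : gram (finBasis ℝ E) (mkB (finBasis ℝ E) fun i j => M i j) = M := gram_mkB _ _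
    rw [h1]
    exact (Matrix.isUnit_iff_isUnit_det _).mp hM.isUnit

theorem nondeg_basis {V : Type*} [AddCommGroup V] [Module ℝ V] {ι κ : Type*} [Fintype ι]
    [DecidableEq ι] [Fintype κ] [DecidableEq κ] {e : Basis ι ℝ V} (f : Basis κ ℝ V) {h : Bil V}
    (he : Nondeg e h) : Nondeg f h := by
  refine ⟨he.symm, ?_⟩
  have h1 := (LinearMap.BilinForm.nondegenerate_iff_det_ne_zero (B := h) e).mpr ?_
  · have h2 := (LinearMap.BilinForm.nondegenerate_iff_det_ne_zero (B := h) f).mp h1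
    have h3 : gram f h = LinearMap.BilinForm.toMatrix f h := by
      ext i j
      rw [LinearMap.BilinForm.toMatrix_apply]
      rfl
    rw [h3]
    exact isUnit_iff_ne_zero.mpr h2
  · have h3 : LinearMap.BilinForm.toMatrix e h = gram e h := by
      ext i j
      rw [LinearMap.BilinForm.toMatrix_apply]
      rfl
    rw [h3]
    exact isUnit_iff_ne_zero.mp he.det

variable {E₁ : Type*} [NormedAddCommGroup E₁] [NormedSpace ℝ E₁] [FiniteDimensional ℝ E₁]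
  {E₂ : Type*} [NormedAddCommGroup E₂] [NormedSpace ℝ E₂] [FiniteDimensional ℝ E₂]
  {h : Curv.Coeff E₁} {f : E₁ × E₂ → Matrix (Fin (finrank ℝ E₂)) (Fin (finrank ℝ E₂)) ℝ}
  {Γ : E₁ × E₂ → E₁ →L[ℝ] E₂} {q : E₁ × E₂}

theorem conn0_at (hΓ : Γ q = 0) : conn₀ h f Γ q =
    blockMetric (fun p : E₁ × E₂ => h p.1) f (fun _ => 0) (fun _ => 0) q := by
  funext i j
  simp only [conn₀, connMetric, blockMetric, mB, hΓ, _root_.zero_apply, sub_zero]

theorem form_at (hΓ : Γ q = 0) (v w : E₁ × E₂) : fB (conn₀ h f Γ) q v w =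
    mkB (finBasis ℝ E₁) (fun i j => h q.1 i j) v.1 w.1 +
      mkB (finBasis ℝ E₂) (fun i j => f q i j) v.2 w.2 := by
  have h1 : fB (conn₀ h f Γ) q = fB (blockMetric (fun p : E₁ × E₂ => h p.1) f (fun _ => 0)
      (fun _ => 0)) q := by
    unfold fB
    rw [conn0_at hΓ]
  rw [h1, block_form]
  simp

theorem nondeg_prod_at (hΓ : Γ q = 0) (hh : (h q.1).PosDef) (hf : (f q).PosDef) :
    Nondeg ((finBasis ℝ E₁).prod (finBasis ℝ E₂)) (fB (conn₀ h f Γ) q) :=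
  nondeg_prod (nondeg_mkB hh) (nondeg_mkB hf) fun u v => form_at hΓ u v

end GradSplitAux

open GradSplitAux

variable {E₁ : Type*} [NormedAddCommGroup E₁] [NormedSpace ℝ E₁] [FiniteDimensional ℝ E₁]
  {E₂ : Type*} [NormedAddCommGroup E₂] [NormedSpace ℝ E₂] [FiniteDimensional ℝ E₂]
  {h : Curv.Coeff E₁} {f : E₁ × E₂ → Matrix (Fin (finrank ℝ E₂)) (Fin (finrank ℝ E₂)) ℝ}
  {Γ : E₁ × E₂ → E₁ →L[ℝ] E₂} {α β : E₁ × E₂ → ℝ} {q : E₁ × E₂}

theorem gradC_split (hD : Dat h f Γ α β q) (hΓ : Γ q = 0) {φ χ : E₁ × E₂ → ℝ}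
    (hφ : ContDiffAt ℝ ∞ φ q) (hχ : ContDiffAt ℝ ∞ χ q) :
    gradC (conn₀ h f Γ) φ χ q =
      gradC h (fun x => φ (x, q.2)) (fun x => χ (x, q.2)) q.1 +
      gradC (fun y => f (q.1, y)) (fun y => φ (q.1, y)) (fun y => χ (q.1, y)) q.2 := by
  have hh := hD.h_pos.self_of_nhds
  have hf := hD.f_pos.self_of_nhds
  have n1 := nondeg_prod_at (h := h) (f := f) hΓ hh hf
  have n2 := nondeg_basis (finBasis ℝ (E₁ × E₂)) n1
  rw [gradC_link, Alg.cop_basis n2 n1,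
    Alg.cop_prod (nondeg_mkB hh) (nondeg_mkB hf) (fun u v => form_at hΓ u v)]
  have e1 : gradC h (fun x => φ (x, q.2)) (fun x => χ (x, q.2)) q.1 =
      Alg.cop (finBasis ℝ E₁) (Alg.mkB (finBasis ℝ E₁) fun i j => h q.1 i j)
        (fun u => (fderiv ℝ φ q : (E₁ × E₂) →ₗ[ℝ] ℝ) (u, 0))
        (fun u => (fderiv ℝ χ q : (E₁ × E₂) →ₗ[ℝ] ℝ) (u, 0)) :=
    gradC_link.trans (Alg.cop_congr (fun u => Alg.slice1_fderiv hφ u)
      fun u => Alg.slice1_fderiv hχ u)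
  have e2 : gradC (fun y => f (q.1, y)) (fun y => φ (q.1, y)) (fun y => χ (q.1, y)) q.2 =
      Alg.cop (finBasis ℝ E₂) (Alg.mkB (finBasis ℝ E₂) fun i j => f q i j)
        (fun u => (fderiv ℝ φ q : (E₁ × E₂) →ₗ[ℝ] ℝ) (0, u))
        (fun u => (fderiv ℝ χ q : (E₁ × E₂) →ₗ[ℝ] ℝ) (0, u)) :=
    (gradC_link (h := fun y => f (q.1, y))).trans (Alg.cop_congr
      (fun u => Alg.slice2_fderiv hφ u) fun u => Alg.slice2_fderiv hχ u)
  rw [e1, e2]

end Pool.Agent.Lib.MP_df705a_gt.Fib
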