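import Pool.Agent.Lib.MP_df705a_gt.Circ.Main
import Pool.Agent.Lib.MP_df705a_gt.Mg.G011
import Pool.Agent.Lib.MP_df705a_gt.Fib.ChangeGrd
import Pool.Agent.Lib.MP_df705a_gt.Fib.ChangeRules
import Pool.Agent.Lib.MP_df705a_gt.Fib.DivId
import Pool.Agent.Lib.MP_df705a_gt.Fib.FibScal
import Pool.Agent.Lib.MP_df705a_gt.Fib.Glob
import Pool.Agent.Lib.MP_df705a_gt.Fib.MinOf

/-!
# The theorem on biconformal deformations
-/

open scoped Manifold ContDiff Topology
open Set Bundle Module Filter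

noncomputable section

namespace Pool.Agent.Lib.MP_df705a_gt.Fib

open Pool.Agent.Lib.MP_df705a_gt.Twist Pool.Agent.Lib.MP_df705a_gt.Perm
open Pool.Agent.Lib.MP_df705a_gt.Circ (Horizontal Submersion HorAt cf Para)

variable {E₁ : Type*} [NormedAddCommGroup E₁] [NormedSpace ℝ E₁] [FiniteDimensional ℝ E₁]
  {B : Type*} [TopologicalSpace B] [ChartedSpace E₁ B] [IsManifold 𝓘(ℝ, E₁) ∞ B]
  {E : Type*} [NormedAddCommGroup E] [NormedSpace ℝ E] [FiniteDimensional ℝ E]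
  {M : Type*} [TopologicalSpace M] [ChartedSpace E M] [IsManifold 𝓘(ℝ, E) ∞ M]

theorem grd_neg_left (g : ContMDiffRiemannianMetric 𝓘(ℝ, E) ∞ E
      (fun x : M => TangentSpace 𝓘(ℝ, E) x)) {w : M → ℝ} (hw : Sm E w) (u : M → ℝ) (p : M) :
    Grd g (fun x => -1 * w x) u p = -Grd g w u p := by
  rw [grd_mul_left g (sm_const (-1)) hw, Circ.grd_const_left]
  ring

/-- A sum of divergences `div (w_i grad u_i)` is not everywhere negative. -/
theorem exists_nonneg_sum [CompactSpace M] [T2Space M] [Nonempty M]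
    (g : ContMDiffRiemannianMetric 𝓘(ℝ, E) ∞ E (fun x : M => TangentSpace 𝓘(ℝ, E) x))
    {ι : Type*} [Fintype ι] (w u : ι → M → ℝ) (hw : ∀ i, Sm E (w i)) (hu : ∀ i, Sm E (u i)) :
    ∃ x, 0 ≤ ∑ i, (Grd g (w i) (u i) x + w i x * Lap g (u i) x) := by
  obtain ⟨x, hx⟩ := Circ.exists_nonpos_sum g (fun i x => -1 * w i x) u
    (fun i => sm_smul (hw i) (-1)) hu
  refine ⟨x, ?_⟩
  have h1 : ∑ i, (Grd g (fun x => -1 * w i x) (u i) x + -1 * w i x * Lap g (u i) x) =
      -∑ i, (Grd g (w i) (u i) x + w i x * Lap g (u i) x) := by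
    rw [← Finset.sum_neg_distrib]
    refine Finset.sum_congr rfl fun i _ => ?_
    rw [grd_neg_left g (hw i)]
    ring
  rw [h1] at hx
  linarith

theorem sm_grdH (g : ContMDiffRiemannianMetric 𝓘(ℝ, E) ∞ E
      (fun x : M => TangentSpace 𝓘(ℝ, E) x)) {pr : M → B}
    (hpr : ContMDiff 𝓘(ℝ, E) 𝓘(ℝ, E₁) ∞ pr) {κ : Type} [Fintype κ] {f : κ → B → ℝ}
    {c : κ → κ → B → ℝ} (hf : ∀ k, Sm E₁ (f k)) (hc : ∀ k l, Sm E₁ (c k l)) {φ χ : M → ℝ}
    (hφ : Sm E φ) (hχ : Sm E χ) : Sm E (grdH g pr f c φ χ) := by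
  unfold grdH
  have h1 : ∀ k l, Sm E fun p => c k l (pr p) * (Grd g φ (fun x => f k (pr x)) p *
      Grd g χ (fun x => f l (pr x)) p) := fun k l =>
    ContMDiff.mul (Circ.sm_comp_pr hpr (hc k l))
      (ContMDiff.mul (Circ.sm_grd g hφ (Circ.sm_comp_pr hpr (hf k)))
        (Circ.sm_grd g hχ (Circ.sm_comp_pr hpr (hf l))))
  exact contMDiff_finsetSum fun k _ => contMDiff_finsetSum fun l _ => h1 k l

theorem sm_exp {s : M → ℝ} (hs : Sm E s) : Sm E fun x => Real.exp (s x) :=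
  sm_comp hs fun _ => Real.contDiff_exp.contDiffAt

/-- The integrated inequality: at some point the left hand side is at most the right hand side. -/
theorem exists_point [CompactSpace M] [T2Space M] [Nonempty M]
    [CompactSpace B] [T2Space B] {k : ℕ} (hk : 0 < k)
    (hd : finrank ℝ E = finrank ℝ E₁ + k) (hd₁ : 0 < finrank ℝ E₁)
    (g₀ g : ContMDiffRiemannianMetric 𝓘(ℝ, E) ∞ E (fun x : M => TangentSpace 𝓘(ℝ, E) x))
    (gB : ContMDiffRiemannianMetric 𝓘(ℝ, E₁) ∞ E₁ (fun x : B => TangentSpace 𝓘(ℝ, E₁) x))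
    {pr : M → B} (hpr : RiemSub g₀ gB pr)
    (hmin : ∀ (σ : E₁ × EuclideanSpace ℝ (Fin k) → M) (q : E₁ × EuclideanSpace ℝ (Fin k)) (z : B),
      AC E pr σ q z → Min (fm g₀ σ) (gam g₀ σ) q)
    (hs : ∀ (σ : E₁ × EuclideanSpace ℝ (Fin k) → M) (q : E₁ × EuclideanSpace ℝ (Fin k)) (z : B),
      AC E pr σ q z → Curv.scal (fun y => fm g₀ σ (q.1, y)) q.2 ≤ 0) {α β : M → ℝ}
    (hα : Sm E α) (hβ : Sm E β)
    (hbi : Biconformal E₁ g₀ g pr (fun p => Real.exp (α p)) (fun p => Real.exp (β p)))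
    {κ : Type} [Fintype κ] {f : κ → B → ℝ} {c : κ → κ → B → ℝ}
    (hf : ∀ k, Sm E₁ (f k)) (hc : ∀ k l, Sm E₁ (c k l))
    (hdata : ∀ (x : B) (v w : E₁), ∑ k, ∑ l, c k l x * (dfun f k x v * dfun f l x w) =
        gB.inner x v w) :
    ∃ p : M, Real.exp (α p + β p) * Scal g p ≤ Real.exp (β p - α p) * (Scal gB (pr p) -
        ((finrank ℝ E₁ : ℝ) - 1) * grdH g₀ pr f c α α p) := by
  set u : M → ℝ := fun p => ((finrank ℝ E₁ : ℝ) - 1) * α p + (k : ℝ) * β p with hu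
  set v : M → ℝ := fun p => ((k : ℝ) - 1) * β p + (finrank ℝ E₁ : ℝ) * α p with hv
  have hus : Sm E u := sm_add (sm_smul hα _) (sm_smul hβ _)
  have hvs : Sm E v := sm_add (sm_smul hβ _) (sm_smul hα _)
  have hfs : ∀ k, Sm E (fun x => f k (pr x)) := fun k => Circ.sm_comp_pr hpr.1.1 (hf k)
  have hab : Sm E fun x => α x - β x := ContMDiff.sub hα hβ
  have hba : Sm E fun x => β x - α x := ContMDiff.sub hβ hα
  have hW : ∀ {φ : M → ℝ}, Sm E φ → ∀ a b, Sm E fun x => c a b (pr x) *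
      Grd g₀ φ (fun x => f a (pr x)) x := fun hφ a b =>
    ContMDiff.mul (Circ.sm_comp_pr hpr.1.1 (hc a b)) (Circ.sm_grd g₀ hφ (hfs a))
  let w : Option (Bool × κ × κ) → M → ℝ := fun o => match o with
    | none => fun x => Real.exp (α x - β x)
    | some (true, a, b) => fun x => Real.exp (β x - α x) *
        (c a b (pr x) * Grd g₀ u (fun x => f a (pr x)) x)
    | some (false, a, b) => fun x => -1 * (Real.exp (α x - β x) *
        (c a b (pr x) * Grd g₀ v (fun x => f a (pr x)) x))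
  let t : Option (Bool × κ × κ) → M → ℝ := fun o => match o with
    | none => v
    | some i => fun p => f i.2.2 (pr p)
  have hw : ∀ i, Sm E (w i) := by
    intro i
    rcases i with _ | ⟨_ | _, a, b⟩
    · exact sm_exp hab
    · exact sm_smul (ContMDiff.mul (sm_exp hab) (hW hvs a b)) (-1)
    · exact ContMDiff.mul (sm_exp hba) (hW hus a b)
  have ht : ∀ i, Sm E (t i) := by
    intro i
    rcases i with _ | i
    · exact hvs
    · exact hfs _
  obtain ⟨x, hx⟩ := exists_nonneg_sum g₀ w t hw ht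
  refine ⟨x, ?_⟩
  have hgl := glob_ineq hk hd hd₁ g₀ g gB hpr hmin hs hα hβ hbi hf hc hdata u v hu hv x
  have hsum : ∑ i, (Grd g₀ (w i) (t i) x + w i x * Lap g₀ (t i) x) =
      Real.exp (β x - α x) *
        (lapH g₀ pr f c u x + (grdH g₀ pr f c u β x - grdH g₀ pr f c u α x)) +
      Real.exp (α x - β x) * ((Lap g₀ v x - lapH g₀ pr f c v x) +
          ((Grd g₀ α v x - Grd g₀ β v x) -
            (grdH g₀ pr f c v α x - grdH g₀ pr f c v β x))) := by
    rw [Fintype.sum_option, Fintype.sum_prod_type, Fintype.sum_bool, Fintype.sum_prod_type,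
      Fintype.sum_prod_type]
    simp only [w, t]
    have e1 := div_id g₀ hpr.1.1 hf hc hβ hα hus x
    have e2 := div_id g₀ hpr.1.1 hf hc hα hβ hvs x
    have e3 : ∑ a, ∑ b, (Grd g₀ (fun x => -1 * (Real.exp (α x - β x) *
          (c a b (pr x) * Grd g₀ v (fun x => f a (pr x)) x))) (fun p => f b (pr p)) x +
        -1 * (Real.exp (α x - β x) * (c a b (pr x) * Grd g₀ v (fun x => f a (pr x)) x)) *
          Lap g₀ (fun p => f b (pr p)) x) =
        -∑ k, ∑ l, (Grd g₀ (fun x => Real.exp (α x - β x) *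
        (c k l (pr x) * Grd g₀ v (fun x => f k (pr x)) x)) (fun x => f l (pr x)) x +
      Real.exp (α x - β x) * (c k l (pr x) * Grd g₀ v (fun x => f k (pr x)) x) *
        Lap g₀ (fun x => f l (pr x)) x) := by
      rw [← Finset.sum_neg_distrib]
      refine Finset.sum_congr rfl fun a _ => ?_
      rw [← Finset.sum_neg_distrib]
      refine Finset.sum_congr rfl fun b _ => ?_
      have e4 : Sm E fun x => Real.exp (α x - β x) *
          (c a b (pr x) * Grd g₀ v (fun x => f a (pr x)) x) :=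
        ContMDiff.mul (sm_exp hab) (hW hvs a b)
      rw [grd_neg_left g₀ e4]
      ring
    rw [e3, e1, e2, grd_exp_left g₀ hab, grd_sub_left g₀ hα hβ]
    ring
  rw [hsum] at hx
  linarith

theorem conf_of_biconf [CompactSpace M] [T2Space M] [Nonempty M]
    [CompactSpace B] [T2Space B] [ConnectedSpace B] {k : ℕ} (hk : 0 < k)
    (hd : finrank ℝ E = finrank ℝ E₁ + k) (hd₁ : 0 < finrank ℝ E₁)
    (g₀ g : ContMDiffRiemannianMetric 𝓘(ℝ, E) ∞ E (fun x : M => TangentSpace 𝓘(ℝ, E) x))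
    (gB : ContMDiffRiemannianMetric 𝓘(ℝ, E₁) ∞ E₁ (fun x : B => TangentSpace 𝓘(ℝ, E₁) x))
    {pr : M → B} (hpr : RiemSub g₀ gB pr) (hmin : MinimalFibres g₀ gB pr)
    (hs : NonposFibres k g₀ pr) {a b : M → ℝ} (ha : Sm E a) (ha0 : ∀ p, 0 < a p)
    (hb : Sm E b) (hb0 : ∀ p, 0 < b p) (hbi : Biconformal E₁ g₀ g pr a b)
    (hpos : PosScal g) : ConfPSC gB := by
  by_contra hcon
  set α : M → ℝ := fun p => Real.log (a p) with hαd
  set β : M → ℝ := fun p => Real.log (b p) with hβd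
  have hα : Sm E α := sm_comp ha fun p => Real.contDiffAt_log.2 (ha0 p).ne'
  have hβ : Sm E β := sm_comp hb fun p => Real.contDiffAt_log.2 (hb0 p).ne'
  obtain ⟨m₀, hm₀, hm₀S⟩ := exists_scal_lower g hpos
  obtain ⟨ι, _, f, c, hf, hc, -, -, hdata, -⟩ := exists_data gB
  have hGc : Continuous (grdH g₀ pr f c α α) := (sm_grdH g₀ hpr.1.1 hf hc hα hα).continuous
  obtain ⟨C₀, hC₀⟩ := (isCompact_range hGc).bddAbove
  have hC₀' : ∀ p, grdH g₀ pr f c α α p ≤ C₀ := fun p => hC₀ ⟨p, rfl⟩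
  have hexpc : Continuous fun p => Real.exp (2 * α p) :=
    Real.continuous_exp.comp (continuous_const.mul hα.continuous)
  obtain ⟨p₀, -, hp₀⟩ := isCompact_univ.exists_isMinOn univ_nonempty hexpc.continuousOn
  set A₀ : ℝ := Real.exp (2 * α p₀) with hA₀
  have hA₀0 : 0 < A₀ := Real.exp_pos _
  have hA₀' : ∀ p, A₀ ≤ Real.exp (2 * α p) := fun p => hp₀ (mem_univ p)
  set n : ℝ := (finrank ℝ E₁ : ℝ) with hn
  have hn1 : 1 ≤ n := by
    rw [hn]
    exact_mod_cast hd₁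
  have hden : 0 < 8 * (n * (|C₀| + 1)) := by positivity
  obtain ⟨ψ, hψ, hψ2⟩ := exists_almost_nonpos hd₁ gB hcon (ε := m₀ * A₀ / 4)
    (κ := min (1 / 2) (m₀ * A₀ / (8 * (n * (|C₀| + 1))))) (by positivity)
    (lt_min (by norm_num) (by positivity))
  set κ : ℝ := min (1 / 2) (m₀ * A₀ / (8 * (n * (|C₀| + 1)))) with hκ
  have hκ0 : 0 < κ := lt_min (by norm_num) (by positivity)
  have hκ1 : κ ≤ 1 / 2 := min_le_left _ _
  have hκ2 : κ * (8 * (n * (|C₀| + 1))) ≤ m₀ * A₀ := by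
    have := min_le_right (1 / 2 : ℝ) (m₀ * A₀ / (8 * (n * (|C₀| + 1))))
    rwa [← hκ, le_div_iff₀ hden] at this
  obtain ⟨gB', hgB'⟩ := exists_conf gB hψ
  obtain ⟨g₀', hg₀'⟩ := exists_change g₀ gB hpr hψ
  have hpr' := hg₀'.riemSub hpr hgB'
  have hbi0 : Biconformal E₁ g₀' g pr (fun p => Real.exp (α p - ψ (pr p)))
      (fun p => Real.exp (β p)) := by
    have h1 := hg₀'.biconformal hpr hbi
    have h2 : (fun p => a p * Real.exp (-ψ (pr p))) = fun p => Real.exp (α p - ψ (pr p)) := by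
      funext p
      rw [sub_eq_add_neg, Real.exp_add, hαd, Real.exp_log (ha0 p)]
    have h3 : b = fun p => Real.exp (β p) := by
      funext p
      rw [hβd, Real.exp_log (hb0 p)]
    rwa [h2, h3] at h1
  have hψpr : Sm E (fun p => ψ (pr p)) := Circ.sm_comp_pr hpr.1.1 hψ
  have hα' : Sm E (fun p => α p - ψ (pr p)) := ContMDiff.sub hα hψpr
  obtain ⟨ι', _, f', c', hf', hc', -, -, hdata', -⟩ := exists_data gB'
  obtain ⟨x, hx⟩ := exists_point hk hd hd₁ g₀' g gB' hpr'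
    (fun σ q z hA => (min_of g₀ gB hpr hmin hf hc hdata hA).congr (hg₀'.fm_gam hA))
    (fun σ q z hA => by
      have h1 : (fun y => fm g₀' σ (q.1, y)) =ᶠ[𝓝 q.2] fun y => fm g₀ σ (q.1, y) := by
        have h2 : ContinuousAt (fun y : EuclideanSpace ℝ (Fin k) => (q.1, y)) q.2 :=
          (continuous_const.prodMk continuous_id).continuousAt
        exact h2.eventually (p := fun y => fm g₀' σ y = fm g₀ σ y)
          ((hg₀'.fm_gam hA).mono fun _ h => h.1)
      rw [scalC_congr h1]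
      exact fibScal g₀ hs hA) hα' hβ hbi0 hf' hc' hdata'
  -- the estimates at the point `x`
  have h3 := hgB'.scal hψ (pr x)
  have h4 := hψ2 (pr x)
  have h5 := hm₀S x
  have h6 := hg₀'.grdH hpr hgB' hf hdata hf' hdata' hα' x
  have h7 := grdH_le g₀ gB hpr.1.1 (c := c) hf hdata x hψpr hα
  rw [grdH_pull g₀ gB hpr hf hdata x hψ] at h7
  have h8 := grdH_nonneg g₀ gB hpr.1.1 (c := c) hf hdata x hα'
  have h9 := hC₀' x
  have h10 := hA₀' x
  rw [← hn] at h3 h4 hx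
  rw [h6] at hx
  set s : ℝ := ψ (pr x) with hs'
  set G1 : ℝ := grdH g₀ pr f c α α x with hG1
  set G2 : ℝ := grdH g₀ pr f c (fun p => α p - ψ (pr p)) (fun p => α p - ψ (pr p)) x with hG2
  set Gψ : ℝ := Grd gB ψ ψ (pr x) with hGψ
  set S : ℝ := Scal g x with hS
  have e1 : Scal gB' (pr x) ≤ Real.exp (-(2 * s)) * (m₀ * A₀ / 4 + κ * (n - 1) * Gψ) := by
    rw [h3]
    exact mul_le_mul_of_nonneg_left h4 (Real.exp_pos _).le
  have e2 : κ * (n - 1) * Gψ ≤ m₀ * A₀ / 4 + (n - 1) * G2 := by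
    have k1 : κ * (n - 1) * Gψ ≤ κ * (n - 1) * (2 * G1 + 2 * G2) :=
      mul_le_mul_of_nonneg_left h7 (mul_nonneg hκ0.le (by linarith))
    have k2 : κ * (n - 1) * (2 * G2) ≤ (n - 1) * G2 := by
      have : κ * ((n - 1) * (2 * G2)) ≤ (1 / 2) * ((n - 1) * (2 * G2)) :=
        mul_le_mul_of_nonneg_right hκ1 (mul_nonneg (by linarith) (by linarith))
      nlinarith
    have k3 : κ * (n - 1) * (2 * G1) ≤ m₀ * A₀ / 4 := by
      have hC1 : G1 ≤ |C₀| + 1 := h9.trans ((le_abs_self _).trans (by linarith))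
      calc κ * (n - 1) * (2 * G1) ≤ κ * (n - 1) * (2 * (|C₀| + 1)) :=
            mul_le_mul_of_nonneg_left (by linarith) (mul_nonneg hκ0.le (by linarith))
        _ ≤ κ * (2 * (n * (|C₀| + 1))) := by
            have : (n - 1) * (2 * (|C₀| + 1)) ≤ 2 * (n * (|C₀| + 1)) := by
              nlinarith [abs_nonneg C₀]
            calc κ * (n - 1) * (2 * (|C₀| + 1)) = κ * ((n - 1) * (2 * (|C₀| + 1))) := by ring
              _ ≤ _ := mul_le_mul_of_nonneg_left this hκ0.le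
        _ ≤ m₀ * A₀ / 4 := by linarith
    have k5 : κ * (n - 1) * (2 * G1 + 2 * G2) = κ * (n - 1) * (2 * G1) +
        κ * (n - 1) * (2 * G2) := by ring
    linarith
  have e3 : Scal gB' (pr x) - (n - 1) * (Real.exp (-(2 * s)) * G2) ≤
      Real.exp (-(2 * s)) * (m₀ * A₀ / 2) := by
    have k1 : Real.exp (-(2 * s)) * (m₀ * A₀ / 4 + κ * (n - 1) * Gψ) ≤
        Real.exp (-(2 * s)) * (m₀ * A₀ / 4 + (m₀ * A₀ / 4 + (n - 1) * G2)) :=
      mul_le_mul_of_nonneg_left (by linarith) (Real.exp_pos _).le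
    have k2 : Real.exp (-(2 * s)) * (m₀ * A₀ / 4 + (m₀ * A₀ / 4 + (n - 1) * G2)) =
        Real.exp (-(2 * s)) * (m₀ * A₀ / 2) + (n - 1) * (Real.exp (-(2 * s)) * G2) := by ring
    linarith
  have e4 : Real.exp (α x - s + β x) * S ≤
      Real.exp (β x - (α x - s)) * (Real.exp (-(2 * s)) * (m₀ * A₀ / 2)) :=
    hx.trans (mul_le_mul_of_nonneg_left e3 (Real.exp_pos _).le)
  have e5 : Real.exp (α x - s + β x) * m₀ ≤ Real.exp (α x - s + β x) * S :=
    mul_le_mul_of_nonneg_left h5 (Real.exp_pos _).le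
  have e6 : Real.exp (β x - (α x - s)) * (Real.exp (-(2 * s)) * (m₀ * A₀ / 2)) =
      Real.exp (β x - α x - s) * (m₀ * A₀ / 2) := by
    rw [← mul_assoc, ← Real.exp_add]
    congr 2
    ring
  have e7 : Real.exp (α x - s + β x) = Real.exp (β x - α x - s) * Real.exp (2 * α x) := by
    rw [← Real.exp_add]
    congr 1
    ring
  rw [e6, e7] at e4
  rw [e7] at e5
  have e8 := e5.trans e4
  rw [mul_assoc] at e8
  have e9 : Real.exp (2 * α x) * m₀ ≤ m₀ * A₀ / 2 := le_of_mul_le_mul_left e8 (Real.exp_pos _)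
  have e10 : A₀ * m₀ ≤ Real.exp (2 * α x) * m₀ := mul_le_mul_of_nonneg_right h10 hm₀.le
  have e11 : 0 < A₀ * m₀ := mul_pos hA₀0 hm₀
  linarith

end Pool.Agent.Lib.MP_df705a_gt.Fib
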